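import Mathlib

/-! # Maximum cliques in graphs with the six-point property -/

namespace Pool.Agent.Lib.MP_df76ee_lc

set_option linter.unusedSectionVars false

variable {N : ℕ} {adj : ℕ → ℕ → Prop}

/-- `x` is a common neighbour of the members of `S`. -/
def CN (N : ℕ) (adj : ℕ → ℕ → Prop) (S : List ℕ) (x : ℕ) : Prop := x < N ∧ ∀ s ∈ S, adj x s

/-- Non-adjacency among common neighbours of `S`. -/
def Gen (N : ℕ) (adj : ℕ → ℕ → Prop) (S : List ℕ) (x y : ℕ) : Prop :=
  CN N adj S x ∧ CN N adj S y ∧ ¬adj x y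

/-- The co-component relation on the common neighbours of `S`. -/
def Co (N : ℕ) (adj : ℕ → ℕ → Prop) (S : List ℕ) : ℕ → ℕ → Prop :=
  Relation.TransGen (Gen N adj S)

/-- Symmetric irreflexive relation. -/
structure Gr (adj : ℕ → ℕ → Prop) : Prop where
  symm : ∀ {x y}, adj x y → adj y x
  irr : ∀ {x}, ¬adj x x

theorem Co.left {S : List ℕ} {x y : ℕ} (h : Co N adj S x y) : CN N adj S x := by
  induction h with
  | single h => exact h.1
  | tail _ _ ih => exact ih

theorem Co.right {S : List ℕ} {x y : ℕ} (h : Co N adj S x y) : CN N adj S y := by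
  induction h with
  | single h => exact h.2.1
  | tail _ h _ => exact h.2.1

theorem Co.refl (hG : Gr adj) {S : List ℕ} {x : ℕ} (h : CN N adj S x) : Co N adj S x x :=
  .single ⟨h, h, hG.irr⟩

theorem Co.trans {S : List ℕ} {x y z : ℕ} (h1 : Co N adj S x y) (h2 : Co N adj S y z) :
    Co N adj S x z := Relation.TransGen.trans h1 h2

theorem Co.symm (hG : Gr adj) {S : List ℕ} {x y : ℕ} (h : Co N adj S x y) : Co N adj S y x := by
  induction h with
  | single h => exact .single ⟨h.2.1, h.1, fun h' => h.2.2 (hG.symm h')⟩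
  | tail _ h ih => exact .head ⟨h.2.1, h.1, fun h' => h.2.2 (hG.symm h')⟩ ih

theorem Co.adjOf {S : List ℕ} {z x w : ℕ} (h : Co N adj S z x) (hw : CN N adj S w)
    (hn : ¬Co N adj S z w) : adj x w := by
  by_contra hc
  exact hn (h.tail ⟨h.right, hw, hc⟩)

/-- Graphs with a hidden order `pos` satisfying the six-point property. -/
structure Cls (N : ℕ) (adj : ℕ → ℕ → Prop) (pos : ℕ → ℕ) : Prop extends Gr adj where
  inj : ∀ {x y}, x < N → y < N → pos x = pos y → x = y
  last : ∀ a b x c d y, a < N → b < N → x < N → c < N → d < N → y < N →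
    pos a < pos b → pos b < pos x → pos x < pos c → pos c < pos d → pos d < pos y →
    adj a b → adj a c → adj a d → adj b c → adj b d → adj c d →
    adj x a → adj x b → adj x c → adj x d → adj y a → adj y b → adj y c → adj y d → adj x y
  first : ∀ a b x c d y, a < N → b < N → x < N → c < N → d < N → y < N →
    pos y < pos a → pos a < pos b → pos b < pos x → pos x < pos c → pos c < pos d →
    adj a b → adj a c → adj a d → adj b c → adj b d → adj c d →
    adj x a → adj x b → adj x c → adj x d → adj y a → adj y b → adj y c → adj y d → adj x y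

/-- Cliques. -/
structure Clq (N : ℕ) (adj : ℕ → ℕ → Prop) (K : Finset ℕ) : Prop where
  lt : ∀ {x}, x ∈ K → x < N
  pair : ∀ {x y}, x ∈ K → y ∈ K → x ≠ y → adj x y

/-- Maximum cliques. -/
structure MaxClq (N : ℕ) (adj : ℕ → ℕ → Prop) (K : Finset ℕ) : Prop extends Clq N adj K where
  max : ∀ K', Clq N adj K' → K'.card ≤ K.card

theorem MaxClq.extend (hG : Gr adj) {K : Finset ℕ} (hK : MaxClq N adj K) {w : ℕ} (hw : w < N)
    (hwK : w ∉ K) : ∃ p ∈ K, ¬adj w p := by
  by_contra hc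
  push Not at hc
  have : Clq N adj (insert w K) := by
    constructor
    · intro x hx
      rcases Finset.mem_insert.1 hx with rfl | hx
      · exact hw
      · exact hK.lt hx
    · intro x y hx hy hxy
      rcases Finset.mem_insert.1 hx with hx' | hx'
      · rcases Finset.mem_insert.1 hy with hy' | hy'
        · exact absurd (hx'.trans hy'.symm) hxy
        · rw [hx']; exact hc y hy'
      · rcases Finset.mem_insert.1 hy with hy' | hy'
        · rw [hy']; exact hG.symm (hc x hx')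
        · exact hK.pair hx' hy' hxy
  have := hK.max _ this
  rw [Finset.card_insert_of_notMem hwK] at this
  omega

theorem MaxClq.extendCo (hG : Gr adj) {K : Finset ℕ} (hK : MaxClq N adj K) {S : List ℕ}
    (hS : ∀ s ∈ S, s ∈ K) {z w : ℕ} (hw : Co N adj S z w) (hwK : w ∉ K) :
    ∃ p ∈ K, Co N adj S z p ∧ ¬adj w p := by
  obtain ⟨p, hp, hn⟩ := hK.extend hG hw.right.1 hwK
  refine ⟨p, hp, ?_, hn⟩
  by_contra hc
  apply hn
  by_cases hpS : p ∈ S
  · exact hw.right.2 p hpS
  · exact Co.adjOf hw ⟨hK.lt hp, fun s hs => hK.pair hp (hS s hs) (fun h => hpS (h ▸ hs))⟩ hc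

section Structure

variable {pos : ℕ → ℕ} (hC : Cls N adj pos) {K : Finset ℕ} (hK : MaxClq N adj K)

include hC hK

theorem use_last {a b x c d y : ℕ} (ha : a ∈ K) (hb : b ∈ K) (hc : c ∈ K) (hd : d ∈ K)
    (hx : x < N) (hy : y < N) (h1 : pos a < pos b) (h2 : pos b < pos x) (h3 : pos x < pos c)
    (h4 : pos c < pos d) (h5 : pos d < pos y)
    (hxs : adj x a ∧ adj x b ∧ adj x c ∧ adj x d) (hys : adj y a ∧ adj y b ∧ adj y c ∧ adj y d) :
    adj x y := by
  have ne : ∀ {s t : ℕ}, pos s < pos t → s ≠ t := fun h h' => by rw [h'] at h; omega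
  refine hC.last a b x c d y (hK.lt ha) (hK.lt hb) hx (hK.lt hc) (hK.lt hd) hy h1 h2 h3 h4 h5
    (hK.pair ha hb (ne h1)) (hK.pair ha hc (ne (by omega))) (hK.pair ha hd (ne (by omega)))
    (hK.pair hb hc (ne (by omega))) (hK.pair hb hd (ne (by omega))) (hK.pair hc hd (ne h4))
    hxs.1 hxs.2.1 hxs.2.2.1 hxs.2.2.2 hys.1 hys.2.1 hys.2.2.1 hys.2.2.2

theorem use_first {a b x c d y : ℕ} (ha : a ∈ K) (hb : b ∈ K) (hc : c ∈ K) (hd : d ∈ K)
    (hx : x < N) (hy : y < N) (h0 : pos y < pos a) (h1 : pos a < pos b) (h2 : pos b < pos x)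
    (h3 : pos x < pos c) (h4 : pos c < pos d)
    (hxs : adj x a ∧ adj x b ∧ adj x c ∧ adj x d) (hys : adj y a ∧ adj y b ∧ adj y c ∧ adj y d) :
    adj x y := by
  have ne : ∀ {s t : ℕ}, pos s < pos t → s ≠ t := fun h h' => by rw [h'] at h; omega
  refine hC.first a b x c d y (hK.lt ha) (hK.lt hb) hx (hK.lt hc) (hK.lt hd) hy h0 h1 h2 h3 h4
    (hK.pair ha hb (ne h1)) (hK.pair ha hc (ne (by omega))) (hK.pair ha hd (ne (by omega)))
    (hK.pair hb hc (ne (by omega))) (hK.pair hb hd (ne (by omega))) (hK.pair hc hd (ne h4))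
    hxs.1 hxs.2.1 hxs.2.2.1 hxs.2.2.2 hys.1 hys.2.1 hys.2.2.1 hys.2.2.2

omit hC in
/-- Adjacency of a member of the clique to four members at other positions. -/
theorem kadj {a b c d p : ℕ} (ha : a ∈ K) (hb : b ∈ K) (hc : c ∈ K) (hd : d ∈ K) (hp : p ∈ K)
    (h1 : p ≠ a) (h2 : p ≠ b) (h3 : p ≠ c) (h4 : p ≠ d) :
    adj p a ∧ adj p b ∧ adj p c ∧ adj p d :=
  ⟨hK.pair hp ha h1, hK.pair hp hb h2, hK.pair hp hc h3, hK.pair hp hd h4⟩

end Structure

/-- Four members of the clique in increasing positions. -/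
structure Quad (pos : ℕ → ℕ) (K : Finset ℕ) (u q q' r : ℕ) : Prop where
  hu : u ∈ K
  hq : q ∈ K
  hq' : q' ∈ K
  hr : r ∈ K
  h1 : pos u < pos q
  h2 : pos q < pos q'
  h3 : pos q' < pos r

/-- The invariant of the recursion. -/
structure Good (N : ℕ) (adj : ℕ → ℕ → Prop) (pos : ℕ → ℕ) (K : Finset ℕ) (ub qb qb' rb : ℕ)
    (u q q' r z : ℕ) : Prop where
  quad : Quad pos K u q q' r
  sep : pos r < pos ub
  bnd : ∀ y, Co N adj [u, q, q', r, ub, qb, qb', rb] z y → pos q' < pos y ∧ pos y < pos qb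
  inn : ∀ p ∈ K, Co N adj [u, q, q', r, ub, qb, qb', rb] z p → pos r < pos p ∧ pos p < pos ub

section Step

variable {pos : ℕ → ℕ} (hC : Cls N adj pos) {K : Finset ℕ} (hK : MaxClq N adj K)
  {ub qb qb' rb : ℕ} (hB : Quad pos K ub qb qb' rb)
  {ua qa qa' ra z : ℕ} (hg : Good N adj pos K ub qb qb' rb ua qa qa' ra z)
  {u q q' r : ℕ} (hQ : Quad pos K u q q' r)
  (hu : Co N adj [ua, qa, qa', ra, ub, qb, qb', rb] z u)
  (hr : Co N adj [ua, qa, qa', ra, ub, qb, qb', rb] z r)
  (hfirst : ∀ p ∈ K, Co N adj [ua, qa, qa', ra, ub, qb, qb', rb] z p →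
    p ∉ [u, q, q', r] → pos r < pos p)

include hC hK hB hg hQ hfirst

/-- Common neighbours of the first quadruple of a component lie to its right. -/
theorem step_right {w : ℕ} (hw : Co N adj [ua, qa, qa', ra, ub, qb, qb', rb] z w)
    (hwQ : ∀ s ∈ [u, q, q', r], adj w s) : pos q' < pos w := by
  by_contra hcon
  have hirr := @hC.irr
  have hwu := hwQ u (by simp)
  have hwq := hwQ q (by simp)
  have hwq' := hwQ q' (by simp)
  have hwr := hwQ r (by simp)
  have hne : ∀ s ∈ [u, q, q', r], w ≠ s := fun s hs h => hirr (h ▸ hwQ s hs)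
  have hwN : w < N := hw.right.1
  have hposne : ∀ s ∈ [u, q, q', r], s ∈ K → pos w ≠ pos s := fun s hs hsK h =>
    hne s hs (hC.inj hwN (hK.lt hsK) h)
  have hp1 := hposne q' (by simp) hQ.hq'
  have hp2 := hposne q (by simp) hQ.hq
  have hwK : w ∉ K := by
    intro hwK
    have := hfirst w hwK hw (fun h => hne w h rfl)
    have := hQ.h3
    omega
  have hS : ∀ s ∈ [ua, qa, qa', ra, ub, qb, qb', rb], s ∈ K := by
    intro s hs
    simp only [List.mem_cons, List.not_mem_nil, or_false] at hs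
    rcases hs with rfl | rfl | rfl | rfl | rfl | rfl | rfl | rfl
    exacts [hg.quad.hu, hg.quad.hq, hg.quad.hq', hg.quad.hr, hB.hu, hB.hq, hB.hq', hB.hr]
  obtain ⟨p, hpK, hpD, hnp⟩ := hK.extendCo hC.toGr hS hw hwK
  have hpQ : p ∉ [u, q, q', r] := fun h => hnp (hwQ p h)
  have hpr := hfirst p hpK hpD hpQ
  have h1 := hQ.h1
  have h2 := hQ.h2
  have h3 := hQ.h3
  have g1 := hg.quad.h1
  have g2 := hg.quad.h2
  have g3 := hg.quad.h3
  have hb := hg.bnd w hw
  have ne : ∀ {s t : ℕ}, pos s < pos t → t ≠ s := fun h h' => by rw [h'] at h; omega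
  apply hnp
  rcases Nat.lt_or_ge (pos w) (pos q) with hlt | hge
  · refine use_last hC hK hg.quad.hq hg.quad.hq' hQ.hq hQ.hq' hwN (hK.lt hpK) g2 hb.1 hlt h2
      (by omega) ⟨?_, ?_, hwq, hwq'⟩
      (kadj hK hg.quad.hq hg.quad.hq' hQ.hq hQ.hq' hpK (ne (by omega)) (ne (by omega))
        (ne (by omega)) (ne (by omega)))
    · exact hw.right.2 qa (by simp)
    · exact hw.right.2 qa' (by simp)
  · refine use_last hC hK hQ.hu hQ.hq hQ.hq' hQ.hr hwN (hK.lt hpK) h1 (by omega) (by omega) h3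
      hpr ⟨hwu, hwq, hwq', hwr⟩
      (kadj hK hQ.hu hQ.hq hQ.hq' hQ.hr hpK (ne (by omega)) (ne (by omega))
        (ne (by omega)) (ne (by omega)))

include hu

/-- Components for the new quadruple stay inside the old component. -/
theorem step_sub {j : ℕ} (hj : Co N adj [ua, qa, qa', ra, ub, qb, qb', rb] z j)
    (hjQ : ∀ s ∈ [u, q, q', r], adj j s) {y : ℕ}
    (hy : Co N adj [u, q, q', r, ub, qb, qb', rb] j y) :
    Co N adj [ua, qa, qa', ra, ub, qb, qb', rb] z y ∧ ∀ s ∈ [u, q, q', r], adj y s := by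
  have hstep : ∀ y w : ℕ, (Co N adj [ua, qa, qa', ra, ub, qb, qb', rb] z y ∧
      ∀ s ∈ [u, q, q', r], adj y s) → Gen N adj [u, q, q', r, ub, qb, qb', rb] y w →
      (Co N adj [ua, qa, qa', ra, ub, qb, qb', rb] z w ∧ ∀ s ∈ [u, q, q', r], adj w s) := by
    rintro y w ⟨hy, hyQ⟩ ⟨hyC, hwC, hnyw⟩
    have hwQ : ∀ s ∈ [u, q, q', r], adj w s := by
      intro s hs
      apply hwC.2
      simp only [List.mem_cons, List.not_mem_nil, or_false] at hs ⊢
      tauto
    refine ⟨?_, hwQ⟩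
    by_contra hwD
    have hirr := @hC.irr
    have hwN : w < N := hwC.1
    have hyN : y < N := hyC.1
    have hwne : ∀ s ∈ [u, q, q', r, ub, qb, qb', rb], pos w ≠ pos s := by
      intro s hs h
      have hsK : s ∈ K := by
        simp only [List.mem_cons, List.not_mem_nil, or_false] at hs
        rcases hs with rfl | rfl | rfl | rfl | rfl | rfl | rfl | rfl
        exacts [hQ.hu, hQ.hq, hQ.hq', hQ.hr, hB.hu, hB.hq, hB.hq', hB.hr]
      have := hC.inj hwN (hK.lt hsK) h
      subst this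
      exact hirr (hwC.2 _ hs)
    have n2 := hwne q (by simp)
    have n3 := hwne q' (by simp)
    have n6 := hwne qb (by simp)
    have n7 := hwne qb' (by simp)
    have hyr := step_right hC hK hB hg hQ hfirst hy hyQ
    have hyb := (hg.bnd y hy).2
    have h1 := hQ.h1
    have h2 := hQ.h2
    have h3 := hQ.h3
    have b1 := hB.h1
    have b2 := hB.h2
    have b3 := hB.h3
    have g1 := hg.quad.h1
    have g2 := hg.quad.h2
    have g3 := hg.quad.h3
    have hsep := hg.sep
    have huin := hg.inn u hQ.hu hu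
    have ne : ∀ {s t : ℕ}, pos s < pos t → s ≠ t := fun h h' => by rw [h'] at h; omega
    have wu := hwC.2 u (by simp)
    have wq := hwC.2 q (by simp)
    have wq' := hwC.2 q' (by simp)
    have wr := hwC.2 r (by simp)
    have wub := hwC.2 ub (by simp)
    have wqb := hwC.2 qb (by simp)
    have wqb' := hwC.2 qb' (by simp)
    have wrb := hwC.2 rb (by simp)
    have yq := hyC.2 q (by simp)
    have yq' := hyC.2 q' (by simp)
    have yqb := hyC.2 qb (by simp)
    have yqb' := hyC.2 qb' (by simp)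
    -- the case of a vertex not adjacent to some member of the old quadruple
    have hnotCN : ¬CN N adj [ua, qa, qa', ra, ub, qb, qb', rb] w := fun h =>
      hwD (hy.tail ⟨hy.right, h, hnyw⟩)
    have hexa : ∃ a ∈ [ua, qa, qa', ra], ¬adj w a := by
      by_contra hc
      push Not at hc
      apply hnotCN
      refine ⟨hwN, fun s hs => ?_⟩
      simp only [List.mem_cons, List.not_mem_nil, or_false] at hs
      rcases hs with rfl | rfl | rfl | rfl | rfl | rfl | rfl | rfl
      exacts [hc _ (by simp), hc _ (by simp), hc _ (by simp), hc _ (by simp), wub, wqb, wqb',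
        wrb]
    obtain ⟨a, ha, hna⟩ := hexa
    have haK : a ∈ K ∧ pos a ≤ pos ra := by
      simp only [List.mem_cons, List.not_mem_nil, or_false] at ha
      rcases ha with rfl | rfl | rfl | rfl
      exacts [⟨hg.quad.hu, by omega⟩, ⟨hg.quad.hq, by omega⟩, ⟨hg.quad.hq', by omega⟩,
        ⟨hg.quad.hr, by omega⟩]
    obtain ⟨haK, hapos⟩ := haK
    rcases Nat.lt_or_ge (pos w) (pos q) with c1 | c1
    · exact hnyw (use_first hC hK hQ.hq hQ.hq' hB.hq hB.hq' hyN hwN c1 h2 hyr hyb b2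
        ⟨yq, yq', yqb, yqb'⟩ ⟨wq, wq', wqb, wqb'⟩)
    rcases Nat.lt_or_ge (pos w) (pos q') with c2 | c2
    · exact hna (use_first hC hK hQ.hu hQ.hq hQ.hq' hQ.hr hwN (hK.lt haK) (by omega) h1
        (by omega) c2 h3 ⟨wu, wq, wq', wr⟩
        (kadj hK hQ.hu hQ.hq hQ.hq' hQ.hr haK (ne (by omega)) (ne (by omega))
        (ne (by omega)) (ne (by omega))))
    rcases Nat.lt_or_ge (pos w) (pos qb) with c3 | c3
    · exact hna (use_first hC hK hQ.hq hQ.hq' hB.hq hB.hq' hwN (hK.lt haK) (by omega) h2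
        (by omega) c3 b2 ⟨wq, wq', wqb, wqb'⟩
        (kadj hK hQ.hq hQ.hq' hB.hq hB.hq' haK (ne (by omega)) (ne (by omega))
        (ne (by omega)) (ne (by omega))))
    rcases Nat.lt_or_ge (pos w) (pos qb') with c4 | c4
    · exact hna (use_first hC hK hB.hu hB.hq hB.hq' hB.hr hwN (hK.lt haK) (by omega) b1
        (by omega) c4 b3 ⟨wub, wqb, wqb', wrb⟩
        (kadj hK hB.hu hB.hq hB.hq' hB.hr haK (ne (by omega)) (ne (by omega))
        (ne (by omega)) (ne (by omega))))
    · exact hnyw (use_last hC hK hQ.hq hQ.hq' hB.hq hB.hq' hyN hwN h2 hyr hyb b2 (by omega)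
        ⟨yq, yq', yqb, yqb'⟩ ⟨wq, wq', wqb, wqb'⟩)
  induction hy with
  | single h => exact hstep j _ ⟨hj, hjQ⟩ h
  | tail _ h ih => exact hstep _ _ ih h

include hr

/-- The invariant is inherited. -/
theorem step_good {j : ℕ} (hj : Co N adj [ua, qa, qa', ra, ub, qb, qb', rb] z j)
    (hjQ : ∀ s ∈ [u, q, q', r], adj j s) : Good N adj pos K ub qb qb' rb u q q' r j := by
  refine ⟨hQ, (hg.inn r hQ.hr hr).2, fun y hy => ?_, fun p hp hpD => ?_⟩
  · obtain ⟨h1, h2⟩ := step_sub hC hK hB hg hQ hu hfirst hj hjQ hy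
    exact ⟨step_right hC hK hB hg hQ hfirst h1 h2, (hg.bnd y h1).2⟩
  · obtain ⟨h1, h2⟩ := step_sub hC hK hB hg hQ hu hfirst hj hjQ hpD
    exact ⟨hfirst p hp h1 (fun h => hC.irr (h2 p h)), (hg.inn p hp h1).2⟩

end Step

/-- The invariant holds at the top level. -/
theorem top_good {pos : ℕ → ℕ} (hC : Cls N adj pos) {K : Finset ℕ} (hK : MaxClq N adj K)
    {u q q' r ub qb qb' rb : ℕ} (hQ : Quad pos K u q q' r) (hB : Quad pos K ub qb qb' rb)
    (hsep : pos r < pos ub)
    (hmid : ∀ p ∈ K, p ∉ [u, q, q', r, ub, qb, qb', rb] → pos r < pos p ∧ pos p < pos ub)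
    (j : ℕ) : Good N adj pos K ub qb qb' rb u q q' r j := by
  have hirr := @hC.irr
  have h1 := hQ.h1
  have h2 := hQ.h2
  have h3 := hQ.h3
  have b1 := hB.h1
  have b2 := hB.h2
  have b3 := hB.h3
  refine ⟨hQ, hsep, fun y hy => ?_, fun p hp hpD => hmid p hp fun h => hirr (hpD.right.2 p h)⟩
  by_contra hcon
  have hyC := hy.right
  have hyN : y < N := hyC.1
  have hyne : ∀ s ∈ [u, q, q', r, ub, qb, qb', rb], pos y ≠ pos s := by
    intro s hs h
    have hsK : s ∈ K := by
      simp only [List.mem_cons, List.not_mem_nil, or_false] at hs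
      rcases hs with rfl | rfl | rfl | rfl | rfl | rfl | rfl | rfl
      exacts [hQ.hu, hQ.hq, hQ.hq', hQ.hr, hB.hu, hB.hq, hB.hq', hB.hr]
    have := hC.inj hyN (hK.lt hsK) h
    subst this
    exact hirr (hyC.2 _ hs)
  have hyK : y ∉ K := by
    intro hyK
    have := hmid y hyK (fun h => hyne y h rfl)
    exact hcon ⟨by omega, by omega⟩
  obtain ⟨p, hpK, hnp⟩ := hK.extend hC.toGr hyN hyK
  have hpm := hmid p hpK (fun h => hnp (hyC.2 p h))
  have ne : ∀ {s t : ℕ}, pos s < pos t → s ≠ t := fun h h' => by rw [h'] at h; omega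
  have ne' : ∀ {s t : ℕ}, pos s < pos t → t ≠ s := fun h h' => by rw [h'] at h; omega
  have n2 := hyne q (by simp)
  have n3 := hyne q' (by simp)
  have n6 := hyne qb (by simp)
  have n7 := hyne qb' (by simp)
  have yu := hyC.2 u (by simp)
  have yq := hyC.2 q (by simp)
  have yq' := hyC.2 q' (by simp)
  have yr := hyC.2 r (by simp)
  have yub := hyC.2 ub (by simp)
  have yqb := hyC.2 qb (by simp)
  have yqb' := hyC.2 qb' (by simp)
  have yrb := hyC.2 rb (by simp)
  apply hnp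
  rcases Nat.lt_or_ge (pos y) (pos q) with c1 | c1
  · exact hC.symm (use_first hC hK hQ.hq hQ.hq' hB.hq hB.hq' (hK.lt hpK) hyN c1 h2 (by omega)
      (by omega) b2 (kadj hK hQ.hq hQ.hq' hB.hq hB.hq' hpK (ne' (by omega)) (ne' (by omega))
      (ne (by omega)) (ne (by omega))) ⟨yq, yq', yqb, yqb'⟩)
  rcases Nat.lt_or_ge (pos y) (pos q') with c2 | c2
  · exact use_last hC hK hQ.hu hQ.hq hQ.hq' hQ.hr hyN (hK.lt hpK) h1 (by omega) c2 h3
      (by omega) ⟨yu, yq, yq', yr⟩ (kadj hK hQ.hu hQ.hq hQ.hq' hQ.hr hpK (ne' (by omega))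
      (ne' (by omega)) (ne' (by omega)) (ne' (by omega)))
  rcases Nat.lt_or_ge (pos y) (pos qb) with c3 | c3
  · exact absurd ⟨by omega, by omega⟩ hcon
  rcases Nat.lt_or_ge (pos y) (pos qb') with c4 | c4
  · exact use_first hC hK hB.hu hB.hq hB.hq' hB.hr hyN (hK.lt hpK) (by omega) b1 (by omega) c4
      b3 ⟨yub, yqb, yqb', yrb⟩ (kadj hK hB.hu hB.hq hB.hq' hB.hr hpK (ne (by omega))
      (ne (by omega)) (ne (by omega)) (ne (by omega)))
  · exact hC.symm (use_last hC hK hQ.hq hQ.hq' hB.hq hB.hq' (hK.lt hpK) hyN h2 (by omega)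
      (by omega) b2 (by omega) (kadj hK hQ.hq hQ.hq' hB.hq hB.hq' hpK (ne' (by omega))
      (ne' (by omega)) (ne (by omega)) (ne (by omega))) ⟨yq, yq', yqb, yqb'⟩)

end Pool.Agent.Lib.MP_df76ee_lc
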