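import Mathlib

/-! # Simple polygons, their visibility graphs, and the word encoding of a graph -/

namespace Pool.Agent.Lib.MP_df76ee_lc

/-- A simple polygon with `n` vertices, listed in boundary order: at least three vertices, all
distinct; consecutive edges meet only in their common vertex; other pairs of edges are disjoint.
Angles of 180 degrees are allowed. `finRotate n` is the cyclic successor on `Fin n`. -/
structure SimplePolygon (n : ℕ) where
  v : Fin n → ℂ
  three_le : 3 ≤ n
  inj : Function.Injective v
  near : ∀ i, segment ℝ (v i) (v (finRotate n i)) ∩
    segment ℝ (v (finRotate n i)) (v (finRotate n (finRotate n i))) = {v (finRotate n i)}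
  far : ∀ i j, j ≠ i → j ≠ finRotate n i → i ≠ finRotate n j →
    Disjoint (segment ℝ (v i) (v (finRotate n i))) (segment ℝ (v j) (v (finRotate n j)))

namespace SimplePolygon

variable {n : ℕ} (P : SimplePolygon n)

/-- The boundary: the union of the edges. -/
def boundary : Set ℂ := ⋃ i, segment ℝ (P.v i) (P.v (finRotate n i))

/-- The closed region bounded by the polygon: the boundary together with the bounded components
of its complement. -/
def region : Set ℂ :=
  {z | z ∈ P.boundary ∨ Bornology.IsBounded (connectedComponentIn P.boundaryᶜ z)}

/-- The visibility graph: two distinct vertices are adjacent iff the closed segment between them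
lies in the closed region. -/
def visGraph : SimpleGraph (Fin n) where
  Adj i j := i ≠ j ∧ segment ℝ (P.v i) (P.v j) ⊆ P.region
  symm := ⟨fun i j h => ⟨h.1.symm, by rw [segment_symm]; exact h.2⟩⟩
  loopless := ⟨fun i h => h.1 rfl⟩

end SimplePolygon

/-- A finite graph on the vertices `0, …, n - 1`. -/
structure Graph where
  n : ℕ
  G : SimpleGraph (Fin n)

/-- The input symbols. -/
inductive Sym
  | zero | one | sep
  deriving DecidableEq, Fintype

open Classical in
/-- The adjacency matrix as a word: for each row its `n` bits followed by a separator. -/
noncomputable def Graph.encode (I : Graph) : List Sym :=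
  (List.ofFn fun i : Fin I.n =>
    (List.ofFn fun j : Fin I.n => if I.G.Adj i j then Sym.one else Sym.zero) ++ [Sym.sep]).flatten

/-- Visibility graphs: graphs isomorphic to the visibility graph of some simple polygon. -/
def Graph.IsVisibilityGraph (I : Graph) : Prop :=
  ∃ P : SimplePolygon I.n, Nonempty (I.G ≃g P.visGraph)

open Classical in
/-- The characteristic vector of a vertex set. -/
noncomputable def Graph.vector (I : Graph) (K : Finset (Fin I.n)) : List Bool :=
  List.ofFn fun i => decide (i ∈ K)

end Pool.Agent.Lib.MP_df76ee_lc
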