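import Pool.Agent.Lib.MP_df76ee_lc.Main
import Pool.Agent.Lib.MP_df76ee_lc.Defs

/-! # From the six-point property to the final theorem -/

namespace Pool.Agent.Lib.MP_df76ee_lc

open Pool.Agent.Lib.PolyTM Function Turing

/-- Symbols that are counted. -/
def cnt : Sym → Bool
  | .sep => true
  | _ => false

/-- Initial contents of the arrays. -/
def ini : Wa → Sym → Option Bool
  | .adj, .zero => some false
  | .adj, .one => some true
  | _, _ => none

open Classical in
theorem encode_count (I : Graph) : I.encode.countP cnt = I.n := by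
  unfold Graph.encode
  rw [List.countP_flatten, List.map_ofFn]
  have : (List.countP cnt ∘ fun i : Fin I.n =>
      (List.ofFn fun j : Fin I.n => if I.G.Adj i j then Sym.one else Sym.zero) ++ [Sym.sep])
      = fun _ => 1 := by
    funext i
    simp only [comp_apply, List.countP_append, List.countP_singleton, cnt, if_true]
    have : List.countP cnt (List.ofFn fun j : Fin I.n =>
        if I.G.Adj i j then Sym.one else Sym.zero) = 0 := by
      rw [List.countP_eq_zero]
      intro a ha
      obtain ⟨j, rfl⟩ := (List.mem_ofFn' _ _).1 ha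
      dsimp only
      split <;> simp [cnt]
    rw [this]
  rw [this]
  simp

open Classical in
theorem encode_adj (I : Graph) : I.encode.filterMap (ini .adj) =
    List.ofFn fun k : Fin (I.n * I.n) => decide (I.G.Adj
      ⟨(k : ℕ) / I.n, Nat.div_lt_of_lt_mul k.2⟩
      ⟨(k : ℕ) % I.n, Nat.mod_lt _ (Nat.pos_of_ne_zero fun h => by
        have h2 := lt_of_le_of_lt (Nat.zero_le _) k.2
        simp [h] at h2)⟩) := by
  unfold Graph.encode
  rw [List.filterMap_flatten, List.map_ofFn, List.ofFn_mul]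
  congr 1
  congr 1
  funext i
  simp only [comp_apply, List.filterMap_append]
  have h1 : (List.ofFn fun j : Fin I.n => if I.G.Adj i j then Sym.one else Sym.zero) =
      (List.ofFn fun j : Fin I.n => decide (I.G.Adj i j)).map
        (fun b => if b = true then Sym.one else Sym.zero) := by
    rw [List.map_ofFn]
    congr 1
    funext j
    simp
  rw [h1, List.filterMap_map]
  have h2 : (ini .adj ∘ fun b : Bool => if b = true then Sym.one else Sym.zero) = some := by
    funext b
    cases b <;> simp [ini]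
  rw [h2, List.filterMap_some]
  have h3 : List.filterMap (ini .adj) [Sym.sep] = [] := by simp [ini]
  rw [h3, List.append_nil]
  congr 1
  funext j
  have hn : 0 < I.n := i.pos
  have e1 : ((i : ℕ) * I.n + j) / I.n = i := by
    rw [mul_comm, Nat.mul_add_div hn, Nat.div_eq_of_lt j.2, add_zero]
  have e2 : ((i : ℕ) * I.n + j) % I.n = j := by
    rw [mul_comm, Nat.mul_add_mod, Nat.mod_eq_of_lt j.2]
  simp only [e1, e2]

/-- Adjacency on natural numbers. -/
def adjN (I : Graph) (x y : ℕ) : Prop :=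
  ∃ (hx : x < I.n) (hy : y < I.n), I.G.Adj ⟨x, hx⟩ ⟨y, hy⟩

theorem adjOK (I : Graph) : AdjOK I.n (adjN I)
    (iniArr (I.encode.countP cnt) ini I.encode) := by
  classical
  intro x hx y hy
  rw [encode_count]
  unfold iniArr cell
  rw [encode_adj]
  have hn : 0 < I.n := by omega
  have e0 : enc I.n [x, y] = x * I.n + y := by simp [enc]
  have hlt : x * I.n + y < I.n * I.n := by
    have : (x + 1) * I.n ≤ I.n * I.n := Nat.mul_le_mul_right _ hx
    nlinarith
  rw [e0, List.getD_eq_getElem _ _ (by simpa using hlt), List.getElem_ofFn]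
  have e1 : (x * I.n + y) / I.n = x := by
    rw [mul_comm, Nat.mul_add_div hn, Nat.div_eq_of_lt hy, add_zero]
  have e2 : (x * I.n + y) % I.n = y := by
    rw [mul_comm, Nat.mul_add_mod, Nat.mod_eq_of_lt hy]
  simp only [e1, e2, decide_eq_true_eq]
  constructor
  · intro h; exact ⟨hx, hy, h⟩
  · rintro ⟨_, _, h⟩; exact h

/-- The function computed by the machine. -/
noncomputable def maxCliqueFun (I : Graph) : List Bool := prog.out cnt ini I.encode

/-- It runs in polynomial time. -/
theorem polytime : ∃ M : TM2ComputableInPolyTime Graph.encode id maxCliqueFun,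
    ∀ k, Finite (M.tm.Γ k) := by
  obtain ⟨M, p, hfin, h⟩ := Stmt.polytime prog prog_wf cnt ini
  exact ⟨⟨M, p, fun I => Classical.choice (h I.encode)⟩, hfin⟩

/-- A maximum clique exists. -/
theorem exists_maxClq {N : ℕ} {adj : ℕ → ℕ → Prop} (hN : 0 < N) :
    ∃ K : Finset ℕ, MaxClq N adj K ∧ K.Nonempty := by
  classical
  obtain ⟨K, hK, hmax⟩ := Finset.exists_max_image
    ((Finset.range N).powerset.filter (Clq N adj)) Finset.card
    ⟨∅, Finset.mem_filter.2 ⟨Finset.empty_mem_powerset _, ⟨by simp, by simp⟩⟩⟩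
  obtain ⟨hK1, hK2⟩ := Finset.mem_filter.1 hK
  have hmax' : ∀ K', Clq N adj K' → K'.card ≤ K.card := fun K' hK' =>
    hmax K' (Finset.mem_filter.2 ⟨Finset.mem_powerset.2 fun x hx =>
      Finset.mem_range.2 (hK'.lt hx), hK'⟩)
  refine ⟨K, ⟨hK2, hmax'⟩, ?_⟩
  have : Clq N adj {0} := by
    refine ⟨fun hx => ?_, fun hx hy hxy => ?_⟩
    · rw [Finset.mem_singleton] at hx; omega
    · rw [Finset.mem_singleton] at hx hy; omega
  have := hmax' _ this
  rw [Finset.card_singleton] at this
  exact Finset.card_pos.1 (by omega)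

/-- Correctness, given the six-point property in some labelling. -/
theorem correct (I : Graph) {pos : ℕ → ℕ} (hC : Cls I.n (adjN I) pos) (hn : 0 < I.n) :
    ∃ K : Finset (Fin I.n), I.G.IsMaximumClique K ∧ maxCliqueFun I = I.vector K := by
  classical
  obtain ⟨K0, hK0, hne⟩ := exists_maxClq (N := I.n) (adj := adjN I) hn
  obtain ⟨K, hK, hout⟩ := prog_spec (N := I.n) (A := adjN I) hC hK0 hne (e := fun _ => 0)
    (σ := ⟨iniArr (I.encode.countP cnt) ini I.encode, []⟩) (adjOK I) rfl
  set K' : Finset (Fin I.n) := Finset.univ.filter fun i => (i : ℕ) ∈ K with hK'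
  have hmem : ∀ i : Fin I.n, i ∈ K' ↔ (i : ℕ) ∈ K := by intro i; simp [hK']
  have hcard : K'.card = K.card := by
    rw [← Finset.card_map Fin.valEmbedding]
    congr 1
    ext x
    rw [Finset.mem_map]
    constructor
    · rintro ⟨i, hi, rfl⟩; exact (hmem i).1 hi
    · intro hx; exact ⟨⟨x, hK.lt hx⟩, (hmem _).2 hx, rfl⟩
  refine ⟨K', ⟨?_, ?_⟩, ?_⟩
  · intro i hi j hj hij
    obtain ⟨_, _, h⟩ := hK.pair ((hmem i).1 hi) ((hmem j).1 hj) (fun h => hij (Fin.ext h))
    exact h
  · intro t ht
    rw [hcard, ← Finset.card_map Fin.valEmbedding]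
    apply hK.max
    refine ⟨fun hx => ?_, fun hx hy hxy => ?_⟩
    · obtain ⟨i, _, rfl⟩ := Finset.mem_map.1 hx
      exact i.2
    · obtain ⟨i, hi, rfl⟩ := Finset.mem_map.1 hx
      obtain ⟨j, hj, rfl⟩ := Finset.mem_map.1 hy
      exact ⟨i.2, j.2, ht hi hj (fun h => hxy (by rw [h]; rfl))⟩
  · unfold maxCliqueFun Stmt.out Graph.vector
    rw [encode_count] at hout ⊢
    rw [hout]
    apply List.ext_getElem
    · simp
    · intro i h1 h2
      simp only [List.getElem_map, List.getElem_range, List.getElem_ofFn]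
      rw [Bool.eq_iff_iff, decide_eq_true_eq, decide_eq_true_eq, hmem]

/-- The visibility graph of a simple polygon has the six-point property. -/
structure SixPoint {n : ℕ} (P : SimplePolygon n) : Prop where
  last : ∀ a b x c d y : Fin n, a < b → b < x → x < c → c < d → d < y →
    P.visGraph.Adj a b → P.visGraph.Adj a c → P.visGraph.Adj a d →
    P.visGraph.Adj b c → P.visGraph.Adj b d → P.visGraph.Adj c d →
    P.visGraph.Adj x a → P.visGraph.Adj x b → P.visGraph.Adj x c → P.visGraph.Adj x d →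
    P.visGraph.Adj y a → P.visGraph.Adj y b → P.visGraph.Adj y c → P.visGraph.Adj y d →
    P.visGraph.Adj x y
  first : ∀ a b x c d y : Fin n, y < a → a < b → b < x → x < c → c < d →
    P.visGraph.Adj a b → P.visGraph.Adj a c → P.visGraph.Adj a d →
    P.visGraph.Adj b c → P.visGraph.Adj b d → P.visGraph.Adj c d →
    P.visGraph.Adj x a → P.visGraph.Adj x b → P.visGraph.Adj x c → P.visGraph.Adj x d →
    P.visGraph.Adj y a → P.visGraph.Adj y b → P.visGraph.Adj y c → P.visGraph.Adj y d →
    P.visGraph.Adj x y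

theorem cls_of_sixPoint (I : Graph) (P : SimplePolygon I.n) (hP : SixPoint P)
    (φ : I.G ≃g P.visGraph) : ∃ pos, Cls I.n (adjN I) pos := by
  classical
  refine ⟨fun x => if h : x < I.n then ((φ ⟨x, h⟩ : Fin I.n) : ℕ) else 0, ?_⟩
  have key : ∀ {x y : ℕ} (hx : x < I.n) (hy : y < I.n), adjN I x y →
      P.visGraph.Adj (φ ⟨x, hx⟩) (φ ⟨y, hy⟩) := by
    rintro x y hx hy ⟨_, _, h⟩
    exact φ.map_adj_iff.2 h
  have key' : ∀ {x y : ℕ} (hx : x < I.n) (hy : y < I.n),
      P.visGraph.Adj (φ ⟨x, hx⟩) (φ ⟨y, hy⟩) → adjN I x y := fun hx hy h =>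
    ⟨hx, hy, φ.map_adj_iff.1 h⟩
  refine { symm := ?_, irr := ?_, inj := ?_, last := ?_, first := ?_ }
  · rintro x y ⟨hx, hy, h⟩
    exact ⟨hy, hx, h.symm⟩
  · rintro x ⟨hx, hy, h⟩
    exact h.ne rfl
  · intro x y hx hy h
    simp only [dif_pos hx, dif_pos hy] at h
    have := φ.injective (Fin.ext h)
    simpa using this
  · intro a b x c d y ha hb hx hc hd hy h1 h2 h3 h4 h5 ab ac ad bc bd cd xa xb xc xd ya yb yc yd
    simp only [dif_pos ha, dif_pos hb, dif_pos hx, dif_pos hc, dif_pos hd, dif_pos hy] at *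
    exact key' hx hy (hP.last _ _ _ _ _ _ h1 h2 h3 h4 h5 (key ha hb ab) (key ha hc ac)
      (key ha hd ad) (key hb hc bc) (key hb hd bd) (key hc hd cd) (key hx ha xa) (key hx hb xb)
      (key hx hc xc) (key hx hd xd) (key hy ha ya) (key hy hb yb) (key hy hc yc) (key hy hd yd))
  · intro a b x c d y ha hb hx hc hd hy h1 h2 h3 h4 h5 ab ac ad bc bd cd xa xb xc xd ya yb yc yd
    simp only [dif_pos ha, dif_pos hb, dif_pos hx, dif_pos hc, dif_pos hd, dif_pos hy] at *
    exact key' hx hy (hP.first _ _ _ _ _ _ h1 h2 h3 h4 h5 (key ha hb ab) (key ha hc ac)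
      (key ha hd ad) (key hb hc bc) (key hb hd bd) (key hc hd cd) (key hx ha xa) (key hx hb xb)
      (key hx hc xc) (key hx hd xd) (key hy ha ya) (key hy hb yb) (key hy hc yc) (key hy hd yd))

/-- The final theorem, given the geometric lemma. -/
theorem main_of_geometry (hgeo : ∀ (n : ℕ) (P : SimplePolygon n), SixPoint P) :
    ∃ (f : Graph → List Bool) (M : TM2ComputableInPolyTime Graph.encode id f),
      (∀ k, Finite (M.tm.Γ k)) ∧
      ∀ I : Graph, I.IsVisibilityGraph →
        ∃ K : Finset (Fin I.n), I.G.IsMaximumClique K ∧ f I = I.vector K := by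
  obtain ⟨M, hM⟩ := polytime
  refine ⟨maxCliqueFun, M, hM, fun I ⟨P, ⟨φ⟩⟩ => ?_⟩
  obtain ⟨pos, hC⟩ := cls_of_sixPoint I P (hgeo _ P) φ
  exact correct I hC (by have := P.three_le; omega)

end Pool.Agent.Lib.MP_df76ee_lc
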