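import Pool.Agent.Lib.MP_df76ee_lc.GeomChord

/-!
# Convex hulls of cliques, and the separation lemma
-/

set_option autoImplicit false

namespace Pool.Agent.Lib.MP_df76ee_lc.SimplePolygon

open Complex Set Filter Topology Geom

variable {n : ℕ} (P : SimplePolygon n)

/-- The cross product. -/
def cr (p q : ℂ) : ℝ := p.re * q.im - p.im * q.re

lemma collinear_aux {x d : ℂ} {a b s : ℝ} (h1 : a ≤ s) (h2 : s ≤ b) :
    x + s * d ∈ segment ℝ (x + a * d) (x + b * d) := by
  rw [mem_segment_iff']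
  rcases h1.trans h2 |>.lt_or_eq with h | h
  · refine ⟨(s - a) / (b - a), div_nonneg (by linarith) (by linarith), (div_le_one (by linarith)).2 (by linarith), ?_⟩
    have h3 : (b - a : ℝ) ≠ 0 := by linarith
    have h3' : (b - a : ℂ) ≠ 0 := by exact_mod_cast h3
    push_cast; field_simp; ring
  · refine ⟨0, le_rfl, zero_le_one, ?_⟩
    have : s = a := by linarith
    rw [this]; simp

lemma triangle_subset {x₁ x₂ x₃ : ℂ} (h12 : segment ℝ x₁ x₂ ⊆ P.region)
    (h13 : segment ℝ x₁ x₃ ⊆ P.region) (h23 : segment ℝ x₂ x₃ ⊆ P.region) {α β γ : ℝ} (hα : 0 ≤ α)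
    (hβ : 0 ≤ β) (hγ : 0 ≤ γ) (hsum : α + β + γ = 1) :
    (α : ℂ) * x₁ + β * x₂ + γ * x₃ ∈ P.region := by
  by_contra hz
  obtain ⟨z, hzd⟩ : ∃ z : ℂ, z = α * x₁ + β * x₂ + γ * x₃ := ⟨_, rfl⟩
  rw [← hzd] at hz
  have hzo := P.not_mem_region.1 hz
  have hαc : (α : ℂ) = 1 - β - γ := by
    have : α = 1 - β - γ := by linarith
    rw [this]; push_cast; ring
  have hz' : z = x₁ + β * (x₂ - x₁) + γ * (x₃ - x₁) := by rw [hzd, hαc]; ring
  obtain ⟨D, hD⟩ : ∃ D, D = cr (x₂ - x₁) (x₃ - x₁) := ⟨_, rfl⟩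
  by_cases hD0 : D = 0
  · -- collinear points
    have hcol : ∃ (d : ℂ) (s2 s3 : ℝ), x₂ = x₁ + s2 * d ∧ x₃ = x₁ + s3 * d := by
      by_cases h : x₂ = x₁
      · exact ⟨x₃ - x₁, 0, 1, by rw [h]; simp, by simp⟩
      · refine ⟨x₂ - x₁, 1, cr (x₃ - x₁) (I * (x₂ - x₁)) / cr (x₂ - x₁) (I * (x₂ - x₁)), by simp, ?_⟩
        have hn : cr (x₂ - x₁) (I * (x₂ - x₁)) = (x₂ - x₁).re ^ 2 + (x₂ - x₁).im ^ 2 := by
          unfold cr; simp; ring
        have hn0 : (x₂ - x₁).re ^ 2 + (x₂ - x₁).im ^ 2 ≠ 0 := by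
          intro h0
          apply h
          have e1 : (x₂ - x₁).re = 0 := by nlinarith [sq_nonneg (x₂ - x₁).re, sq_nonneg (x₂ - x₁).im]
          have e2 : (x₂ - x₁).im = 0 := by nlinarith [sq_nonneg (x₂ - x₁).re, sq_nonneg (x₂ - x₁).im]
          exact sub_eq_zero.1 (Complex.ext e1 e2)
        rw [hD] at hD0
        unfold cr at hD0
        rw [hn]
        obtain ⟨p, hp⟩ : ∃ p, p = x₂ - x₁ := ⟨_, rfl⟩
        obtain ⟨q, hq⟩ : ∃ q, q = x₃ - x₁ := ⟨_, rfl⟩
        rw [← hp, ← hq] at hD0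
        rw [← hp] at hn0
        have hx3 : x₃ = x₁ + q := by rw [hq]; ring
        rw [← hp, ← hq, hx3]
        congr 1
        have hn0' : ((p.re : ℂ) ^ 2 + (p.im : ℂ) ^ 2) ≠ 0 := by exact_mod_cast hn0
        unfold cr
        apply Complex.ext
        · simp only [mul_re, I_re, zero_mul, I_im, one_mul, zero_sub, mul_im, zero_add, ofReal_re, ofReal_im, sub_zero]
          field_simp
          linear_combination (-p.im) * hD0
        · simp only [mul_re, I_re, zero_mul, I_im, one_mul, zero_sub, mul_im, zero_add, add_zero, ofReal_re, ofReal_im]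
          field_simp
          linear_combination p.re * hD0
    obtain ⟨d, s2, s3, h2, h3⟩ := hcol
    have hzs : z = x₁ + ((β * s2 + γ * s3 : ℝ) : ℂ) * d := by
      rw [hz', h2, h3]; push_cast; ring
    have hx1 : x₁ = x₁ + ((0 : ℝ) : ℂ) * d := by simp
    apply hz
    have key : ∀ i j : ℝ, i ≤ β * s2 + γ * s3 → β * s2 + γ * s3 ≤ j →
        segment ℝ (x₁ + i * d) (x₁ + j * d) ⊆ P.region → z ∈ P.region := by
      intro i j hi hj hsub
      rw [hzs]
      exact hsub (collinear_aux hi hj)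
    have e12 : segment ℝ (x₁ + ((0 : ℝ) : ℂ) * d) (x₁ + s2 * d) ⊆ P.region := by rw [← hx1, ← h2]; exact h12
    have e13 : segment ℝ (x₁ + ((0 : ℝ) : ℂ) * d) (x₁ + s3 * d) ⊆ P.region := by rw [← hx1, ← h3]; exact h13
    have e23 : segment ℝ (x₁ + s2 * d) (x₁ + s3 * d) ⊆ P.region := by rw [← h2, ← h3]; exact h23
    have e21 := e12; rw [segment_symm] at e21
    have e31 := e13; rw [segment_symm] at e31
    have e32 := e23; rw [segment_symm] at e32
    rcases le_total 0 s2 with a1 | a1 <;> rcases le_total 0 s3 with a2 | a2 <;> rcases le_total s2 s3 with a3 | a3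
    · exact key 0 s3 (by positivity) (by nlinarith) e13
    · exact key 0 s2 (by positivity) (by nlinarith) e12
    · exact key 0 s3 (by nlinarith) (by nlinarith) e13
    · exact key s3 s2 (by nlinarith) (by nlinarith) e32
    · exact key s2 s3 (by nlinarith) (by nlinarith) e23
    · exact key s2 0 (by nlinarith) (by nlinarith) e21
    · exact key s2 0 (by nlinarith) (by nlinarith) e21
    · exact key s3 0 (by nlinarith) (by nlinarith) e31
  · -- a genuine triangle
    obtain ⟨u, hu⟩ : ∃ u : ℂ → ℝ, u = fun y => cr (y - x₁) (x₃ - x₁) / D := ⟨_, rfl⟩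
    obtain ⟨v, hv⟩ : ∃ v : ℂ → ℝ, v = fun y => cr (x₂ - x₁) (y - x₁) / D := ⟨_, rfl⟩
    have huc : Continuous u := by rw [hu]; unfold cr; fun_prop
    have hvc : Continuous v := by rw [hv]; unfold cr; fun_prop
    have hrep : ∀ y, y = x₁ + u y * (x₂ - x₁) + v y * (x₃ - x₁) := by
      intro y
      have hD' : D = (x₂.re - x₁.re) * (x₃.im - x₁.im) - (x₂.im - x₁.im) * (x₃.re - x₁.re) := by
        rw [hD]; unfold cr; simp only [sub_re, sub_im]
      rw [hu, hv]
      unfold cr
      apply Complex.ext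
      · simp only [add_re, mul_re, ofReal_re, ofReal_im, sub_re, sub_im, zero_mul, sub_zero]
        field_simp
        rw [hD']
        ring
      · simp only [add_im, mul_im, ofReal_re, ofReal_im, sub_re, sub_im, zero_mul, add_zero]
        field_simp
        rw [hD']
        ring
    have huz : u z = β := by
      rw [hu]
      simp only
      rw [div_eq_iff hD0, hz', hD]
      unfold cr
      simp only [add_re, add_im, mul_re, mul_im, ofReal_re, ofReal_im, sub_re, sub_im]
      ring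
    have hvz : v z = γ := by
      rw [hv]
      simp only
      rw [div_eq_iff hD0, hz', hD]
      unfold cr
      simp only [add_re, add_im, mul_re, mul_im, ofReal_re, ofReal_im, sub_re, sub_im]
      ring
    obtain ⟨A₁, hA1⟩ : ∃ A₁ : Set ℂ, A₁ = {y | u y < 0} ∪ ({y | v y < 0} ∪ {y | 1 < u y + v y}) := ⟨_, rfl⟩
    obtain ⟨A₂, hA2⟩ : ∃ A₂ : Set ℂ, A₂ = {y | 0 < u y} ∩ ({y | 0 < v y} ∩ {y | u y + v y < 1}) := ⟨_, rfl⟩
    have hA1o : IsOpen A₁ := by
      rw [hA1]
      exact (isOpen_lt huc continuous_const).union ((isOpen_lt hvc continuous_const).union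
        (isOpen_lt continuous_const (huc.add hvc)))
    have hA2o : IsOpen A₂ := by
      rw [hA2]
      exact (isOpen_lt continuous_const huc).inter ((isOpen_lt continuous_const hvc).inter
        (isOpen_lt (huc.add hvc) continuous_const))
    have hdisj : Disjoint A₁ A₂ := by
      rw [Set.disjoint_left, hA1, hA2]
      rintro y (h | h | h) ⟨h1, h2, h3⟩
      · exact absurd (show u y < 0 from h) (not_lt.2 (le_of_lt h1))
      · exact absurd (show v y < 0 from h) (not_lt.2 (le_of_lt h2))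
      · exact absurd (show 1 < u y + v y from h) (not_lt.2 (le_of_lt h3))
    have hedges : ∀ y ∈ P.outer, y ∈ A₁ ∪ A₂ := by
      intro y hy
      by_contra hcon
      rw [hA1, hA2] at hcon
      simp only [mem_union, mem_inter_iff, mem_ofPred_eq, not_or, not_lt, not_and] at hcon
      obtain ⟨⟨c1, c2, c3⟩, c4⟩ := hcon
      apply P.not_mem_region.2 hy
      have hy' := hrep y
      rcases c1.lt_or_eq with c1' | c1'
      · rcases c2.lt_or_eq with c2' | c2'
        · have c5 : u y + v y = 1 := le_antisymm c3 (c4 c1' c2')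
          apply h23
          rw [mem_segment_iff']
          refine ⟨v y, c2, by linarith, ?_⟩
          have : (u y : ℂ) = 1 - v y := by
            have : u y = 1 - v y := by linarith
            rw [this]; push_cast; ring
          rw [this] at hy'
          linear_combination hy'
        · apply h12
          rw [mem_segment_iff']
          refine ⟨u y, c1, by linarith, ?_⟩
          rw [← c2'] at hy'
          push_cast at hy'
          linear_combination hy'
      · apply h13
        rw [mem_segment_iff']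
        refine ⟨v y, c2, by linarith, ?_⟩
        rw [← c1'] at hy'
        push_cast at hy'
        linear_combination hy'
    have hCsub : connectedComponentIn P.boundaryᶜ z ⊆ A₁ ∪ A₂ := fun y hy =>
      hedges y (P.component_subset_outer hzo hy)
    have hzC : z ∈ connectedComponentIn P.boundaryᶜ z := mem_connectedComponentIn hzo.1
    have hzA1 : z ∉ A₁ := by
      rw [hA1]
      rintro (h | h | h)
      · have : u z < 0 := h
        linarith
      · have : v z < 0 := h
        linarith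
      · have : 1 < u z + v z := h
        linarith
    rcases isPreconnected_connectedComponentIn.subset_or_subset hA1o hA2o hdisj hCsub with h | h
    · exact hzA1 (h hzC)
    · apply hzo.2
      have hb : Bornology.IsBounded (convexHull ℝ ({x₁, x₂, x₃} : Set ℂ)) :=
        ((Set.toFinite ({x₁, x₂, x₃} : Set ℂ)).isCompact_convexHull ℝ).isBounded
      apply hb.subset
      intro y hy
      have hyA := h hy
      rw [hA2] at hyA
      obtain ⟨c1, c2, c3⟩ := hyA
      have c1 : 0 < u y := c1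
      have c2 : 0 < v y := c2
      have c3 : u y + v y < 1 := c3
      have hy' := hrep y
      have hconv := convex_convexHull ℝ ({x₁, x₂, x₃} : Set ℂ)
      have m1 : x₁ ∈ convexHull ℝ ({x₁, x₂, x₃} : Set ℂ) := subset_convexHull ℝ _ (by simp)
      have m2 : x₂ ∈ convexHull ℝ ({x₁, x₂, x₃} : Set ℂ) := subset_convexHull ℝ _ (by simp)
      have m3 : x₃ ∈ convexHull ℝ ({x₁, x₂, x₃} : Set ℂ) := subset_convexHull ℝ _ (by simp)
      have := hconv.sum_mem (t := (Finset.univ : Finset (Fin 3))) (w := ![1 - u y - v y, u y, v y])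
        (z := ![x₁, x₂, x₃]) (by intro i _; fin_cases i <;> simp <;> linarith)
        (by simp [Fin.sum_univ_three]; ring) (by intro i _; fin_cases i <;> simp [m1, m2, m3])
      rw [Fin.sum_univ_three] at this
      simp only [Matrix.cons_val_zero, Matrix.cons_val_one, Matrix.cons_val_two, real_smul] at this
      have e1 : y = ((1 - u y - v y : ℝ) : ℂ) * x₁ + (u y : ℂ) * x₂ + (v y : ℂ) * x₃ := by
        push_cast; linear_combination hy'
      rw [e1]; exact this

lemma hull_triple {x₁ x₂ x₃ : ℂ} (h12 : segment ℝ x₁ x₂ ⊆ P.region)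
    (h13 : segment ℝ x₁ x₃ ⊆ P.region) (h23 : segment ℝ x₂ x₃ ⊆ P.region) :
    convexHull ℝ {x₁, x₂, x₃} ⊆ P.region := by
  intro z hz
  rw [convexHull_insert (by simp), convexHull_pair, mem_convexJoin] at hz
  obtain ⟨a, ha, b, hb, hz⟩ := hz
  rw [mem_singleton_iff] at ha
  subst ha
  rw [mem_segment_iff'] at hb hz
  obtain ⟨t, ht0, ht1, rfl⟩ := hb
  obtain ⟨s, hs0, hs1, rfl⟩ := hz
  have := P.triangle_subset h12 h13 h23 (α := 1 - s) (β := s * (1 - t)) (γ := s * t) (by linarith)
    (mul_nonneg hs0 (by linarith)) (mul_nonneg hs0 ht0) (by ring)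
  have e : a + (s : ℂ) * (x₂ + t * (x₃ - x₂) - a) = ((1 - s : ℝ) : ℂ) * a + ((s * (1 - t) : ℝ) : ℂ) * x₂ + ((s * t : ℝ) : ℂ) * x₃ := by
    push_cast; ring
  rw [e]; exact this

/-- (T2) the convex hull of a clique lies in the region. -/
theorem hull_subset (F : Set ℂ) (hF : F.Finite)
    (h : ∀ x ∈ F, ∀ y ∈ F, segment ℝ x y ⊆ P.region) :
    convexHull ℝ F ⊆ P.region := by
  have _ := hF
  intro z hz
  rw [convexHull_eq_union] at hz
  simp only [mem_iUnion] at hz
  obtain ⟨t, htF, hind, hzt⟩ := hz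
  have hcard : t.card ≤ 3 := by
    have h1 := hind.card_le_finrank_succ
    rw [Fintype.card_coe] at h1
    have h2 := Submodule.finrank_le (vectorSpan ℝ (Set.range ((↑) : t → ℂ)))
    rw [Complex.finrank_real_complex] at h2
    omega
  have hne : t.Nonempty := by
    rw [← Finset.coe_nonempty, ← convexHull_nonempty_iff (𝕜 := ℝ)]
    exact ⟨z, hzt⟩
  have h0 := hne.card_pos
  have hsub : ∃ x₁ ∈ F, ∃ x₂ ∈ F, ∃ x₃ ∈ F, (t : Set ℂ) ⊆ {x₁, x₂, x₃} := by
    have h5 : t.card = 1 ∨ t.card = 2 ∨ t.card = 3 := by omega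
    rcases h5 with h5 | h5 | h5
    · obtain ⟨a, rfl⟩ := Finset.card_eq_one.1 h5
      have ha := htF (by simp : a ∈ (({a} : Finset ℂ) : Set ℂ))
      exact ⟨a, ha, a, ha, a, ha, by simp⟩
    · obtain ⟨a, b, -, rfl⟩ := Finset.card_eq_two.1 h5
      have ha := htF (by simp : a ∈ (({a, b} : Finset ℂ) : Set ℂ))
      have hb := htF (by simp : b ∈ (({a, b} : Finset ℂ) : Set ℂ))
      exact ⟨a, ha, b, hb, b, hb, by simp⟩
    · obtain ⟨a, b, c, -, -, -, rfl⟩ := Finset.card_eq_three.1 h5
      have ha := htF (by simp : a ∈ (({a, b, c} : Finset ℂ) : Set ℂ))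
      have hb := htF (by simp : b ∈ (({a, b, c} : Finset ℂ) : Set ℂ))
      have hc := htF (by simp : c ∈ (({a, b, c} : Finset ℂ) : Set ℂ))
      exact ⟨a, ha, b, hb, c, hc, by simp⟩
  obtain ⟨x₁, h1, x₂, h2, x₃, h3, hs⟩ := hsub
  exact P.hull_triple (h _ h1 _ h2) (h _ h1 _ h3) (h _ h2 _ h3) (convexHull_mono hs hzt)

/-- One step of the separation argument. -/
lemma sep_step {f : ℂ →L[ℝ] ℝ} {a b c x : ℂ} (hab : a ≠ b) (hac : a ≠ c) (hfx : f a < f x)
    (h : (segment ℝ a x ∩ segment ℝ b c).Nonempty) :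
    f a < max (f b) (f c) ∨ (f b = f a ∧ f c = f a ∧ ∃ l : ℝ, 0 < l ∧ l < 1 ∧ a = b + l * (c - b)) := by
  obtain ⟨p, hp1, hp2⟩ := h
  rw [mem_segment_iff'] at hp1 hp2
  obtain ⟨τ, hτ0, hτ1, hτ⟩ := hp1
  obtain ⟨l, hl0, hl1, hl⟩ := hp2
  have hfp1 : f p = f a + τ * (f x - f a) := by
    rw [hτ, map_add, ← real_smul, map_smul, map_sub, smul_eq_mul]
  have hfp2 : f p = f b + l * (f c - f b) := by
    rw [hl, map_add, ← real_smul, map_smul, map_sub, smul_eq_mul]
  by_cases hcase : f a < max (f b) (f c)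
  · left; exact hcase
  right
  have hb : f b ≤ f a := le_trans (le_max_left _ _) (not_lt.1 hcase)
  have hc : f c ≤ f a := le_trans (le_max_right _ _) (not_lt.1 hcase)
  have h1 : τ * (f x - f a) ≤ 0 := by nlinarith
  have hτz : τ = 0 := by
    by_contra hne
    have : 0 < τ := lt_of_le_of_ne hτ0 (Ne.symm hne)
    have := mul_pos this (sub_pos.2 hfx)
    linarith
  have hpa : p = a := by rw [hτ, hτz]; simp
  rw [hpa] at hl hfp2
  have hl0' : 0 < l := by
    rcases hl0.lt_or_eq with h | h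
    · exact h
    · exfalso; apply hab; rw [hl, ← h]; simp
  have hl1' : l < 1 := by
    rcases hl1.lt_or_eq with h | h
    · exact h
    · exfalso; apply hac; rw [hl, h]; push_cast; ring
  have h2 : (1 - l) * (f b - f a) + l * (f c - f a) = 0 := by linear_combination -hfp2
  have h3 : (1 - l) * (f b - f a) ≤ 0 := mul_nonpos_of_nonneg_of_nonpos (by linarith) (by linarith)
  have h4 : l * (f c - f a) ≤ 0 := mul_nonpos_of_nonneg_of_nonpos hl0 (by linarith)
  have h5 : (1 - l) * (f b - f a) = 0 := by linarith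
  have h6 : l * (f c - f a) = 0 := by linarith
  refine ⟨?_, ?_, l, hl0', hl1', hl⟩
  · rcases mul_eq_zero.1 h5 with h | h <;> linarith
  · rcases mul_eq_zero.1 h6 with h | h <;> linarith

/-- The convex-geometric core of the separation lemma. -/
lemma meet_core {a b c d x y : ℂ} (hab : a ≠ b) (hac : a ≠ c) (hdb : d ≠ b) (hdc : d ≠ c) (had : a ≠ d)
    (m1 : (segment ℝ a x ∩ segment ℝ b c).Nonempty) (m2 : (segment ℝ d x ∩ segment ℝ b c).Nonempty)
    (m3 : (segment ℝ b y ∩ segment ℝ a d).Nonempty) (m4 : (segment ℝ c y ∩ segment ℝ a d).Nonempty) :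
    (segment ℝ x y ∩ convexHull ℝ {a, b, c, d}).Nonempty := by
  by_contra hcon
  rw [Set.not_nonempty_iff_eq_empty, ← Set.disjoint_iff_inter_eq_empty] at hcon
  have hfin : ({a, b, c, d} : Set ℂ).Finite := Set.toFinite _
  obtain ⟨f, u, v, h1, h2, h3⟩ := geometric_hahn_banach_compact_closed
    (convex_convexHull ℝ ({a, b, c, d} : Set ℂ)) (hfin.isCompact_convexHull ℝ) (convex_segment x y)
    (isClosed_segment' x y) hcon.symm
  have fa := h1 a (subset_convexHull ℝ _ (by simp))
  have fb := h1 b (subset_convexHull ℝ _ (by simp))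
  have fc := h1 c (subset_convexHull ℝ _ (by simp))
  have fd := h1 d (subset_convexHull ℝ _ (by simp))
  have fx := h3 x (left_mem_segment ℝ _ _)
  have fy := h3 y (right_mem_segment ℝ _ _)
  have s1 := sep_step (f := f) hab hac (by linarith) m1
  have s2 := sep_step (f := f) hdb hdc (by linarith) m2
  have s3 := sep_step (f := f) hab.symm hdb.symm (by linarith) m3
  have s4 := sep_step (f := f) hac.symm hdc.symm (by linarith) m4
  -- a point of `{a, d}` on a line strictly between `b` and `c`, and `b`, `c` on `[a, d]`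
  have key : ∀ p q : ℂ, p ≠ q → (∃ l : ℝ, 0 < l ∧ l < 1 ∧ p = b + l * (c - b)) →
      (∃ μ : ℝ, 0 < μ ∧ b = p + μ * (q - p)) → (∃ ν : ℝ, 0 < ν ∧ c = p + ν * (q - p)) → False := by
    rintro p q hpq ⟨l, hl0, hl1, hl⟩ ⟨μ, hμ, hb⟩ ⟨ν, hν, hc⟩
    have e : (((1 - l) * μ + l * ν : ℝ) : ℂ) * (q - p) = 0 := by
      push_cast
      have e1 : p = (1 - l) * b + l * c := by linear_combination hl
      have e2 : (1 - l) * b + l * c = (1 - l) * (p + μ * (q - p)) + l * (p + ν * (q - p)) := by
        rw [← hb, ← hc]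
      linear_combination -e2 - e1
    rcases mul_eq_zero.1 e with h | h
    · have h' : (1 - l) * μ + l * ν = 0 := by exact_mod_cast h
      have := mul_pos (sub_pos.2 hl1) hμ
      have := mul_pos hl0 hν
      linarith
    · exact hpq (sub_eq_zero.1 h).symm
  rcases s1 with s1 | ⟨s1b, s1c, s1l⟩
  · rcases s2 with s2 | ⟨s2b, s2c, s2l⟩
    · rcases s3 with s3 | ⟨s3a, s3d, -⟩
      · rcases s4 with s4 | ⟨s4a, s4d, -⟩
        · rcases max_choice (f b) (f c) with e | e <;> rcases max_choice (f a) (f d) with e' | e' <;>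
            rw [e] at s1 s2 <;> rw [e'] at s3 s4 <;> linarith
        · rcases max_choice (f b) (f c) with e | e <;> rcases max_choice (f a) (f d) with e' | e' <;>
            rw [e] at s1 s2 <;> rw [e'] at s3 <;> linarith
      · rcases s4 with s4 | ⟨s4a, s4d, -⟩
        · rcases max_choice (f b) (f c) with e | e <;> rcases max_choice (f a) (f d) with e' | e' <;>
            rw [e] at s1 s2 <;> rw [e'] at s4 <;> linarith
        · rcases max_choice (f b) (f c) with e | e <;> 
            rw [e] at s1 s2 <;> linarith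
    · -- `d` between `b` and `c`
      have hbz : f b = f d := s2b
      have hcz : f c = f d := s2c
      have h5 : f a < f d := by
        rcases max_choice (f b) (f c) with e | e <;> rw [e] at s1 <;> linarith
      rcases s3 with s3 | ⟨s3a, s3d, l3, hl30, hl31, hl3⟩
      · rw [max_eq_right h5.le] at s3; linarith
      · linarith
  · rcases s2 with s2 | ⟨s2b, s2c, s2l⟩
    · have h5 : f d < f a := by
        rcases max_choice (f b) (f c) with e | e <;> rw [e] at s2 <;> linarith
      rcases s3 with s3 | ⟨s3a, s3d, l3, hl30, hl31, hl3⟩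
      · rw [max_eq_left h5.le] at s3; linarith
      · linarith
    · rcases s3 with s3 | ⟨s3a, s3d, l3, hl30, hl31, hl3⟩
      · rcases max_choice (f a) (f d) with e | e <;> rw [e] at s3 <;> linarith
      · rcases s4 with s4 | ⟨s4a, s4d, l4, hl40, hl41, hl4⟩
        · rcases max_choice (f a) (f d) with e | e <;> rw [e] at s4 <;> linarith
        · exact key a d had s1l ⟨l3, hl30, hl3⟩ ⟨l4, hl40, hl4⟩

lemma seg_of_adj {i j : Fin n} (h : P.visGraph.Adj i j) : segment ℝ (P.v i) (P.v j) ⊆ P.region := h.2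

lemma seg_self (i : Fin n) : segment ℝ (P.v i) (P.v i) ⊆ P.region := by
  rw [segment_same]
  rintro z rfl
  exact P.boundary_subset_region (P.edge_subset i (P.left_mem i))

/-- The separation lemma with the four crossings as hypotheses. -/
lemma spl_core {a b x c d y : Fin n} (hne : x ≠ y) (hab : P.visGraph.Adj a b)
    (hac : P.visGraph.Adj a c) (had : P.visGraph.Adj a d) (hbc : P.visGraph.Adj b c)
    (hbd : P.visGraph.Adj b d) (hcd : P.visGraph.Adj c d)
    (hxa : P.visGraph.Adj x a) (hxb : P.visGraph.Adj x b) (hxc : P.visGraph.Adj x c)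
    (hxd : P.visGraph.Adj x d) (hya : P.visGraph.Adj y a) (hyb : P.visGraph.Adj y b)
    (hyc : P.visGraph.Adj y c) (hyd : P.visGraph.Adj y d)
    (m1 : (segment ℝ (P.v a) (P.v x) ∩ segment ℝ (P.v b) (P.v c)).Nonempty)
    (m2 : (segment ℝ (P.v d) (P.v x) ∩ segment ℝ (P.v b) (P.v c)).Nonempty)
    (m3 : (segment ℝ (P.v b) (P.v y) ∩ segment ℝ (P.v a) (P.v d)).Nonempty)
    (m4 : (segment ℝ (P.v c) (P.v y) ∩ segment ℝ (P.v a) (P.v d)).Nonempty) :
    P.visGraph.Adj x y := by
  have hv : ∀ {i j : Fin n}, i ≠ j → P.v i ≠ P.v j := fun h h' => h (P.inj h')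
  obtain ⟨z, hz1, hz2⟩ := meet_core (hv hab.1) (hv hac.1) (hv hbd.1.symm) (hv hcd.1.symm) (hv had.1) m1 m2 m3 m4
  refine ⟨hne, ?_⟩
  have hsymm : ∀ {i j : Fin n}, P.visGraph.Adj i j → segment ℝ (P.v j) (P.v i) ⊆ P.region := by
    intro i j h; rw [segment_symm]; exact h.2
  have hhull : ∀ w : Fin n, P.visGraph.Adj w a → P.visGraph.Adj w b → P.visGraph.Adj w c →
      P.visGraph.Adj w d → segment ℝ (P.v w) z ⊆ P.region := by
    intro w h1 h2 h3 h4
    have hsub : segment ℝ (P.v w) z ⊆ convexHull ℝ ({P.v w, P.v a, P.v b, P.v c, P.v d} : Set ℂ) := by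
      apply (convex_convexHull ℝ _).segment_subset
      · exact subset_convexHull ℝ _ (by simp)
      · exact convexHull_mono (Set.subset_insert _ _) hz2
    refine hsub.trans (P.hull_subset _ (Set.toFinite _) ?_)
    intro p hp q hq
    simp only [mem_insert_iff, mem_singleton_iff] at hp hq
    rcases hp with rfl | rfl | rfl | rfl | rfl <;> rcases hq with rfl | rfl | rfl | rfl | rfl <;>
      first
        | exact P.seg_self _
        | exact P.seg_of_adj (by assumption)
        | exact hsymm (by assumption)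
  intro p hp
  have hx := hhull x hxa hxb hxc hxd
  have hy := hhull y hya hyb hyc hyd
  rw [mem_segment_iff'] at hp hz1
  obtain ⟨s, hs0, hs1, hs⟩ := hp
  obtain ⟨t, ht0, ht1, ht⟩ := hz1
  rcases le_total s t with h | h
  · apply hx
    rw [mem_segment_iff']
    rcases ht0.lt_or_eq with h0 | h0
    · refine ⟨s / t, div_nonneg hs0 ht0, (div_le_one h0).2 h, ?_⟩
      have : (t : ℂ) ≠ 0 := by exact_mod_cast h0.ne'
      rw [hs, ht]; push_cast; field_simp; ring
    · refine ⟨0, le_rfl, zero_le_one, ?_⟩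
      have : s = 0 := by linarith
      rw [hs, this]; simp
  · apply hy
    rw [mem_segment_iff']
    rcases ht1.lt_or_eq with h1 | h1
    · refine ⟨(1 - s) / (1 - t), div_nonneg (by linarith) (by linarith), (div_le_one (by linarith)).2 (by linarith), ?_⟩
      have h2 : (1 - t : ℝ) ≠ 0 := by linarith
      have : (1 - t : ℂ) ≠ 0 := by exact_mod_cast h2
      rw [hs, ht]; push_cast; field_simp; ring
    · refine ⟨0, le_rfl, zero_le_one, ?_⟩
      have : s = 1 := by linarith
      rw [hs, this]; push_cast; ring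

/-- (SPL), first form. -/
theorem spl_last {a b x c d y : Fin n} (h1 : a < b) (h2 : b < x) (h3 : x < c) (h4 : c < d)
    (h5 : d < y) (hab : P.visGraph.Adj a b) (hac : P.visGraph.Adj a c) (had : P.visGraph.Adj a d)
    (hbc : P.visGraph.Adj b c) (hbd : P.visGraph.Adj b d) (hcd : P.visGraph.Adj c d)
    (hxa : P.visGraph.Adj x a) (hxb : P.visGraph.Adj x b) (hxc : P.visGraph.Adj x c)
    (hxd : P.visGraph.Adj x d) (hya : P.visGraph.Adj y a) (hyb : P.visGraph.Adj y b)
    (hyc : P.visGraph.Adj y c) (hyd : P.visGraph.Adj y d) : P.visGraph.Adj x y := by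
  apply P.spl_core (h3.trans (h4.trans h5)).ne hab hac had hbc hbd hcd hxa hxb hxc hxd hya hyb hyc hyd
  · exact P.chords_meet h1 h2 h3 hxa.symm.2 hbc.2
  · obtain ⟨z, hz1, hz2⟩ := P.chords_meet h2 h3 h4 hbc.2 hxd.2
    exact ⟨z, by rw [segment_symm]; exact hz2, hz1⟩
  · obtain ⟨z, hz1, hz2⟩ := P.chords_meet h1 (h2.trans (h3.trans h4)) h5 had.2 hyb.symm.2
    exact ⟨z, hz2, hz1⟩
  · obtain ⟨z, hz1, hz2⟩ := P.chords_meet (h1.trans (h2.trans h3)) h4 h5 had.2 hyc.symm.2
    exact ⟨z, hz2, hz1⟩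

/-- (SPL), second form. -/
theorem spl_first {a b x c d y : Fin n} (h0 : y < a) (h1 : a < b) (h2 : b < x) (h3 : x < c)
    (h4 : c < d) (hab : P.visGraph.Adj a b) (hac : P.visGraph.Adj a c) (had : P.visGraph.Adj a d)
    (hbc : P.visGraph.Adj b c) (hbd : P.visGraph.Adj b d) (hcd : P.visGraph.Adj c d)
    (hxa : P.visGraph.Adj x a) (hxb : P.visGraph.Adj x b) (hxc : P.visGraph.Adj x c)
    (hxd : P.visGraph.Adj x d) (hya : P.visGraph.Adj y a) (hyb : P.visGraph.Adj y b)
    (hyc : P.visGraph.Adj y c) (hyd : P.visGraph.Adj y d) : P.visGraph.Adj x y := by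
  apply P.spl_core (h0.trans (h1.trans h2)).ne' hab hac had hbc hbd hcd hxa hxb hxc hxd hya hyb hyc hyd
  · exact P.chords_meet h1 h2 h3 hxa.symm.2 hbc.2
  · obtain ⟨z, hz1, hz2⟩ := P.chords_meet h2 h3 h4 hbc.2 hxd.2
    exact ⟨z, by rw [segment_symm]; exact hz2, hz1⟩
  · obtain ⟨z, hz1, hz2⟩ := P.chords_meet h0 h1 (h2.trans (h3.trans h4)) hyb.2 had.2
    exact ⟨z, by rw [segment_symm]; exact hz1, hz2⟩
  · obtain ⟨z, hz1, hz2⟩ := P.chords_meet h0 (h1.trans (h2.trans h3)) h4 hyc.2 had.2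
    exact ⟨z, by rw [segment_symm]; exact hz1, hz2⟩

end Pool.Agent.Lib.MP_df76ee_lc.SimplePolygon
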