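import Pool.Agent.Lib.MP_df76ee_lc.GeomOuter

/-!
# Interleaved chords of a simple polygon meet
-/

set_option autoImplicit false

namespace Pool.Agent.Lib.MP_df76ee_lc.SimplePolygon

open Complex Set Filter Topology Geom

variable {n : ℕ} (P : SimplePolygon n)

lemma wind_outer {w : ℕ → ℂ} {N : ℕ} (hN : 0 < N) (hcl : w N = w 0) (hcar : carrier w N ⊆ P.region)
    {z : ℂ} (hz : z ∈ P.outer) : wind w N z = 0 := by
  apply wind_eq_zero_of_unbounded hN hcl (S := connectedComponentIn P.boundaryᶜ z)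
    isPreconnected_connectedComponentIn _ hz.2 (mem_connectedComponentIn hz.1)
  intro y hy hyc
  have := P.component_subset_outer hz hy
  rw [← not_mem_region] at this
  exact this (hcar hyc)

lemma wind_closure_outer {w : ℕ → ℂ} {N : ℕ} (hN : 0 < N) (hcl : w N = w 0)
    (hcar : carrier w N ⊆ P.region) {z : ℂ} (hz : z ∈ closure P.outer) (hzc : z ∉ carrier w N) :
    wind w N z = 0 := by
  by_contra hne
  have h1 : ∀ᶠ y in 𝓝 z, wind w N y ≠ 0 := (continuousAt_wind hzc).eventually_ne hne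
  obtain ⟨y, hy1, hy2⟩ := mem_closure_iff_nhds.1 hz _ h1
  exact hy1 (P.wind_outer hN hcl hcar hy2)

/-- Points of the region off the boundary, close to a boundary point on the polygon `w`, have
nonzero turning. -/
theorem wind_ne_zero_near {w : ℕ → ℂ} {N : ℕ} (hN : 0 < N) (hcl : w N = w 0)
    (hcar : carrier w N ⊆ P.region) {t : ℂ} {ρ : ℝ} (hρ : 0 < ρ)
    (hloc : ∀ z ∈ Metric.ball t ρ, z ∈ carrier w N → z ∈ P.boundary) {j : ℕ} (hj : j < N) {i : Fin n}
    (hwj : w j = P.v i) (hwj1 : w (j + 1) = P.v (finRotate n i)) (ht : t ∈ P.edge i)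
    (hoth : ∀ k < N, k ≠ j → ∀ m ∈ Metric.ball t ρ, m ∈ segment ℝ (w k) (w (k + 1)) →
      ∃ l, l ≠ i ∧ m ∈ P.edge l) :
    ∃ r : ℝ, 0 < r ∧ r ≤ ρ ∧ ∀ c ∈ Metric.ball t r, c ∉ P.boundary → c ∈ P.region →
      wind w N c ≠ 0 := by
  have htb : t ∈ P.boundary := P.edge_subset i ht
  obtain ⟨r, hr, hrρ, S₁, S₂, hS1, hS2, h1, h2, h3, -, -⟩ := P.local_pieces htb hρ
  refine ⟨r, hr, hrρ, ?_⟩
  -- the point `m` in the open edge
  obtain ⟨d, hd⟩ : ∃ d, d = P.v (finRotate n i) - P.v i := ⟨_, rfl⟩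
  have hd0 : d ≠ 0 := by rw [hd]; exact sub_ne_zero.2 (P.v_ne i).symm
  have hdn : 0 < ‖d‖ := norm_pos_iff.2 hd0
  obtain ⟨s0, hs00, hs01, hs0⟩ := mem_segment_iff'.1 ht
  rw [← hd] at hs0
  obtain ⟨η, hη⟩ : ∃ η, η = min 1 (r / ‖d‖) := ⟨_, rfl⟩
  have hη0 : 0 < η := by rw [hη]; exact lt_min one_pos (div_pos hr hdn)
  have hη1 : η ≤ 1 := by rw [hη]; exact min_le_left _ _
  have hη2 : η * ‖d‖ ≤ r := by
    have : η ≤ r / ‖d‖ := by rw [hη]; exact min_le_right _ _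
    rwa [le_div_iff₀ hdn] at this
  obtain ⟨s, hs⟩ : ∃ s, s = s0 + η * (1 / 2 - s0) := ⟨_, rfl⟩
  have hs_pos : 0 < s := by rw [hs]; nlinarith
  have hs_lt : s < 1 := by rw [hs]; nlinarith
  have hsdiff : |s - s0| ≤ η / 2 := by
    rw [hs, add_sub_cancel_left, abs_mul, abs_of_pos hη0]
    have : |1 / 2 - s0| ≤ 1 / 2 := by rw [abs_le]; constructor <;> linarith
    nlinarith
  obtain ⟨m, hm⟩ : ∃ m, m = P.v i + s * d := ⟨_, rfl⟩
  have hmball : m ∈ Metric.ball t r := by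
    rw [Metric.mem_ball, dist_eq_norm, hm, hs0]
    have e1 : P.v i + s * d - (P.v i + s0 * d) = ((s - s0 : ℝ) : ℂ) * d := by push_cast; ring
    rw [e1, norm_mul, norm_real, Real.norm_eq_abs]
    nlinarith
  have hm_ne1 : m ≠ P.v i := by
    intro h
    rw [hm] at h
    have h4 : (s : ℂ) * d = 0 := by linear_combination h
    rcases mul_eq_zero.1 h4 with h5 | h5
    · exact hs_pos.ne' (by exact_mod_cast h5)
    · exact hd0 h5
  have hm_ne2 : m ≠ P.v (finRotate n i) := by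
    intro h
    rw [hm] at h
    have h4 : ((s - 1 : ℝ) : ℂ) * d = 0 := by push_cast; linear_combination h - hd
    rcases mul_eq_zero.1 h4 with h5 | h5
    · have : s - 1 = 0 := by exact_mod_cast h5
      linarith
    · exact hd0 h5
  have hmi : m ∈ P.edge i := by
    unfold edge
    rw [mem_segment_iff']
    exact ⟨s, hs_pos.le, hs_lt.le, by rw [hm, hd]⟩
  have hm_other : ∀ l, l ≠ i → m ∉ P.edge l := by
    intro l hl hml
    rcases P.edge_inter (Ne.symm hl) hmi hml with ⟨h4, h5⟩ | ⟨_, h5⟩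
    · exact hm_ne2 (by rw [h5, h4])
    · exact hm_ne1 h5
  -- crossing the edge at `m`
  have hjump := wind_jump (w := w) (N := N) hj hs_pos hs_lt (m := m) (by rw [hwj, hwj1, hm, hd])
    (by rw [hwj, hwj1]; exact P.v_ne i) (by
      intro k hk hkj hmk
      obtain ⟨l, hl1, hl2⟩ := hoth k hk hkj m (Metric.ball_subset_ball hrρ hmball) hmk
      exact hm_other l hl1 hl2)
  have ht1 : Tendsto (fun ε : ℝ => m + ε * I * (w (j + 1) - w j)) (𝓝[>] 0) (𝓝 m) := by
    have : Continuous (fun ε : ℝ => m + ε * I * (w (j + 1) - w j)) := by fun_prop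
    have h := this.tendsto 0
    simp only [ofReal_zero, zero_mul, add_zero] at h
    exact h.mono_left nhdsWithin_le_nhds
  have ht2 : Tendsto (fun ε : ℝ => m - ε * I * (w (j + 1) - w j)) (𝓝[>] 0) (𝓝 m) := by
    have : Continuous (fun ε : ℝ => m - ε * I * (w (j + 1) - w j)) := by fun_prop
    have h := this.tendsto 0
    simp only [ofReal_zero, zero_mul, sub_zero] at h
    exact h.mono_left nhdsWithin_le_nhds
  obtain ⟨K', hK'⟩ : ∃ K' : Set ℂ, K' = ⋃ l : {l : Fin n // l ≠ i}, P.edge l.1 := ⟨_, rfl⟩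
  have hK'c : IsClosed K' := by rw [hK']; exact isClosed_iUnion_of_finite (fun l => P.isClosed_edge l.1)
  have hmK' : m ∉ K' := by
    rw [hK']; intro h
    obtain ⟨⟨l, hl⟩, hml⟩ := mem_iUnion.1 h
    exact hm_other l hl hml
  have hgood1 : ∀ᶠ z in 𝓝 m, z ∈ Metric.ball t r := Metric.isOpen_ball.mem_nhds hmball
  have hgood2 : ∀ᶠ z in 𝓝 m, z ∉ K' := hK'c.isOpen_compl.mem_nhds hmK'
  have hgood : ∀ᶠ z in 𝓝 m, z ∈ Metric.ball t r ∧ z ∉ K' := hgood1.and hgood2
  obtain ⟨ε, hε1, hε2, hε3, hε4⟩ := (hjump.and ((ht1.eventually hgood).and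
    ((ht2.eventually hgood).and self_mem_nhdsWithin))).exists
  have hε0 : (0 : ℝ) < ε := hε4
  rw [hwj, hwj1, ← hd] at hε1 hε2 hε3
  have hoff : ∀ σ : ℝ, σ ≠ 0 → m + σ * I * d ∉ K' → m + σ * I * d ∉ P.boundary := by
    intro σ hσ hK hb
    obtain ⟨l, hl⟩ := P.mem_boundary.1 hb
    by_cases hli : l = i
    · subst hli
      unfold edge at hl
      rw [mem_segment_iff', ← hd, hm] at hl
      obtain ⟨x, _, _, hx⟩ := hl
      have h4 : ((s - x : ℝ) + σ * I : ℂ) * d = 0 := by push_cast; linear_combination hx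
      rcases mul_eq_zero.1 h4 with h5 | h5
      · have := congrArg Complex.im h5
        simp at this
        exact hσ this
      · exact hd0 h5
    · apply hK; rw [hK']; exact mem_iUnion.2 ⟨⟨l, hli⟩, hl⟩
  have hp : m + ε * I * d ∈ Metric.ball t r \ P.boundary := ⟨hε2.1, hoff ε hε0.ne' hε2.2⟩
  have hq : m - ε * I * d ∈ Metric.ball t r \ P.boundary := by
    refine ⟨hε3.1, ?_⟩
    have e1 : m - ε * I * d = m + ((-ε : ℝ) : ℂ) * I * d := by push_cast; ring
    rw [e1]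
    apply hoff (-ε) (by linarith)
    rw [← e1]; exact hε3.2
  have hoffc : ∀ z ∈ Metric.ball t r \ P.boundary, z ∉ carrier w N := by
    rintro z ⟨hz1, hz2⟩ hz3
    exact hz2 (hloc z (Metric.ball_subset_ball hrρ hz1) hz3)
  have hc1 : ∀ x ∈ S₁, ∀ y ∈ S₁, wind w N x = wind w N y := fun x hx y hy =>
    wind_const hN hcl hS1 (fun z hz => hoffc z (h1 hz)) hx hy
  have hc2 : ∀ x ∈ S₂, ∀ y ∈ S₂, wind w N x = wind w N y := fun x hx y hy =>
    wind_const hN hcl hS2 (fun z hz => hoffc z (h2 hz)) hx hy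
  have hdiff : ∀ x ∈ S₁, ∀ y ∈ S₂, wind w N x ≠ wind w N y := by
    intro x hx y hy heq
    apply hε1
    rcases h3 hp with hp' | hp' <;> rcases h3 hq with hq' | hq'
    · exact hc1 _ hp' _ hq'
    · rw [hc1 _ hp' x hx, hc2 _ hq' y hy]; exact heq
    · rw [hc2 _ hp' y hy, hc1 _ hq' x hx]; exact heq.symm
    · exact hc2 _ hp' _ hq'
  -- a point of the outer region
  obtain ⟨u, hu1, hu2⟩ := Metric.mem_closure_iff.1 (P.boundary_subset_closure_outer htb) r hr
  have hu : u ∈ Metric.ball t r \ P.boundary := ⟨by rw [Metric.mem_ball, dist_comm]; exact hu2, hu1.1⟩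
  have hu0 := P.wind_outer hN hcl hcar hu1
  intro c hc hcb hcr hc0
  rcases h3 ⟨hc, hcb⟩ with hc' | hc' <;> rcases h3 hu with hu' | hu'
  · have := P.mem_outer_of_joined hS1 (fun w hw => (h1 hw).2) hu' hc' hu1
    exact (P.not_mem_region.2 this) hcr
  · exact hdiff c hc' u hu' (by rw [hc0, hu0])
  · exact hdiff u hu' c hc' (by rw [hc0, hu0])
  · have := P.mem_outer_of_joined hS2 (fun w hw => (h2 hw).2) hu' hc' hu1
    exact (P.not_mem_region.2 this) hcr

lemma rotate_of_lt {i r : Fin n} (h : i < r) : (finRotate n i).1 = i.1 + 1 := by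
  obtain ⟨m, hm⟩ : ∃ m, n = m + 1 := ⟨n - 1, by have := i.2; omega⟩
  subst hm
  have h1 : i.1 < m := by have := r.2; have : i.1 < r.1 := h; omega
  have h2 : finRotate (m + 1) i = ⟨i.1 + 1, by omega⟩ := finRotate_of_lt h1
  rw [h2]

/-- The vertices of the closed polygon consisting of the arc from `p` to `r` and the chord back. -/
noncomputable def arcPath (p r : Fin n) (k : ℕ) : ℂ :=
  if h : k ≤ r.1 - p.1 ∧ p ≤ r then P.v ⟨p.1 + k, by have := r.2; have : p.1 ≤ r.1 := h.2; omega⟩ else P.v p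

lemma arcPath_zero {p r : Fin n} (h : p < r) : P.arcPath p r 0 = P.v p := by
  unfold arcPath
  rw [dif_pos ⟨Nat.zero_le _, h.le⟩]
  rfl

lemma arcPath_lt {p r : Fin n} (h : p < r) {k : ℕ} (hk : k < r.1 - p.1) :
    ∃ i : Fin n, i.1 = p.1 + k ∧ P.arcPath p r k = P.v i ∧ P.arcPath p r (k + 1) = P.v (finRotate n i) := by
  have hr := r.2
  have hpr : p.1 < r.1 := h
  refine ⟨⟨p.1 + k, by omega⟩, rfl, ?_, ?_⟩
  · unfold arcPath
    rw [dif_pos ⟨hk.le, h.le⟩]
  · unfold arcPath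
    rw [dif_pos ⟨hk, h.le⟩]
    congr 1
    apply Fin.ext
    rw [rotate_of_lt (r := r) (show (⟨p.1 + k, by omega⟩ : Fin n) < r by
      rw [Fin.lt_def]; simp only; omega)]
    simp only; omega

lemma arcPath_end {p r : Fin n} (h : p < r) : P.arcPath p r (r.1 - p.1) = P.v r ∧
    P.arcPath p r (r.1 - p.1 + 1) = P.v p := by
  have hpr : p.1 < r.1 := h
  constructor
  · unfold arcPath
    rw [dif_pos ⟨le_rfl, h.le⟩]
    congr 1
    apply Fin.ext
    simp only; omega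
  · unfold arcPath
    rw [dif_neg]
    intro hc; omega

lemma mem_carrier_arcPath {p r : Fin n} (h : p < r) {z : ℂ} :
    z ∈ carrier (P.arcPath p r) (r.1 - p.1 + 1) ↔
      (∃ i : Fin n, p ≤ i ∧ i < r ∧ z ∈ P.edge i) ∨ z ∈ segment ℝ (P.v p) (P.v r) := by
  have hpr : p.1 < r.1 := h
  constructor
  · rintro ⟨k, hk, hz⟩
    rcases Nat.lt_or_ge k (r.1 - p.1) with h1 | h1
    · left
      obtain ⟨i, hi, h2, h3⟩ := P.arcPath_lt h h1
      rw [h2, h3] at hz
      exact ⟨i, by rw [Fin.le_def]; omega, by rw [Fin.lt_def]; omega, hz⟩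
    · right
      have hk' : k = r.1 - p.1 := by omega
      subst hk'
      rw [(P.arcPath_end h).1, (P.arcPath_end h).2, segment_symm] at hz
      exact hz
  · rintro (⟨i, h1, h2, hz⟩ | hz)
    · have h1' : p.1 ≤ i.1 := h1
      have h2' : i.1 < r.1 := h2
      obtain ⟨i', hi', h3, h4⟩ := P.arcPath_lt h (k := i.1 - p.1) (by omega)
      have : i' = i := Fin.ext (by omega)
      subst this
      exact ⟨i'.1 - p.1, by omega, by rw [h3, h4]; exact hz⟩
    · refine ⟨r.1 - p.1, by omega, ?_⟩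
      rw [(P.arcPath_end h).1, (P.arcPath_end h).2, segment_symm]
      exact hz

/-- (T1) interleaved chords meet. -/
theorem chords_meet {p q r s : Fin n} (h1 : p < q) (h2 : q < r) (h3 : r < s)
    (hpr : segment ℝ (P.v p) (P.v r) ⊆ P.region) (hqs : segment ℝ (P.v q) (P.v s) ⊆ P.region) :
    (segment ℝ (P.v p) (P.v r) ∩ segment ℝ (P.v q) (P.v s)).Nonempty := by
  by_contra hempty
  rw [Set.not_nonempty_iff_eq_empty] at hempty
  have hdisj : ∀ z, z ∈ segment ℝ (P.v q) (P.v s) → z ∉ segment ℝ (P.v p) (P.v r) := by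
    intro z hz hz'
    have : z ∈ segment ℝ (P.v p) (P.v r) ∩ segment ℝ (P.v q) (P.v s) := ⟨hz', hz⟩
    rw [hempty] at this
    exact this
  have hplr : p < r := h1.trans h2
  have hpr' : p.1 < r.1 := hplr
  obtain ⟨w, hw⟩ : ∃ w, w = P.arcPath p r := ⟨_, rfl⟩
  obtain ⟨N, hN⟩ : ∃ N, N = r.1 - p.1 + 1 := ⟨_, rfl⟩
  have hcarr : ∀ z, z ∈ carrier w N ↔ (∃ i : Fin n, p ≤ i ∧ i < r ∧ z ∈ P.edge i) ∨
      z ∈ segment ℝ (P.v p) (P.v r) := by
    intro z; rw [hw, hN]; exact P.mem_carrier_arcPath hplr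
  have hNpos : 0 < N := by omega
  have hclosed : w N = w 0 := by
    rw [hw, hN, (P.arcPath_end hplr).2, P.arcPath_zero hplr]
  have hcar : carrier w N ⊆ P.region := by
    intro z hz
    rcases (hcarr z).1 hz with ⟨i, _, _, hz'⟩ | hz'
    · exact P.boundary_subset_region (P.edge_subset i hz')
    · exact hpr hz'
  -- the two arcs
  obtain ⟨A, hA⟩ : ∃ A : Set ℂ, A = ⋃ l : {l : Fin n // p ≤ l ∧ l < r}, P.edge l.1 := ⟨_, rfl⟩
  have hAmem : ∀ z, z ∈ A ↔ ∃ i : Fin n, p ≤ i ∧ i < r ∧ z ∈ P.edge i := by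
    intro z
    rw [hA, mem_iUnion]
    constructor
    · rintro ⟨⟨l, hl1, hl2⟩, hz⟩; exact ⟨l, hl1, hl2, hz⟩
    · rintro ⟨l, hl1, hl2, hz⟩; exact ⟨⟨l, hl1, hl2⟩, hz⟩
  have hAc : IsClosed A := by rw [hA]; exact isClosed_iUnion_of_finite (fun l => P.isClosed_edge l.1)
  obtain ⟨A', hA'⟩ : ∃ A' : Set ℂ, A' = ⋃ l : {l : Fin n // ¬ (p ≤ l ∧ l < r)}, P.edge l.1 := ⟨_, rfl⟩
  have hA'c : IsClosed A' := by rw [hA']; exact isClosed_iUnion_of_finite (fun l => P.isClosed_edge l.1)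
  -- the chord
  obtain ⟨γ, hγ⟩ : ∃ γ : ℝ → ℂ, γ = fun τ : ℝ => P.v q + (τ : ℂ) * (P.v s - P.v q) := ⟨_, rfl⟩
  have hγc : Continuous γ := by rw [hγ]; fun_prop
  have hγ0 : γ 0 = P.v q := by rw [hγ]; simp
  have hγ1 : γ 1 = P.v s := by rw [hγ]; simp
  have hγseg : ∀ τ, 0 ≤ τ → τ ≤ 1 → γ τ ∈ segment ℝ (P.v q) (P.v s) := by
    intro τ h0 h1; rw [mem_segment_iff']; exact ⟨τ, h0, h1, by rw [hγ]⟩
  obtain ⟨T, hT⟩ : ∃ T : Set ℝ, T = Icc 0 1 ∩ γ ⁻¹' A := ⟨_, rfl⟩
  have hTc : IsCompact T := by rw [hT]; exact isCompact_Icc.inter_right (hAc.preimage hγc)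
  have hTne : T.Nonempty := by
    refine ⟨0, ?_⟩
    rw [hT]
    refine ⟨⟨le_rfl, zero_le_one⟩, ?_⟩
    rw [mem_preimage, hγ0, hAmem]
    exact ⟨q, h1.le, h2, P.left_mem q⟩
  obtain ⟨τ0, hτ0⟩ : ∃ τ0, τ0 = sSup T := ⟨_, rfl⟩
  have hτ0T : τ0 ∈ T := by rw [hτ0]; exact hTc.sSup_mem hTne
  have hafter : ∀ τ, τ0 < τ → τ ≤ 1 → γ τ ∉ A := by
    intro τ h4 h5 h6
    have hτ00 : 0 ≤ τ0 := by rw [hT] at hτ0T; exact hτ0T.1.1
    have : τ ∈ T := by rw [hT]; exact ⟨⟨by linarith, h5⟩, h6⟩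
    have := le_csSup hTc.bddAbove this
    rw [← hτ0] at this
    linarith
  rw [hT] at hτ0T
  obtain ⟨⟨hτ00, hτ01⟩, hτ0A⟩ := hτ0T
  rw [mem_preimage] at hτ0A
  have hs_notA : P.v s ∉ A := by
    rw [hAmem]
    rintro ⟨l, hl1, hl2, hl3⟩
    refine P.v_not_mem_edge (i := s) ?_ ?_ hl3
    · exact (hl2.trans h3).ne
    · intro h
      have e1 := rotate_of_lt hl2
      rw [h] at e1
      have : l.1 < r.1 := hl2
      have : r.1 < s.1 := h3
      omega
  have hτ0lt : τ0 < 1 := by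
    rcases hτ01.lt_or_eq with h | h
    · exact h
    · exfalso; rw [h, hγ1] at hτ0A; exact hs_notA hτ0A
  obtain ⟨t, ht⟩ : ∃ t, t = γ τ0 := ⟨_, rfl⟩
  rw [← ht] at hτ0A
  have htseg : t ∈ segment ℝ (P.v q) (P.v s) := by rw [ht]; exact hγseg τ0 hτ00 hτ01
  have htn := hdisj t htseg
  obtain ⟨i, hi1, hi2, hti⟩ := (hAmem t).1 hτ0A
  have htA' : t ∉ A' := by
    intro h
    rw [hA', mem_iUnion] at h
    obtain ⟨⟨l, hl⟩, htl⟩ := h
    have hil : i ≠ l := by rintro rfl; exact hl ⟨hi1, hi2⟩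
    have hi2' : i.1 < r.1 := hi2
    have hi1' : p.1 ≤ i.1 := hi1
    rcases P.edge_inter hil hti htl with ⟨h4, h5⟩ | ⟨h4, h5⟩
    · have e1 := rotate_of_lt hi2
      rw [← h4] at e1
      have : l = r := by
        apply Fin.ext
        by_contra hne
        exact hl ⟨by rw [Fin.le_def]; omega, by rw [Fin.lt_def]; omega⟩
      rw [h5, this] at htn
      exact htn (right_mem_segment ℝ _ _)
    · have : i = p := by
        apply Fin.ext
        by_contra hne
        rcases Nat.lt_or_ge (l.1 + 1) n with h6 | h6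
        · have e1 := rotate_of_lt (i := l) (r := ⟨l.1 + 1, h6⟩) (by rw [Fin.lt_def]; simp)
          rw [← h4] at e1
          exact hl ⟨by rw [Fin.le_def]; omega, by rw [Fin.lt_def]; omega⟩
        · obtain ⟨m, hm⟩ : ∃ m, n = m + 1 := ⟨n - 1, by have := l.2; omega⟩
          subst hm
          have hlast : l = Fin.last m := Fin.ext (by simp; omega)
          rw [hlast, finRotate_last] at h4
          rw [h4] at hne hi1'
          simp at hi1'
          exact hne (by simp [hi1'])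
      rw [h5, this] at htn
      exact htn (left_mem_segment ℝ _ _)
  -- a ball around `t` avoiding the other arc and the first chord
  have hopen : IsOpen (A' ∪ segment ℝ (P.v p) (P.v r))ᶜ := (hA'c.union (isClosed_segment' _ _)).isOpen_compl
  have htmem : t ∈ (A' ∪ segment ℝ (P.v p) (P.v r))ᶜ := by
    rintro (h | h)
    · exact htA' h
    · exact htn h
  obtain ⟨ρ, hρ, hρsub⟩ := Metric.isOpen_iff.1 hopen t htmem
  have hi1' : p.1 ≤ i.1 := hi1
  have hi2' : i.1 < r.1 := hi2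
  obtain ⟨i', hi'1, hi'2, hi'3⟩ := P.arcPath_lt hplr (k := i.1 - p.1) (by omega)
  have hi'i : i' = i := Fin.ext (by omega)
  rw [hi'i] at hi'2 hi'3
  rw [← hw] at hi'2 hi'3
  obtain ⟨r', hr', hr'ρ, hmain⟩ := P.wind_ne_zero_near hNpos hclosed hcar hρ (by
      intro z hz hzc
      rcases (hcarr z).1 hzc with ⟨l, _, _, hl⟩ | hl
      · exact P.edge_subset l hl
      · exact absurd (Or.inr hl) (hρsub hz)) (j := i.1 - p.1) (by omega) hi'2 hi'3 hti (by
      intro k hk hkj m hm hmk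
      rcases Nat.lt_or_ge k (r.1 - p.1) with h4 | h4
      · obtain ⟨l, hl1, hl2, hl3⟩ := P.arcPath_lt hplr h4
        rw [← hw] at hl2 hl3
        rw [hl2, hl3] at hmk
        exact ⟨l, by rintro rfl; omega, hmk⟩
      · exfalso
        have hk' : k = r.1 - p.1 := by omega
        subst hk'
        rw [hw, (P.arcPath_end hplr).1, (P.arcPath_end hplr).2, segment_symm] at hmk
        exact hρsub hm (Or.inr hmk))
  -- a point on the chord just after `t`
  have hnear : ∀ᶠ τ in 𝓝[>] τ0, γ τ ∈ Metric.ball t r' := by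
    have h4 : Tendsto γ (𝓝[>] τ0) (𝓝 t) := by
      rw [ht]; exact (hγc.tendsto τ0).mono_left nhdsWithin_le_nhds
    exact h4.eventually (Metric.ball_mem_nhds t hr')
  have hlt1 : ∀ᶠ τ in 𝓝[>] τ0, τ < 1 :=
    (eventually_nhdsWithin_of_eventually_nhds (gt_mem_nhds hτ0lt))
  obtain ⟨τ, hτ1, hτ2, hτ3⟩ := (hnear.and (hlt1.and self_mem_nhdsWithin)).exists
  have hτ3' : τ0 < τ := hτ3
  have hτ_not : γ τ ∉ P.boundary := by
    intro hb
    obtain ⟨l, hl⟩ := P.mem_boundary.1 hb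
    by_cases hlr : p ≤ l ∧ l < r
    · exact hafter τ hτ3' hτ2.le ((hAmem _).2 ⟨l, hlr.1, hlr.2, hl⟩)
    · refine hρsub (Metric.ball_subset_ball hr'ρ hτ1) (Or.inl ?_)
      rw [hA']; exact mem_iUnion.2 ⟨⟨l, hlr⟩, hl⟩
  have hτseg := hγseg τ (by linarith) hτ2.le
  have hne := hmain (γ τ) hτ1 hτ_not (hqs hτseg)
  -- the rest of the chord is off the closed polygon
  have hoffc : ∀ τ', τ0 < τ' → τ' ≤ 1 → γ τ' ∉ carrier w N := by
    intro τ' h4 h5 h6
    rcases (hcarr _).1 h6 with h7 | h7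
    · exact hafter τ' h4 h5 ((hAmem _).2 h7)
    · exact hdisj _ (hγseg τ' (by linarith) h5) h7
  have hpre : IsPreconnected (γ '' Ioc τ0 1) := (convex_Ioc τ0 1).isPreconnected.image _ hγc.continuousOn
  have heq := wind_const hNpos hclosed hpre (by
    rintro z ⟨τ', hτ', rfl⟩
    exact hoffc τ' hτ'.1 hτ'.2) (x := γ τ) (y := γ 1) ⟨τ, ⟨hτ3', hτ2.le⟩, rfl⟩ ⟨1, ⟨hτ0lt, le_rfl⟩, rfl⟩
  apply hne
  rw [heq]
  apply P.wind_closure_outer hNpos hclosed hcar _ (hoffc 1 hτ0lt le_rfl)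
  rw [hγ1]
  exact P.boundary_subset_closure_outer (P.edge_subset s (P.left_mem s))

end Pool.Agent.Lib.MP_df76ee_lc.SimplePolygon
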