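import Mathlib

/-!
# The complement of two rays near their common origin
-/

set_option autoImplicit false

namespace Pool.Agent.Lib.MP_df76ee_lc.Geom

open Complex Set

lemma exists_polar (z : ℂ) : ∃ θ : ℝ, 0 ≤ θ ∧ θ < 2 * Real.pi ∧ z = ‖z‖ * exp (θ * I) := by
  rcases le_or_gt 0 (arg z) with h | h
  · exact ⟨arg z, h, by linarith [arg_le_pi z, Real.pi_pos], (norm_mul_exp_arg_mul_I z).symm⟩
  · refine ⟨arg z + 2 * Real.pi, by linarith [neg_pi_lt_arg z], by linarith, ?_⟩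
    push_cast
    rw [add_mul, exp_add, exp_two_pi_mul_I, mul_one, norm_mul_exp_arg_mul_I]

/-- Polar coordinates around `t` with respect to the direction `a`. -/
noncomputable def polar (t a : ℂ) (p : ℝ × ℝ) : ℂ := t + p.1 * exp (p.2 * I) * a

lemma continuous_polar (t a : ℂ) : Continuous (polar t a) := by
  unfold polar; fun_prop

lemma polar_eq_imp {t a : ℂ} (ha : ‖a‖ = 1) {p q : ℝ × ℝ} (hp : 0 < p.1) (hq : 0 ≤ q.1)
    (h : polar t a p = polar t a q) (hlt : |p.2 - q.2| < 2 * Real.pi) : p.2 = q.2 := by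
  unfold polar at h
  have ha0 : a ≠ 0 := by intro h0; rw [h0] at ha; simp at ha
  have h1 : (p.1 : ℂ) * exp (p.2 * I) = q.1 * exp (q.2 * I) := mul_right_cancel₀ ha0 (add_left_cancel h)
  have h2 : p.1 = q.1 := by
    have := congrArg norm h1
    rw [norm_mul, norm_mul, norm_exp_ofReal_mul_I, norm_exp_ofReal_mul_I, mul_one, mul_one,
      norm_real, norm_real, Real.norm_eq_abs, Real.norm_eq_abs, abs_of_pos hp, abs_of_nonneg hq] at this
    exact this
  rw [← h2] at h1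
  have hp0 : (p.1 : ℂ) ≠ 0 := by exact_mod_cast hp.ne'
  have h3 := mul_left_cancel₀ hp0 h1
  rw [exp_eq_exp_iff_exists_int] at h3
  obtain ⟨n, hn⟩ := h3
  have h4 : p.2 = q.2 + n * (2 * Real.pi) := by
    have h5 : (p.2 : ℂ) * I = (q.2 + n * (2 * Real.pi)) * I := by rw [hn]; ring
    have h6 := mul_right_cancel₀ I_ne_zero h5
    exact_mod_cast h6
  have h5 : |(n : ℝ)| * (2 * Real.pi) < 2 * Real.pi := by
    have : p.2 - q.2 = n * (2 * Real.pi) := by linarith
    rw [this, abs_mul, abs_of_pos (by positivity : (0 : ℝ) < 2 * Real.pi)] at hlt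
    exact hlt
  have h6 : |(n : ℝ)| < 1 := by
    by_contra hcon
    push Not at hcon
    have := mul_le_mul_of_nonneg_right hcon (by positivity : (0 : ℝ) ≤ 2 * Real.pi)
    linarith
  have h7 : n = 0 := by
    have : |n| < 1 := by exact_mod_cast h6
    exact Int.abs_lt_one_iff.1 this
  rw [h7] at h4
  simpa using h4

lemma norm_polar_sub {t a : ℂ} (ha : ‖a‖ = 1) {p : ℝ × ℝ} (hp : 0 ≤ p.1) : ‖polar t a p - t‖ = p.1 := by
  unfold polar
  rw [add_sub_cancel_left, norm_mul, norm_mul, norm_exp_ofReal_mul_I, ha, mul_one, mul_one, norm_real,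
    Real.norm_eq_abs, abs_of_nonneg hp]

/-- Near the common origin of two rays, the complement of their union consists of two connected
pieces, each of which has both rays in its closure. -/
theorem local_structure (t a b : ℂ) (ha : ‖a‖ = 1) (hb : ‖b‖ = 1) (hab : a ≠ b) (K : Set ℂ) (r : ℝ)
    (hr : 0 < r)
    (hK : ∀ z, ‖z - t‖ < r → (z ∈ K ↔ ∃ x : ℝ, 0 ≤ x ∧ (z = t + x * a ∨ z = t + x * b))) :
    ∃ S₁ S₂ : Set ℂ, IsPreconnected S₁ ∧ IsPreconnected S₂ ∧ S₁ ⊆ Metric.ball t r \ K ∧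
      S₂ ⊆ Metric.ball t r \ K ∧ Metric.ball t r \ K ⊆ S₁ ∪ S₂ ∧
      Metric.ball t r ∩ K ⊆ closure S₁ ∧ Metric.ball t r ∩ K ⊆ closure S₂ := by
  have ha0 : a ≠ 0 := by intro h0; rw [h0] at ha; simp at ha
  obtain ⟨β, hβ0, hβ2, hβ⟩ := exists_polar (b / a)
  have hnorm : ‖b / a‖ = 1 := by rw [norm_div, ha, hb, div_one]
  rw [hnorm, ofReal_one, one_mul] at hβ
  have hb' : b = exp (β * I) * a := by rw [← hβ]; field_simp
  have hβpos : 0 < β := by
    rcases hβ0.lt_or_eq with h | h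
    · exact h
    · exfalso; apply hab; rw [hb', ← h]; simp
  have hKpol : ∀ p : ℝ × ℝ, 0 < p.1 → p.1 < r → 0 < p.2 → p.2 < 2 * Real.pi → p.2 ≠ β →
      polar t a p ∈ Metric.ball t r \ K := by
    intro p h1 h2 h3 h4 h5
    have h6 := norm_polar_sub (t := t) ha h1.le
    refine ⟨by rw [Metric.mem_ball, dist_eq_norm, h6]; exact h2, ?_⟩
    rw [hK _ (by rw [h6]; exact h2)]
    rintro ⟨x, hx, h | h⟩
    · have : polar t a p = polar t a (x, 0) := by rw [h]; unfold polar; simp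
      have := polar_eq_imp ha h1 hx this (by simp only [sub_zero]; rw [abs_of_pos h3]; exact h4)
      simp only at this; linarith
    · have : polar t a p = polar t a (x, β) := by rw [h, hb']; unfold polar; simp only; ring
      have := polar_eq_imp ha h1 hx this (by simp only; rw [abs_lt]; constructor <;> linarith)
      exact h5 this
  have hex : ∀ z, z ∈ Metric.ball t r → ∃ p : ℝ × ℝ, 0 ≤ p.1 ∧ p.1 < r ∧ 0 ≤ p.2 ∧ p.2 < 2 * Real.pi ∧
      z = polar t a p := by
    intro z hz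
    obtain ⟨θ, h0, h1, h2⟩ := exists_polar ((z - t) / a)
    refine ⟨(‖(z - t) / a‖, θ), norm_nonneg _, ?_, h0, h1, ?_⟩
    · simp only; rw [norm_div, ha, div_one, ← dist_eq_norm]; exact hz
    · unfold polar
      simp only
      rw [← h2]; field_simp; ring
  refine ⟨polar t a '' (Ioo 0 r ×ˢ Ioo 0 β), polar t a '' (Ioo 0 r ×ˢ Ioo β (2 * Real.pi)), ?_, ?_, ?_, ?_, ?_, ?_, ?_⟩
  · exact (((convex_Ioo 0 r).prod (convex_Ioo 0 β)).isPreconnected).image _ (continuous_polar t a).continuousOn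
  · exact (((convex_Ioo 0 r).prod (convex_Ioo β (2 * Real.pi))).isPreconnected).image _ (continuous_polar t a).continuousOn
  · rintro _ ⟨p, ⟨h1, h2⟩, rfl⟩
    exact hKpol p h1.1 h1.2 h2.1 (by linarith [h2.2]) h2.2.ne
  · rintro _ ⟨p, ⟨h1, h2⟩, rfl⟩
    exact hKpol p h1.1 h1.2 (by linarith [h2.1]) h2.2 h2.1.ne'
  · rintro z ⟨hz, hzK⟩
    obtain ⟨p, h1, h2, h3, h4, rfl⟩ := hex z hz
    have hpn := norm_polar_sub (t := t) ha h1
    rw [hK _ (by rw [hpn]; exact h2)] at hzK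
    push Not at hzK
    have hp1 : 0 < p.1 := by
      rcases h1.lt_or_eq with h | h
      · exact h
      · exfalso
        exact (hzK 0 le_rfl).1 (by unfold polar; rw [← h]; simp)
    have hp2 : 0 < p.2 := by
      rcases h3.lt_or_eq with h | h
      · exact h
      · exfalso
        exact (hzK p.1 h1).1 (by unfold polar; rw [← h]; simp)
    have hp3 : p.2 ≠ β := by
      intro h
      exact (hzK p.1 h1).2 (by unfold polar; rw [h, hb']; ring)
    rcases lt_or_gt_of_ne hp3 with h | h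
    · left; exact ⟨p, ⟨⟨hp1, h2⟩, ⟨hp2, h⟩⟩, rfl⟩
    · right; exact ⟨p, ⟨⟨hp1, h2⟩, ⟨h, h4⟩⟩, rfl⟩
  · rintro z ⟨hz, hzK⟩
    rw [Metric.mem_ball, dist_eq_norm] at hz
    rw [hK _ hz] at hzK
    apply image_closure_subset_closure_image (continuous_polar t a)
    rw [closure_prod_eq, closure_Ioo hr.ne, closure_Ioo hβpos.ne]
    obtain ⟨x, hx, h | h⟩ := hzK
    · refine ⟨(x, 0), ⟨⟨hx, ?_⟩, ⟨le_rfl, hβpos.le⟩⟩, by rw [h]; unfold polar; simp⟩
      rw [h, add_sub_cancel_left, norm_mul, ha, mul_one, norm_real, Real.norm_eq_abs, abs_of_nonneg hx] at hz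
      exact hz.le
    · refine ⟨(x, β), ⟨⟨hx, ?_⟩, ⟨hβpos.le, le_rfl⟩⟩, by rw [h, hb']; unfold polar; ring⟩
      rw [h, add_sub_cancel_left, norm_mul, hb, mul_one, norm_real, Real.norm_eq_abs, abs_of_nonneg hx] at hz
      exact hz.le
  · rintro z ⟨hz, hzK⟩
    rw [Metric.mem_ball, dist_eq_norm] at hz
    rw [hK _ hz] at hzK
    apply image_closure_subset_closure_image (continuous_polar t a)
    rw [closure_prod_eq, closure_Ioo hr.ne, closure_Ioo hβ2.ne]
    obtain ⟨x, hx, h | h⟩ := hzK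
    · refine ⟨(x, 2 * Real.pi), ⟨⟨hx, ?_⟩, ⟨hβ2.le, le_rfl⟩⟩, ?_⟩
      · rw [h, add_sub_cancel_left, norm_mul, ha, mul_one, norm_real, Real.norm_eq_abs, abs_of_nonneg hx] at hz
        exact hz.le
      · rw [h]; unfold polar; simp only; push_cast; rw [exp_two_pi_mul_I, mul_one]
    · refine ⟨(x, β), ⟨⟨hx, ?_⟩, ⟨le_rfl, hβ2.le⟩⟩, by rw [h, hb']; unfold polar; ring⟩
      rw [h, add_sub_cancel_left, norm_mul, hb, mul_one, norm_real, Real.norm_eq_abs, abs_of_nonneg hx] at hz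
      exact hz.le

end Pool.Agent.Lib.MP_df76ee_lc.Geom
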