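import Mathlib

/-!
# Total turning (winding) of a closed polygon around a point
-/

set_option autoImplicit false

namespace Pool.Agent.Lib.MP_df76ee_lc.Geom

open Complex Set Filter Topology

/-- The angle under which the segment from `a` to `b` is seen from `z`. -/
noncomputable def ang (a b z : ℂ) : ℝ := arg ((b - z) / (a - z))

lemma quot_mem_slitPlane {a b z : ℂ} (h : z ∉ segment ℝ a b) : (b - z) / (a - z) ∈ slitPlane := by
  by_contra hcon
  rw [mem_slitPlane_iff] at hcon
  push Not at hcon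
  obtain ⟨hre, him⟩ := hcon
  apply h
  have haz : a - z ≠ 0 := by
    intro h0
    apply h
    have : z = a := (sub_eq_zero.1 h0).symm
    rw [this]; exact left_mem_segment ℝ a b
  obtain ⟨c, hc⟩ : ∃ c : ℝ, c = -((b - z) / (a - z)).re := ⟨_, rfl⟩
  have hc0 : 0 ≤ c := by rw [hc]; linarith
  have hq : (b - z) / (a - z) = -(c : ℂ) := by
    apply Complex.ext
    · simp [hc]
    · simp [him]
  rw [div_eq_iff haz] at hq
  have h1c : (1 + c : ℝ) ≠ 0 := by positivity
  have h1c' : (1 + c : ℂ) ≠ 0 := by exact_mod_cast h1c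
  refine ⟨c / (1 + c), 1 / (1 + c), by positivity, by positivity, by field_simp; ring, ?_⟩
  rw [real_smul, real_smul]
  push_cast
  have : z * (1 + c) = c * a + b := by linear_combination -hq
  field_simp
  rw [← this]; ring

lemma continuousAt_ang {a b z : ℂ} (h : z ∉ segment ℝ a b) : ContinuousAt (ang a b) z := by
  unfold ang
  have haz : a - z ≠ 0 := by
    intro h0
    apply h
    have : z = a := (sub_eq_zero.1 h0).symm
    rw [this]; exact left_mem_segment ℝ a b
  exact ContinuousAt.comp (f := fun z => (b - z) / (a - z)) (continuousAt_arg (quot_mem_slitPlane h))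
    (ContinuousAt.div (by fun_prop) (by fun_prop) haz)

lemma tendsto_ang (a b : ℂ) : Tendsto (ang a b) (Bornology.cobounded ℂ) (𝓝 0) := by
  have h1 : Tendsto (fun z : ℂ => (b - z) / (a - z)) (Bornology.cobounded ℂ) (𝓝 1) := by
    have h2 : Tendsto (fun z : ℂ => 1 + (b - a) * (a - z)⁻¹) (Bornology.cobounded ℂ) (𝓝 (1 + (b - a) * 0)) := by
      apply Tendsto.const_add
      apply Tendsto.const_mul
      apply tendsto_inv₀_cobounded.comp
      simp
    rw [mul_zero, add_zero] at h2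
    apply h2.congr'
    have : ∀ᶠ z : ℂ in Bornology.cobounded ℂ, z ≠ a := by
      have h5 : ({a} : Set ℂ)ᶜ ∈ Bornology.cobounded ℂ := Bornology.isBounded_def.1 Bornology.isBounded_singleton
      filter_upwards [h5] with z hz using hz
    filter_upwards [this] with z hz
    have : a - z ≠ 0 := sub_ne_zero.2 (Ne.symm hz)
    field_simp; ring
  have h3 : ContinuousAt arg 1 := continuousAt_arg (by simp)
  have h4 := h3.tendsto.comp h1
  rw [arg_one] at h4
  exact h4

/-- The total turning of the closed polygon `w 0, w 1, …, w N` around `z`. -/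
noncomputable def wind (w : ℕ → ℂ) (N : ℕ) (z : ℂ) : ℝ := ∑ k ∈ Finset.range N, ang (w k) (w (k + 1)) z

/-- The carrier of a polygonal path. -/
def carrier (w : ℕ → ℂ) (N : ℕ) : Set ℂ := {z | ∃ k < N, z ∈ segment ℝ (w k) (w (k + 1))}

lemma isClosed_segment' (a b : ℂ) : IsClosed (segment ℝ a b) := by
  rw [← convexHull_pair]
  exact ((Set.toFinite ({a, b} : Set ℂ)).isCompact_convexHull ℝ).isClosed

lemma isCompact_segment' (a b : ℂ) : IsCompact (segment ℝ a b) := by
  rw [← convexHull_pair]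
  exact (Set.toFinite ({a, b} : Set ℂ)).isCompact_convexHull ℝ

lemma continuousAt_wind {w : ℕ → ℂ} {N : ℕ} {z : ℂ} (h : z ∉ carrier w N) :
    ContinuousAt (wind w N) z := by
  unfold wind
  apply tendsto_finsetSum
  intro k hk
  exact continuousAt_ang (fun hz => h ⟨k, Finset.mem_range.1 hk, hz⟩)

lemma tendsto_wind (w : ℕ → ℂ) (N : ℕ) : Tendsto (wind w N) (Bornology.cobounded ℂ) (𝓝 0) := by
  have : Tendsto (fun z => ∑ k ∈ Finset.range N, ang (w k) (w (k + 1)) z) (Bornology.cobounded ℂ)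
      (𝓝 (∑ k ∈ Finset.range N, (0 : ℝ))) := tendsto_finsetSum _ (fun k _ => tendsto_ang _ _)
  rw [Finset.sum_const_zero] at this
  exact this

lemma exp_ang {a b z : ℂ} (haz : a ≠ z) :
    exp (ang a b z * I) * (a - z) * ‖b - z‖ = (b - z) * ‖a - z‖ := by
  have h1 : a - z ≠ 0 := sub_ne_zero.2 haz
  have h2 := norm_mul_exp_arg_mul_I ((b - z) / (a - z))
  have h3 : (‖a - z‖ : ℂ) ≠ 0 := by exact_mod_cast (norm_ne_zero_iff.2 h1)
  unfold ang
  rw [norm_div] at h2
  push_cast at h2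
  field_simp at h2
  linear_combination h2

lemma exp_wind_partial {w : ℕ → ℂ} {N : ℕ} {z : ℂ} (h : z ∉ carrier w N) (n : ℕ) (hn : n ≤ N) :
    exp ((wind w n z : ℝ) * I) * (w 0 - z) * ‖w n - z‖ = (w n - z) * ‖w 0 - z‖ := by
  induction n with
  | zero => unfold wind; simp
  | succ n ih =>
    have ih' := ih (by omega)
    have hwn : w n ≠ z := by
      intro h0
      exact h ⟨n, by omega, by rw [← h0]; exact left_mem_segment ℝ _ _⟩
    have h1 := exp_ang (b := w (n + 1)) hwn
    have h2 : wind w (n + 1) z = wind w n z + ang (w n) (w (n + 1)) z := by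
      unfold wind; rw [Finset.sum_range_succ]
    rw [h2]
    push_cast
    rw [add_mul, exp_add]
    have h3 : w n - z ≠ 0 := sub_ne_zero.2 hwn
    have h4 : (‖w n - z‖ : ℂ) ≠ 0 := by exact_mod_cast (norm_ne_zero_iff.2 h3)
    apply mul_left_cancel₀ (mul_ne_zero h3 h4)
    linear_combination (exp ((ang (w n) (w (n + 1)) z : ℝ) * I) * (w n - z) * ‖w (n + 1) - z‖) * ih' + ((w n - z) * ‖w 0 - z‖) * h1

lemma exp_wind {w : ℕ → ℂ} {N : ℕ} (hN : 0 < N) (hcl : w N = w 0) {z : ℂ} (h : z ∉ carrier w N) :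
    exp ((wind w N z : ℝ) * I) = 1 := by
  have h1 := exp_wind_partial h N le_rfl
  rw [hcl] at h1
  have hw0 : w 0 ≠ z := by
    intro h0
    exact h ⟨0, hN, by rw [← h0]; exact left_mem_segment ℝ _ _⟩
  have h3 : w 0 - z ≠ 0 := sub_ne_zero.2 hw0
  have h4 : (‖w 0 - z‖ : ℂ) ≠ 0 := by exact_mod_cast (norm_ne_zero_iff.2 h3)
  apply mul_right_cancel₀ (mul_ne_zero h3 h4)
  linear_combination h1

lemma wind_int {w : ℕ → ℂ} {N : ℕ} (hN : 0 < N) (hcl : w N = w 0) {z : ℂ} (h : z ∉ carrier w N) :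
    ∃ k : ℤ, wind w N z = k * (2 * Real.pi) := by
  have h1 := exp_wind hN hcl h
  rw [exp_eq_one_iff] at h1
  obtain ⟨n, hn⟩ := h1
  refine ⟨n, ?_⟩
  have h2 : (wind w N z : ℂ) * I = (n * (2 * Real.pi)) * I := by rw [hn]; ring
  have h3 := mul_right_cancel₀ I_ne_zero h2
  exact_mod_cast h3

/-- The turning is constant on connected sets off the polygon. -/
lemma wind_const {w : ℕ → ℂ} {N : ℕ} (hN : 0 < N) (hcl : w N = w 0) {S : Set ℂ}
    (hS : IsPreconnected S) (hd : ∀ z ∈ S, z ∉ carrier w N) {x y : ℂ} (hx : x ∈ S) (hy : y ∈ S) :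
    wind w N x = wind w N y := by
  have key : ∀ x ∈ S, ∀ y ∈ S, ¬ wind w N x < wind w N y := by
    intro x hx y hy hlt
    obtain ⟨k, hk⟩ := wind_int hN hcl (hd x hx)
    obtain ⟨l, hl⟩ := wind_int hN hcl (hd y hy)
    have hpi := Real.pi_pos
    have hkl : k < l := by
      rw [hk, hl] at hlt
      have : (k : ℝ) < l := lt_of_mul_lt_mul_right hlt (by positivity)
      exact_mod_cast this
    have hc : ContinuousOn (wind w N) S := fun z hz => (continuousAt_wind (hd z hz)).continuousWithinAt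
    have hivt := hS.intermediate_value hx hy hc
    have hkl' : (k : ℝ) + 1 ≤ l := by exact_mod_cast hkl
    have hmem : (k : ℝ) * (2 * Real.pi) + Real.pi ∈ Icc (wind w N x) (wind w N y) := by
      rw [hk, hl]; constructor <;> nlinarith
    obtain ⟨z, hz, hzeq⟩ := hivt hmem
    obtain ⟨j, hj⟩ := wind_int hN hcl (hd z hz)
    rw [hj] at hzeq
    have h1 : (2 * (j : ℝ)) = 2 * k + 1 := by
      have : (2 * (j : ℝ)) * Real.pi = (2 * k + 1) * Real.pi := by linarith
      exact mul_right_cancel₀ hpi.ne' this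
    have h2 : 2 * j = 2 * k + 1 := by exact_mod_cast h1
    omega
  rcases lt_trichotomy (wind w N x) (wind w N y) with h | h | h
  · exact absurd h (key x hx y hy)
  · exact h
  · exact absurd h (key y hy x hx)

lemma wind_eq_zero_of_unbounded {w : ℕ → ℂ} {N : ℕ} (hN : 0 < N) (hcl : w N = w 0) {S : Set ℂ}
    (hS : IsPreconnected S) (hd : ∀ z ∈ S, z ∉ carrier w N) (hb : ¬ Bornology.IsBounded S) {x : ℂ}
    (hx : x ∈ S) : wind w N x = 0 := by
  have hpi := Real.pi_pos
  have h1 : ∀ᶠ z in Bornology.cobounded ℂ, |wind w N z| < 1 := by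
    have := (tendsto_wind w N).eventually (Metric.ball_mem_nhds (0 : ℝ) one_pos)
    filter_upwards [this] with z hz
    simpa [Real.dist_eq] using hz
  have h2 : ∃ y ∈ S, |wind w N y| < 1 := by
    by_contra hcon
    push Not at hcon
    apply hb
    rw [← Bornology.isCobounded_compl_iff]
    apply Filter.mem_of_superset h1
    intro z hz hzS
    exact absurd (hcon z hzS) (not_le.2 hz)
  obtain ⟨y, hy, hy1⟩ := h2
  rw [wind_const hN hcl hS hd hx hy]
  obtain ⟨k, hk⟩ := wind_int hN hcl (hd y hy)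
  rw [hk] at hy1 ⊢
  rw [abs_mul, abs_of_pos (by positivity : (0 : ℝ) < 2 * Real.pi)] at hy1
  have h3 : |(k : ℝ)| < 1 := by
    by_contra hcon
    push Not at hcon
    have := mul_le_mul_of_nonneg_right hcon (by positivity : (0 : ℝ) ≤ 2 * Real.pi)
    linarith [Real.pi_gt_three]
  have h4 : k = 0 := by
    have : |k| < 1 := by exact_mod_cast h3
    exact Int.abs_lt_one_iff.1 this
  rw [h4]; simp


lemma ang_side {a b : ℂ} {s ε : ℝ} (hab : a ≠ b) (hs0 : 0 < s) (hε : 0 < ε)
    (hε2 : ε ^ 2 < s * (1 - s)) :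
    Real.pi / 2 < ang a b (a + s * (b - a) + ε * I * (b - a)) ∧
      ang a b (a + s * (b - a) - ε * I * (b - a)) < -(Real.pi / 2) := by
  have hd : b - a ≠ 0 := sub_ne_zero.2 hab.symm
  have hden : (0 : ℝ) < s ^ 2 + ε ^ 2 := by positivity
  have hden' : ((s : ℂ) ^ 2 + (ε : ℂ) ^ 2) ≠ 0 := by exact_mod_cast hden.ne'
  have key : ∀ σ : ℝ, σ ^ 2 = ε ^ 2 → (b - (a + s * (b - a) + σ * I * (b - a))) / (a - (a + s * (b - a) + σ * I * (b - a))) =
      (((-(s * (1 - s)) + σ ^ 2) / (s ^ 2 + ε ^ 2) : ℝ) : ℂ) + ((σ / (s ^ 2 + ε ^ 2) : ℝ) : ℂ) * I := by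
    intro σ hσ
    have hσ' : (σ : ℂ) ^ 2 = (ε : ℂ) ^ 2 := by exact_mod_cast hσ
    have h1 : a - (a + s * (b - a) + σ * I * (b - a)) = (b - a) * (-(s + σ * I)) := by ring
    have h2 : b - (a + s * (b - a) + σ * I * (b - a)) = (b - a) * ((1 - s) - σ * I) := by ring
    have h3 : (-(s + σ * I) : ℂ) ≠ 0 := by
      intro h0
      have := congrArg Complex.re h0
      simp at this
      exact hs0.ne' this
    rw [h1, h2, mul_div_mul_left _ _ hd, div_eq_iff h3]
    push_cast
    field_simp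
    have hI : I ^ 2 = -1 := I_sq
    linear_combination ((s : ℂ) + σ * I - 1) * hσ' + (σ : ℂ) ^ 2 * hI
  constructor
  · unfold ang
    rw [key ε rfl]
    obtain ⟨q, hq⟩ : ∃ q : ℂ, q = (((-(s * (1 - s)) + ε ^ 2) / (s ^ 2 + ε ^ 2) : ℝ) : ℂ) + ((ε / (s ^ 2 + ε ^ 2) : ℝ) : ℂ) * I := ⟨_, rfl⟩
    rw [← hq]
    have hre : q.re < 0 := by
      rw [hq]; simp only [add_re, ofReal_re, mul_re, I_re, mul_zero, ofReal_im, I_im, mul_one, sub_self, add_zero]
      exact div_neg_of_neg_of_pos (by linarith) hden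
    have him : 0 < q.im := by
      rw [hq]; simp only [add_im, ofReal_im, mul_im, ofReal_re, I_im, mul_one, I_re, mul_zero, add_zero, zero_add]
      positivity
    have h1 : ¬ |arg q| ≤ Real.pi / 2 := by
      rw [abs_arg_le_pi_div_two_iff]; linarith
    have h2 : 0 ≤ arg q := arg_nonneg_iff.2 him.le
    rw [abs_of_nonneg h2] at h1
    linarith
  · unfold ang
    have e1 : a + s * (b - a) - ε * I * (b - a) = a + s * (b - a) + ((-ε : ℝ) : ℂ) * I * (b - a) := by push_cast; ring
    rw [e1, key (-ε) (by ring)]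
    obtain ⟨q, hq⟩ : ∃ q : ℂ, q = (((-(s * (1 - s)) + (-ε) ^ 2) / (s ^ 2 + ε ^ 2) : ℝ) : ℂ) + ((-ε / (s ^ 2 + ε ^ 2) : ℝ) : ℂ) * I := ⟨_, rfl⟩
    rw [← hq]
    have hre : q.re < 0 := by
      rw [hq]; simp only [add_re, ofReal_re, mul_re, I_re, mul_zero, ofReal_im, I_im, mul_one, sub_self, add_zero]
      exact div_neg_of_neg_of_pos (by nlinarith) hden
    have him : q.im < 0 := by
      rw [hq]; simp only [add_im, ofReal_im, mul_im, ofReal_re, I_im, mul_one, I_re, mul_zero, add_zero, zero_add]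
      exact div_neg_of_neg_of_pos (by linarith) hden
    have h1 : ¬ |arg q| ≤ Real.pi / 2 := by
      rw [abs_arg_le_pi_div_two_iff]; linarith
    have h2 : arg q < 0 := arg_neg_iff.2 him
    rw [abs_of_neg h2] at h1
    linarith

/-- Crossing an edge of a closed polygon changes the turning. -/
theorem wind_jump {w : ℕ → ℂ} {N j : ℕ} (hj : j < N) {m : ℂ} {s : ℝ} (hs0 : 0 < s) (hs1 : s < 1)
    (hm : m = w j + s * (w (j + 1) - w j)) (hne : w j ≠ w (j + 1))
    (hother : ∀ k < N, k ≠ j → m ∉ segment ℝ (w k) (w (k + 1))) :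
    ∀ᶠ ε : ℝ in 𝓝[>] 0, wind w N (m + ε * I * (w (j + 1) - w j)) ≠
      wind w N (m - ε * I * (w (j + 1) - w j)) := by
  obtain ⟨F, hF⟩ : ∃ F : ℂ → ℝ, F = fun z => ∑ k ∈ (Finset.range N).erase j, ang (w k) (w (k + 1)) z := ⟨_, rfl⟩
  have hsplit : ∀ z, wind w N z = ang (w j) (w (j + 1)) z + F z := by
    intro z
    rw [hF]; unfold wind
    exact (Finset.add_sum_erase _ _ (Finset.mem_range.2 hj)).symm
  have hFc : ContinuousAt F m := by
    rw [hF]
    apply tendsto_finsetSum
    intro k hk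
    rw [Finset.mem_erase, Finset.mem_range] at hk
    exact continuousAt_ang (hother k hk.2 hk.1)
  have hpi := Real.pi_pos
  have hball : ∀ᶠ z in 𝓝 m, |F z - F m| < Real.pi / 2 := by
    have := hFc.tendsto.eventually (Metric.ball_mem_nhds (F m) (by positivity : 0 < Real.pi / 2))
    filter_upwards [this] with z hz
    simpa [Real.dist_eq] using hz
  have ht1 : Tendsto (fun ε : ℝ => m + ε * I * (w (j + 1) - w j)) (𝓝[>] 0) (𝓝 m) := by
    have : Continuous (fun ε : ℝ => m + ε * I * (w (j + 1) - w j)) := by fun_prop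
    have h := this.tendsto 0
    simp only [ofReal_zero, zero_mul, add_zero] at h
    exact h.mono_left nhdsWithin_le_nhds
  have ht2 : Tendsto (fun ε : ℝ => m - ε * I * (w (j + 1) - w j)) (𝓝[>] 0) (𝓝 m) := by
    have : Continuous (fun ε : ℝ => m - ε * I * (w (j + 1) - w j)) := by fun_prop
    have h := this.tendsto 0
    simp only [ofReal_zero, zero_mul, sub_zero] at h
    exact h.mono_left nhdsWithin_le_nhds
  have hsmall : ∀ᶠ ε : ℝ in 𝓝[>] 0, ε ^ 2 < s * (1 - s) := by
    have : Continuous (fun ε : ℝ => ε ^ 2) := by fun_prop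
    have h := this.tendsto 0
    have h2 := (h.mono_left (nhdsWithin_le_nhds (s := Ioi 0))).eventually (gt_mem_nhds (show (0 : ℝ) ^ 2 < s * (1 - s) by
      have := mul_pos hs0 (sub_pos.2 hs1); simpa using this))
    exact h2
  filter_upwards [ht1.eventually hball, ht2.eventually hball, hsmall, self_mem_nhdsWithin] with ε h1 h2 h3 h4 heq
  have h5 := ang_side hne hs0 h4 h3
  rw [hsplit, hsplit, hm] at heq
  rw [hm] at h1 h2
  rw [abs_lt] at h1 h2
  linarith [h5.1, h5.2, h1.1, h1.2, h2.1, h2.2]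

end Pool.Agent.Lib.MP_df76ee_lc.Geom
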