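import Pool.Agent.Lib.MP_df76ee_lc.Defs
import Pool.Agent.Lib.MP_df76ee_lc.GeomLocal
import Pool.Agent.Lib.MP_df76ee_lc.GeomWind

/-!
# The outer region of a simple polygon accumulates at every boundary point
-/

set_option autoImplicit false

namespace Pool.Agent.Lib.MP_df76ee_lc.SimplePolygon

open Complex Set Filter Topology Geom

variable {n : ℕ} (P : SimplePolygon n)

/-- The edge starting at vertex `i`. -/
def edge (i : Fin n) : Set ℂ := segment ℝ (P.v i) (P.v (finRotate n i))

lemma edge_subset (i : Fin n) : P.edge i ⊆ P.boundary := by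
  intro z hz
  exact mem_iUnion.2 ⟨i, hz⟩

lemma mem_boundary {z : ℂ} : z ∈ P.boundary ↔ ∃ i, z ∈ P.edge i := mem_iUnion

lemma left_mem (i : Fin n) : P.v i ∈ P.edge i := left_mem_segment ℝ _ _

lemma right_mem (i : Fin n) : P.v (finRotate n i) ∈ P.edge i := right_mem_segment ℝ _ _

lemma isCompact_edge (i : Fin n) : IsCompact (P.edge i) := isCompact_segment' _ _

lemma isClosed_edge (i : Fin n) : IsClosed (P.edge i) := isClosed_segment' _ _

lemma isCompact_boundary : IsCompact P.boundary := isCompact_iUnion (fun i => P.isCompact_edge i)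

lemma isClosed_boundary : IsClosed P.boundary := P.isCompact_boundary.isClosed

lemma edge_inter {j k : Fin n} (hjk : j ≠ k) {t : ℂ} (hj : t ∈ P.edge j) (hk : t ∈ P.edge k) :
    (k = finRotate n j ∧ t = P.v k) ∨ (j = finRotate n k ∧ t = P.v j) := by
  by_cases h1 : k = finRotate n j
  · left
    refine ⟨h1, ?_⟩
    subst h1
    have := P.near j
    have h2 : t ∈ segment ℝ (P.v j) (P.v (finRotate n j)) ∩
      segment ℝ (P.v (finRotate n j)) (P.v (finRotate n (finRotate n j))) := ⟨hj, hk⟩
    rw [this] at h2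
    exact h2
  · by_cases h2 : j = finRotate n k
    · right
      refine ⟨h2, ?_⟩
      subst h2
      have := P.near k
      have h2 : t ∈ segment ℝ (P.v k) (P.v (finRotate n k)) ∩
        segment ℝ (P.v (finRotate n k)) (P.v (finRotate n (finRotate n k))) := ⟨hk, hj⟩
      rw [this] at h2
      exact h2
    · exact absurd hk (Set.disjoint_left.1 (P.far j k (Ne.symm hjk) h1 h2) hj)

include P in
lemma rotate_ne (i : Fin n) : finRotate n i ≠ i := by
  have h3 := P.three_le
  obtain ⟨m, rfl⟩ : ∃ m, n = m + 1 := ⟨n - 1, by omega⟩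
  intro h
  rcases Nat.lt_or_ge i.1 m with h1 | h1
  · have := finRotate_of_lt h1
    have h2 : finRotate (m + 1) i = ⟨i.1 + 1, by omega⟩ := this
    rw [h2] at h
    have := congrArg Fin.val h
    simp at this
  · have hi : i = Fin.last m := Fin.ext (by simp; omega)
    rw [hi, finRotate_last] at h
    have := congrArg Fin.val h
    simp at this
    omega

lemma v_ne (i : Fin n) : P.v i ≠ P.v (finRotate n i) := fun h => P.rotate_ne i (P.inj h).symm

/-- The outer region. -/
def outer : Set ℂ := {z | z ∉ P.boundary ∧ ¬ Bornology.IsBounded (connectedComponentIn P.boundaryᶜ z)}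

lemma compl_region : P.regionᶜ = P.outer := by
  ext z
  unfold region outer
  simp only [mem_compl_iff, mem_ofPred_eq, not_or]

lemma not_mem_region {z : ℂ} : z ∉ P.region ↔ z ∈ P.outer := by
  rw [← compl_region]; rfl

lemma boundary_subset_region : P.boundary ⊆ P.region := fun _ hz => Or.inl hz

lemma mem_outer_of_joined {S : Set ℂ} (hS : IsPreconnected S) (hSd : S ⊆ P.boundaryᶜ) {x y : ℂ}
    (hx : x ∈ S) (hy : y ∈ S) (hxo : x ∈ P.outer) : y ∈ P.outer := by
  refine ⟨hSd hy, ?_⟩
  have h1 : y ∈ connectedComponentIn P.boundaryᶜ x := hS.subset_connectedComponentIn hx hSd hy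
  rw [← connectedComponentIn_eq h1]
  exact hxo.2

lemma component_subset_outer {z : ℂ} (hz : z ∈ P.outer) : connectedComponentIn P.boundaryᶜ z ⊆ P.outer := by
  intro y hy
  exact P.mem_outer_of_joined isPreconnected_connectedComponentIn (connectedComponentIn_subset _ _)
    (mem_connectedComponentIn hz.1) hy hz

lemma isOpen_outer : IsOpen P.outer := by
  rw [isOpen_iff_mem_nhds]
  intro z hz
  have h1 : IsOpen (connectedComponentIn P.boundaryᶜ z) := P.isClosed_boundary.isOpen_compl.connectedComponentIn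
  exact Filter.mem_of_superset (h1.mem_nhds (mem_connectedComponentIn hz.1)) (P.component_subset_outer hz)

lemma closure_outer_sdiff : closure P.outer ∩ P.boundaryᶜ ⊆ P.outer := by
  rintro z ⟨hz, hzb⟩
  have h1 : IsOpen (connectedComponentIn P.boundaryᶜ z) := P.isClosed_boundary.isOpen_compl.connectedComponentIn
  have h2 := mem_closure_iff.1 hz _ h1 (mem_connectedComponentIn hzb)
  obtain ⟨y, hy1, hy2⟩ := h2
  exact P.mem_outer_of_joined isPreconnected_connectedComponentIn (connectedComponentIn_subset _ _) hy1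
    (mem_connectedComponentIn hzb) hy2

lemma outer_nonempty : P.outer.Nonempty := by
  obtain ⟨M, hM⟩ := P.isCompact_boundary.isBounded.subset_ball_lt 0 0
  obtain ⟨hM0, hM1⟩ := hM
  refine ⟨(M : ℂ), ?_, ?_⟩
  · intro h
    have := hM1 h
    rw [mem_ball_zero_iff, norm_real, Real.norm_eq_abs, abs_of_pos hM0] at this
    exact lt_irrefl _ this
  · intro hb
    have hS : IsPreconnected ((fun x : ℝ => (x : ℂ)) '' Ici M) :=
      (convex_Ici M).isPreconnected.image _ continuous_ofReal.continuousOn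
    have hsub : ((fun x : ℝ => (x : ℂ)) '' Ici M) ⊆ P.boundaryᶜ := by
      rintro _ ⟨x, hx, rfl⟩ hx'
      have := hM1 hx'
      rw [mem_ball_zero_iff, norm_real, Real.norm_eq_abs, abs_of_pos (lt_of_lt_of_le hM0 hx)] at this
      exact absurd hx (not_le.2 this)
    have h1 := hS.subset_connectedComponentIn (x := (M : ℂ)) ⟨M, mem_Ici.2 le_rfl, rfl⟩ hsub
    have h2 := hb.subset h1
    obtain ⟨C, hC⟩ := h2.exists_norm_le
    have h3 := hC ((max M (C + 1) : ℝ) : ℂ) ⟨max M (C + 1), mem_Ici.2 (le_max_left _ _), rfl⟩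
    rw [norm_real, Real.norm_eq_abs] at h3
    have h4 := le_abs_self (max M (C + 1))
    have h5 := le_max_right M (C + 1)
    linarith

lemma exists_mem_closure : (closure P.outer ∩ P.boundary).Nonempty := by
  obtain ⟨z, hz⟩ := P.outer_nonempty
  have h1 : (frontier P.outer).Nonempty := by
    rw [nonempty_frontier_iff]
    refine ⟨⟨z, hz⟩, ?_⟩
    intro h
    have h3 := P.three_le
    have : P.v ⟨0, by omega⟩ ∈ P.outer := by rw [h]; exact mem_univ _
    exact this.1 (P.edge_subset _ (P.left_mem _))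
  obtain ⟨t, ht⟩ := h1
  refine ⟨t, ht.1, ?_⟩
  by_contra hcon
  have := P.closure_outer_sdiff ⟨ht.1, hcon⟩
  rw [P.isOpen_outer.frontier_eq] at ht
  exact ht.2 this

lemma isPreconnected_boundary : IsPreconnected P.boundary := by
  have h3 := P.three_le
  obtain ⟨m, hm⟩ : ∃ m, n = m + 1 := ⟨n - 1, by omega⟩
  subst hm
  have h0 : ∀ k : ℕ, ∀ hk : k < m + 1, (finRotate (m + 1) ^ k) 0 = ⟨k, hk⟩ := by
    intro k
    induction k with
    | zero => intro _; simp
    | succ k ih =>
      intro hk
      rw [pow_succ', Equiv.Perm.mul_apply, ih (by omega), finRotate_of_lt (by omega)]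
  have h1 : P.boundary = ⋃ k : ℕ, P.edge ((finRotate (m + 1) ^ k) 0) := by
    ext z
    rw [mem_boundary, mem_iUnion]
    constructor
    · rintro ⟨i, hi⟩
      refine ⟨i.1, ?_⟩
      rw [h0 i.1 i.2]; exact hi
    · rintro ⟨k, hk⟩
      exact ⟨_, hk⟩
  rw [h1]
  apply IsPreconnected.iUnion_of_chain
  · intro k; exact (convex_segment _ _).isPreconnected
  · intro k
    refine ⟨P.v ((finRotate (m + 1) ^ (k + 1)) 0), ?_, P.left_mem _⟩
    rw [pow_succ', Equiv.Perm.mul_apply]
    exact P.right_mem _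

lemma mem_segment_iff' {a b z : ℂ} : z ∈ segment ℝ a b ↔ ∃ x : ℝ, 0 ≤ x ∧ x ≤ 1 ∧ z = a + x * (b - a) := by
  rw [segment_eq_image']
  constructor
  · rintro ⟨x, ⟨h0, h1⟩, rfl⟩
    exact ⟨x, h0, h1, by simp only [real_smul]⟩
  · rintro ⟨x, h0, h1, rfl⟩
    exact ⟨x, ⟨h0, h1⟩, by simp only [real_smul]⟩

/-- Near `t` a set that consists of two segments ending at `t` and of a remote closed set looks
like two rays. -/
lemma rays_of {K K' : Set ℂ} {t A B : ℂ} (hA : A ≠ t) (hB : B ≠ t)
    (hAB : ∀ z, z ∈ segment ℝ t A → z ∈ segment ℝ t B → z = t) (h1 : segment ℝ t A ⊆ K)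
    (h2 : segment ℝ t B ⊆ K) (h3 : ∀ z ∈ K, z ∈ segment ℝ t A ∨ z ∈ segment ℝ t B ∨ z ∈ K')
    (hK' : IsClosed K') (ht : t ∉ K') :
    ∃ a b : ℂ, ‖a‖ = 1 ∧ ‖b‖ = 1 ∧ a ≠ b ∧ ∃ r : ℝ, 0 < r ∧ ∀ z, ‖z - t‖ < r →
      (z ∈ K ↔ ∃ x : ℝ, 0 ≤ x ∧ (z = t + x * a ∨ z = t + x * b)) := by
  obtain ⟨α, hα⟩ : ∃ α, α = ‖A - t‖ := ⟨_, rfl⟩
  obtain ⟨β, hβ⟩ : ∃ β, β = ‖B - t‖ := ⟨_, rfl⟩
  have hα0 : 0 < α := by rw [hα]; exact norm_pos_iff.2 (sub_ne_zero.2 hA)
  have hβ0 : 0 < β := by rw [hβ]; exact norm_pos_iff.2 (sub_ne_zero.2 hB)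
  have hαc : (α : ℂ) ≠ 0 := by exact_mod_cast hα0.ne'
  have hβc : (β : ℂ) ≠ 0 := by exact_mod_cast hβ0.ne'
  obtain ⟨r, hr0, hr⟩ := Metric.isOpen_iff.1 hK'.isOpen_compl t ht
  have hna : ‖(A - t) / α‖ = 1 := by
    rw [norm_div, ← hα, norm_real, Real.norm_eq_abs, abs_of_pos hα0, div_self hα0.ne']
  have hnb : ‖(B - t) / β‖ = 1 := by
    rw [norm_div, ← hβ, norm_real, Real.norm_eq_abs, abs_of_pos hβ0, div_self hβ0.ne']
  refine ⟨(A - t) / α, (B - t) / β, hna, hnb, ?_, min r (min α β), lt_min hr0 (lt_min hα0 hβ0), ?_⟩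
  · intro heq
    rcases le_total α β with h | h
    · apply hA
      apply hAB _ (right_mem_segment ℝ _ _)
      rw [mem_segment_iff']
      refine ⟨α / β, by positivity, (div_le_one hβ0).2 h, ?_⟩
      push_cast
      have : A - t = α * ((B - t) / β) := by rw [← heq]; field_simp
      linear_combination this
    · apply hB
      apply hAB _ _ (right_mem_segment ℝ _ _)
      rw [mem_segment_iff']
      refine ⟨β / α, by positivity, (div_le_one hα0).2 h, ?_⟩
      push_cast
      have : B - t = β * ((A - t) / α) := by rw [heq]; field_simp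
      linear_combination this
  · intro z hz
    rw [lt_min_iff, lt_min_iff] at hz
    obtain ⟨hz1, hz2, hz3⟩ := hz
    constructor
    · intro hzK
      rcases h3 z hzK with h | h | h
      · rw [mem_segment_iff'] at h
        obtain ⟨x, hx0, hx1, rfl⟩ := h
        exact ⟨x * α, by positivity, Or.inl (by push_cast; field_simp)⟩
      · rw [mem_segment_iff'] at h
        obtain ⟨x, hx0, hx1, rfl⟩ := h
        exact ⟨x * β, by positivity, Or.inr (by push_cast; field_simp)⟩
      · exfalso
        exact hr (by rw [Metric.mem_ball, dist_eq_norm]; exact hz1) h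
    · rintro ⟨x, hx0, rfl | rfl⟩
      · apply h1
        rw [mem_segment_iff']
        rw [add_sub_cancel_left, norm_mul, hna, mul_one, norm_real, Real.norm_eq_abs, abs_of_nonneg hx0] at hz2
        exact ⟨x / α, by positivity, (div_le_one hα0).2 hz2.le, by push_cast; field_simp⟩
      · apply h2
        rw [mem_segment_iff']
        rw [add_sub_cancel_left, norm_mul, hnb, mul_one, norm_real, Real.norm_eq_abs, abs_of_nonneg hx0] at hz3
        exact ⟨x / β, by positivity, (div_le_one hβ0).2 hz3.le, by push_cast; field_simp⟩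

lemma v_not_mem_edge {i l : Fin n} (h1 : l ≠ i) (h2 : finRotate n l ≠ i) : P.v i ∉ P.edge l := by
  intro h
  rcases P.edge_inter h1.symm (P.left_mem i) h with ⟨_, h4⟩ | ⟨h3, _⟩
  · exact h1 (P.inj h4).symm
  · exact h2 h3.symm

lemma rays {t : ℂ} (ht : t ∈ P.boundary) :
    ∃ a b : ℂ, ‖a‖ = 1 ∧ ‖b‖ = 1 ∧ a ≠ b ∧ ∃ r : ℝ, 0 < r ∧ ∀ z, ‖z - t‖ < r →
      (z ∈ P.boundary ↔ ∃ x : ℝ, 0 ≤ x ∧ (z = t + x * a ∨ z = t + x * b)) := by
  obtain ⟨j, hj⟩ := P.mem_boundary.1 ht
  by_cases hv : ∃ i, t = P.v i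
  · obtain ⟨i, rfl⟩ := hv
    obtain ⟨k, hk⟩ : ∃ k, finRotate n k = i := ⟨(finRotate n).symm i, Equiv.apply_symm_apply _ _⟩
    have hki : k ≠ i := by rw [← hk]; exact (P.rotate_ne k).symm
    have hek : segment ℝ (P.v i) (P.v k) = P.edge k := by
      unfold edge; rw [hk, segment_symm]
    apply rays_of (A := P.v (finRotate n i)) (B := P.v k)
      (K' := ⋃ l : {l : Fin n // l ≠ i ∧ l ≠ k}, P.edge l.1)
    · exact (P.v_ne i).symm
    · exact fun h => hki (P.inj h)
    · intro z hz1 hz2
      rw [hek] at hz2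
      rcases P.edge_inter hki hz2 hz1 with ⟨_, h⟩ | ⟨h3, h⟩
      · exact h
      · -- `k = finRotate i` and `i = finRotate k` is impossible
        exfalso
        have h3' := P.three_le
        have h5 : finRotate n (finRotate n k) = k := by rw [hk]; exact h3.symm
        have h6 := P.near k
        have h7 : P.v k ∈ segment ℝ (P.v k) (P.v (finRotate n k)) ∩
          segment ℝ (P.v (finRotate n k)) (P.v (finRotate n (finRotate n k))) :=
          ⟨left_mem_segment ℝ _ _, by rw [h5]; exact right_mem_segment ℝ _ _⟩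
        rw [h6] at h7
        exact hki (P.inj (by rw [h7, hk]))
    · exact P.edge_subset i
    · rw [hek]; exact P.edge_subset k
    · intro z hz
      obtain ⟨l, hl⟩ := P.mem_boundary.1 hz
      by_cases h1 : l = i
      · left; subst h1; exact hl
      · by_cases h2 : l = k
        · right; left; rw [hek]; subst h2; exact hl
        · right; right; exact mem_iUnion.2 ⟨⟨l, h1, h2⟩, hl⟩
    · exact isClosed_iUnion_of_finite (fun l => P.isClosed_edge l.1)
    · intro h
      obtain ⟨⟨l, h1, h2⟩, hl⟩ := mem_iUnion.1 h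
      refine P.v_not_mem_edge h1 ?_ hl
      intro h3
      rw [← hk] at h3
      exact h2 ((finRotate n).injective h3)
  · push Not at hv
    have hj' := mem_segment_iff'.1 hj
    obtain ⟨s, hs0, hs1, hs⟩ := hj'
    have hd : P.v (finRotate n j) - P.v j ≠ 0 := sub_ne_zero.2 (P.v_ne j).symm
    have hs0' : 0 < s := by
      rcases hs0.lt_or_eq with h | h
      · exact h
      · exfalso; apply hv j; rw [hs, ← h]; simp
    have hs1' : s < 1 := by
      rcases hs1.lt_or_eq with h | h
      · exact h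
      · exfalso; apply hv (finRotate n j); rw [hs, h]; push_cast; ring
    have hs0c : (s : ℂ) ≠ 0 := by exact_mod_cast hs0'.ne'
    have hs1c : (1 - s : ℂ) ≠ 0 := by
      have : (1 - s : ℝ) ≠ 0 := by linarith
      exact_mod_cast this
    apply rays_of (A := P.v (finRotate n j)) (B := P.v j) (K' := ⋃ l : {l : Fin n // l ≠ j}, P.edge l.1)
    · exact (hv _).symm
    · exact (hv _).symm
    · intro z hz1 hz2
      rw [mem_segment_iff'] at hz1 hz2
      obtain ⟨x, hx0, hx1, hx⟩ := hz1
      obtain ⟨y, hy0, hy1, hy⟩ := hz2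
      have h1 : ((x * (1 - s) + y * s : ℝ) : ℂ) * (P.v (finRotate n j) - P.v j) = 0 := by
        push_cast
        rw [hx] at hy
        rw [hs] at hy
        linear_combination hy
      have h2 : x * (1 - s) + y * s = 0 := by
        rcases mul_eq_zero.1 h1 with h | h
        · exact_mod_cast h
        · exact absurd h hd
      have h3 : x = 0 := by
        have h4 : 0 ≤ x * (1 - s) := mul_nonneg hx0 (by linarith)
        have h5 : 0 ≤ y * s := mul_nonneg hy0 hs0
        have h6 : x * (1 - s) = 0 := by linarith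
        rcases mul_eq_zero.1 h6 with h | h
        · exact h
        · linarith
      rw [hx, h3]; simp
    · intro z hz
      rw [mem_segment_iff'] at hz
      obtain ⟨x, hx0, hx1, hx⟩ := hz
      apply P.edge_subset j
      unfold edge
      rw [mem_segment_iff']
      refine ⟨s + x * (1 - s), by nlinarith, by nlinarith, ?_⟩
      rw [hx, hs]; push_cast; ring
    · intro z hz
      rw [mem_segment_iff'] at hz
      obtain ⟨x, hx0, hx1, hx⟩ := hz
      apply P.edge_subset j
      unfold edge
      rw [mem_segment_iff']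
      refine ⟨s - x * s, by nlinarith, by nlinarith, ?_⟩
      rw [hx, hs]; push_cast; ring
    · intro z hz
      obtain ⟨l, hl⟩ := P.mem_boundary.1 hz
      by_cases h1 : l = j
      · subst h1
        unfold edge at hl
        rw [mem_segment_iff'] at hl
        obtain ⟨x, hx0, hx1, hx⟩ := hl
        rcases le_total s x with h | h
        · left
          rw [mem_segment_iff']
          refine ⟨(x - s) / (1 - s), div_nonneg (by linarith) (by linarith), (div_le_one (by linarith)).2 (by linarith), ?_⟩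
          rw [hx, hs]; push_cast; field_simp; ring
        · right; left
          rw [mem_segment_iff']
          refine ⟨(s - x) / s, div_nonneg (by linarith) (by linarith), (div_le_one (by linarith)).2 (by linarith), ?_⟩
          rw [hx, hs]; push_cast; field_simp; ring
      · right; right; exact mem_iUnion.2 ⟨⟨l, h1⟩, hl⟩
    · exact isClosed_iUnion_of_finite (fun l => P.isClosed_edge l.1)
    · intro h
      obtain ⟨⟨l, h1⟩, hl⟩ := mem_iUnion.1 h
      rcases P.edge_inter (Ne.symm h1) hj hl with ⟨_, h⟩ | ⟨_, h⟩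
      · exact hv _ h
      · exact hv _ h

/-- Local structure of the complement of the boundary at a boundary point. -/
lemma local_pieces {t : ℂ} (ht : t ∈ P.boundary) {r0 : ℝ} (hr0 : 0 < r0) : ∃ r : ℝ, 0 < r ∧ r ≤ r0 ∧
    ∃ S₁ S₂ : Set ℂ, IsPreconnected S₁ ∧ IsPreconnected S₂ ∧ S₁ ⊆ Metric.ball t r \ P.boundary ∧
      S₂ ⊆ Metric.ball t r \ P.boundary ∧ Metric.ball t r \ P.boundary ⊆ S₁ ∪ S₂ ∧
      Metric.ball t r ∩ P.boundary ⊆ closure S₁ ∧ Metric.ball t r ∩ P.boundary ⊆ closure S₂ := by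
  obtain ⟨a, b, ha, hb, hab, r, hr, hK⟩ := P.rays ht
  refine ⟨min r r0, lt_min hr hr0, min_le_right _ _, ?_⟩
  exact local_structure t a b ha hb hab P.boundary (min r r0) (lt_min hr hr0)
    (fun z hz => hK z (lt_of_lt_of_le hz (min_le_left _ _)))

/-- The outer region accumulates at every boundary point. -/
theorem boundary_subset_closure_outer : P.boundary ⊆ closure P.outer := by
  have hconn : PreconnectedSpace P.boundary := isPreconnected_iff_preconnectedSpace.1 P.isPreconnected_boundary
  obtain ⟨C, hC⟩ : ∃ C : Set P.boundary, C = Subtype.val ⁻¹' closure P.outer := ⟨_, rfl⟩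
  have hcl : IsClosed C := by rw [hC]; exact isClosed_closure.preimage continuous_subtype_val
  have hop : IsOpen C := by
    rw [isOpen_iff_mem_nhds]
    rintro ⟨t, ht⟩ htC
    rw [hC] at htC
    obtain ⟨r, hr, _, S₁, S₂, hS1, hS2, h1, h2, h3, h4, h5⟩ := P.local_pieces ht one_pos
    obtain ⟨u, hu1, hu2⟩ := Metric.mem_closure_iff.1 htC r hr
    have hu : u ∈ Metric.ball t r \ P.boundary := ⟨by rw [Metric.mem_ball, dist_comm]; exact hu2, hu1.1⟩
    have hsub : Metric.ball t r ∩ P.boundary ⊆ closure P.outer := by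
      rcases h3 hu with hu' | hu'
      · intro z hz
        refine closure_mono ?_ (h4 hz)
        intro y hy
        exact P.mem_outer_of_joined hS1 (fun w hw => (h1 hw).2) hu' hy hu1
      · intro z hz
        refine closure_mono ?_ (h5 hz)
        intro y hy
        exact P.mem_outer_of_joined hS2 (fun w hw => (h2 hw).2) hu' hy hu1
    have hnhds : Subtype.val ⁻¹' Metric.ball t r ∈ 𝓝 (⟨t, ht⟩ : P.boundary) :=
      (continuous_subtype_val.tendsto _) (Metric.ball_mem_nhds t hr)
    apply Filter.mem_of_superset hnhds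
    intro y hy
    rw [hC]
    exact hsub ⟨hy, y.2⟩
  have huniv : C = univ := by
    have hclopen : IsClopen C := ⟨hcl, hop⟩
    obtain ⟨t, ht1, ht2⟩ := P.exists_mem_closure
    exact hclopen.eq_univ ⟨⟨t, ht2⟩, by rw [hC]; exact ht1⟩
  intro t ht
  have : (⟨t, ht⟩ : P.boundary) ∈ C := by rw [huniv]; exact mem_univ _
  rw [hC] at this
  exact this

end Pool.Agent.Lib.MP_df76ee_lc.SimplePolygon
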