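import Pool.Agent.Lib.MP_df76ee_lc.Round

/-! # Correctness of the program -/

namespace Pool.Agent.Lib.MP_df76ee_lc

open Pool.Agent.Lib.PolyTM Function

variable {N : ℕ} {A : ℕ → ℕ → Prop}

theorem env_qzp (e : Va → ℕ) {Q P : List ℕ} (hQ : OKt N 4 Q) (hP : OKt N 4 P) (z : ℕ) :
    qs.map (upds e (qs ++ ([Va.z] ++ ps)) (Q ++ ([z] ++ P))) = Q ∧
      upds e (qs ++ ([Va.z] ++ ps)) (Q ++ ([z] ++ P)) .z = z ∧
      ps.map (upds e (qs ++ ([Va.z] ++ ps)) (Q ++ ([z] ++ P))) = P := by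
  obtain ⟨h1, h2⟩ := env_split e qs ([Va.z] ++ ps) (by decide) Q ([z] ++ P) hQ.1
    (by simp [hP.1, ps])
  rw [List.map_append] at h2
  obtain ⟨h3, h4⟩ := List.append_inj h2 (by simp)
  simp only [List.map_cons, List.map_nil, List.cons.injEq, and_true] at h3
  exact ⟨h1, h3, h4⟩

theorem round_spec (hG : Gr A) {B : List ℕ} {e : Va → ℕ} {σ : AS Wa} (hA : AdjOK N A σ.a)
    (hD : DOK N A B σ.a) (hT : Tab N A B (Tb N σ.a)) (L : (List ℕ → ℕ → ℕ → Prop) → Prop)
    (hL : ∀ T T' : List ℕ → ℕ → ℕ → Prop, (∀ Q z, sz N (T Q z) ≤ sz N (T' Q z)) → L T → L T')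
    (h0 : L (Tb N σ.a)) :
    (round.run N e σ).o = σ.o ∧
      (∀ w, w ≠ .C → w ≠ .best → (round.run N e σ).a w = σ.a w) ∧
      Tab N A B (Tb N (round.run N e σ).a) ∧ L (Tb N (round.run N e σ).a) ∧
      ∀ Q z P, OKt N 4 Q → z < N → OKt N 4 P → (∀ p ∈ P, Co N A (Q ++ B) z p) →
        (∀ s ∈ P, ∀ t ∈ P, s ≠ t → A s t) →
        ∀ m, (∀ T, Tab N A B T → L T → m ≤ sz N (Cand N A B T P (Co N A (Q ++ B) z) [])) →
          m ≤ sz N (Tb N (round.run N e σ).a Q z) := by
  have hlen : (qs ++ ([Va.z] ++ ps)).length = 4 + (1 + 4) := rfl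
  have key := run_loops (N := N) (xs := qs ++ ([Va.z] ++ ps)) (s := body1) (e := e)
    (fun σ' => σ'.o = σ.o ∧ (∀ w, w ≠ .C → w ≠ .best → σ'.a w = σ.a w) ∧
      Tab N A B (Tb N σ'.a) ∧ L (Tb N σ'.a))
    (fun ts σ' => ∀ Q z P, ts = Q ++ ([z] ++ P) → OKt N 4 Q → z < N → OKt N 4 P →
        (∀ p ∈ P, Co N A (Q ++ B) z p) →
        (∀ s ∈ P, ∀ t ∈ P, s ≠ t → A s t) →
        ∀ m, (∀ T, Tab N A B T → L T → m ≤ sz N (Cand N A B T P (Co N A (Q ++ B) z) [])) →
          m ≤ sz N (Tb N σ'.a Q z))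
    (by
      rw [hlen]
      intro ts hts σ' ⟨i1, i2, i3, i4⟩
      obtain ⟨Q, us, rfl, hQ, hus⟩ := hts.split
      obtain ⟨zs, P, rfl, hzs, hP⟩ := hus.split
      obtain ⟨z, rfl, hz⟩ := hzs.one
      obtain ⟨e1, e2, e3⟩ := env_qzp (N := N) e hQ hP z
      set e' := upds e (qs ++ ([Va.z] ++ ps)) (Q ++ ([z] ++ P)) with he'
      have hA' : AdjOK N A σ'.a := by
        intro x hx y hy
        rw [i2 .adj (by decide) (by decide)]
        exact hA x hx y hy
      have hD' : DOK N A B σ'.a := by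
        intro Q hQ j hj y hy
        rw [i2 .D (by decide) (by decide)]
        exact hD Q hQ j hj y hy
      obtain ⟨b1, b2, b3, b4, b5⟩ := body1_spec (N := N) (A := A) hG (B := B) (e := e') hA' hD'
        i3 (by rw [e3]; exact hP) (by rw [e1]; exact hQ) (by rw [e2]; exact hz)
      rw [e1, e2, e3] at b5
      refine ⟨⟨b1.trans i1, fun w h1 h2 => (b2 w h1 h2).trans (i2 w h1 h2), b3,
        hL _ _ b4 i4⟩, ?_⟩
      intro Q' z' P' heq hQ' hz' hP' hin hpw m hm
      obtain ⟨hq, hr⟩ := List.append_inj heq (by rw [hQ.1, hQ'.1])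
      obtain ⟨hzz, hp⟩ := List.append_inj hr rfl
      simp only [List.cons.injEq, and_true] at hzz
      subst hq hzz hp
      exact (hm _ i3 i4).trans (b5 hin hpw))
    (by
      rw [hlen]
      intro ts ts' _ hts σ' ⟨i1, i2, i3, i4⟩ hPp
      obtain ⟨Q, us, rfl, hQ, hus⟩ := hts.split
      obtain ⟨zs, P, rfl, hzs, hP⟩ := hus.split
      obtain ⟨z, rfl, hz⟩ := hzs.one
      obtain ⟨e1, e2, e3⟩ := env_qzp (N := N) e hQ hP z
      set e' := upds e (qs ++ ([Va.z] ++ ps)) (Q ++ ([z] ++ P)) with he'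
      have hA' : AdjOK N A σ'.a := by
        intro x hx y hy
        rw [i2 .adj (by decide) (by decide)]
        exact hA x hx y hy
      have hD' : DOK N A B σ'.a := by
        intro Q hQ j hj y hy
        rw [i2 .D (by decide) (by decide)]
        exact hD Q hQ j hj y hy
      obtain ⟨_, _, _, b4, _⟩ := body1_spec (N := N) (A := A) hG (B := B) (e := e') hA' hD'
        i3 (by rw [e3]; exact hP) (by rw [e1]; exact hQ) (by rw [e2]; exact hz)
      intro Q' z' P' heq hQ' hz' hP' hin hpw m hm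
      exact (hPp Q' z' P' heq hQ' hz' hP' hin hpw m hm).trans (b4 _ _))
    (σ := σ) ⟨rfl, fun _ _ _ => rfl, hT, h0⟩
  obtain ⟨⟨k1, k2, k3, k4⟩, k5⟩ := key
  refine ⟨k1, k2, k3, k4, fun Q z P hQ hz hP hin hpw m hm => ?_⟩
  refine k5 (Q ++ ([z] ++ P)) ?_ Q z P rfl hQ hz hP hin hpw m hm
  rw [hlen]
  exact hQ.append ((okt_one hz).append hP)

open Classical in
theorem kd_pos {K : Finset ℕ} {S : List ℕ} {z : ℕ} (h : 0 < kd N A K S z) :
    ∃ p ∈ K, Co N A S z p := by
  obtain ⟨p, hp⟩ := Finset.card_pos.1 h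
  exact ⟨p, Finset.mem_filter.1 hp⟩

/-- Lower bounds for the table entries of good components. -/
def LB (N : ℕ) (A : ℕ → ℕ → Prop) (pos : ℕ → ℕ) (K : Finset ℕ) (B : List ℕ) (t : ℕ)
    (T : List ℕ → ℕ → ℕ → Prop) : Prop :=
  ∀ ub qb qb' rb, B = [ub, qb, qb', rb] → Quad pos K ub qb qb' rb → ∀ u q q' r j,
    Good N A pos K ub qb qb' rb u q q' r j →
    kd N A K [u, q, q', r, ub, qb, qb', rb] j ≤ t →
    kd N A K [u, q, q', r, ub, qb, qb', rb] j ≤ sz N (T [u, q, q', r] j)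

theorem rounds_spec {pos : ℕ → ℕ} (hC : Cls N A pos) {K : Finset ℕ} (hK : MaxClq N A K)
    {B : List ℕ} {e : Va → ℕ} {σ : AS Wa} (hA : AdjOK N A σ.a)
    (hD : DOK N A B σ.a) (hT : Tab N A B (Tb N σ.a)) :
    ((Stmt.loop .r2 round).run N e σ).o = σ.o ∧
      (∀ w, w ≠ .C → w ≠ .best → ((Stmt.loop .r2 round).run N e σ).a w = σ.a w) ∧
      Tab N A B (Tb N ((Stmt.loop .r2 round).run N e σ).a) ∧
      LB N A pos K B N (Tb N ((Stmt.loop .r2 round).run N e σ).a) := by
  refine run_loop (N := N) (x := Va.r2) (s := round) (e := e)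
    (fun t σ' => σ'.o = σ.o ∧ (∀ w, w ≠ .C → w ≠ .best → σ'.a w = σ.a w) ∧
      Tab N A B (Tb N σ'.a) ∧ LB N A pos K B t (Tb N σ'.a)) ?_ (σ := σ) ?_
  · intro t ht σ' ⟨i1, i2, i3, i4⟩
    have hA' : AdjOK N A σ'.a := by
      intro x hx y hy
      rw [i2 .adj (by decide) (by decide)]
      exact hA x hx y hy
    have hD' : DOK N A B σ'.a := by
      intro Q hQ j hj y hy
      rw [i2 .D (by decide) (by decide)]
      exact hD Q hQ j hj y hy
    obtain ⟨k1, k2, k3, _, k5⟩ := round_spec (N := N) (A := A) hC.toGr (e := update e .r2 t)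
      hA' hD' i3 (LB N A pos K B t)
      (fun T T' h hT ub qb qb' rb h1 h2 u q q' r j h3 h4 =>
        (hT ub qb qb' rb h1 h2 u q q' r j h3 h4).trans (h _ _)) i4
    refine ⟨k1.trans i1, fun w h1 h2 => (k2 w h1 h2).trans (i2 w h1 h2), k3, ?_⟩
    intro ub qb qb' rb h1 h2 u q q' r j h3 h4
    rcases Nat.eq_zero_or_pos (kd N A K [u, q, q', r, ub, qb, qb', rb] j) with h0 | hpos
    · rw [h0]; exact Nat.zero_le _
    obtain ⟨P, p1, p2, p3, p4, p5⟩ := witness hC hK h2 h3 hpos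
    have hjN : j < N := by
      obtain ⟨p, _, hp⟩ := kd_pos hpos
      exact hp.left.1
    have hQ : OKt N 4 [u, q, q', r] := by
      refine ⟨rfl, fun s hs => ?_⟩
      simp only [List.mem_cons, List.not_mem_nil, or_false] at hs
      rcases hs with rfl | rfl | rfl | rfl
      exacts [hK.lt h3.quad.hu, hK.lt h3.quad.hq, hK.lt h3.quad.hq', hK.lt h3.quad.hr]
    subst h1
    refine k5 [u, q, q', r] j P hQ hjN ⟨p1, p2⟩ p3 p4 _ fun T hT hLB => ?_
    refine p5 T hT fun u' q1 q1' r' j' g1 g2 => ?_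
    exact hLB ub qb qb' rb rfl h2 u' q1 q1' r' j' g1 (by omega)
  · refine ⟨rfl, fun _ _ _ => rfl, hT, ?_⟩
    intro ub qb qb' rb h1 h2 u q q' r j h3 h4
    omega

/-- The set held by the array `G`. -/
def Gs (N : ℕ) (a : Arr Wa) (x : ℕ) : Prop := x < N ∧ a .G [x] = true

/-- It is a clique. -/
def GClq (N : ℕ) (A : ℕ → ℕ → Prop) (a : Arr Wa) : Prop :=
  ∀ x y, Gs N a x → Gs N a y → x ≠ y → A x y

theorem body2_spec (hG : Gr A) {B : List ℕ} (hB : OKt N 4 B) {e : Va → ℕ}
    (he : bs.map e = B) {σ : AS Wa} (hA : AdjOK N A σ.a)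
    (hD : DOK N A B σ.a) (hT : Tab N A B (Tb N σ.a)) (hGc : GClq N A σ.a)
    (hQ : OKt N 4 (qs.map e)) :
    (body2.run N e σ).o = σ.o ∧
      (∀ w, w ≠ .C → w ≠ .G → (body2.run N e σ).a w = σ.a w) ∧
      GClq N A (body2.run N e σ).a ∧
      sz N (Gs N σ.a) ≤ sz N (Gs N (body2.run N e σ).a) ∧
      ((∀ s ∈ B ++ qs.map e, ∀ t ∈ B ++ qs.map e, s ≠ t → A s t) →
        sz N (Cand N A B (Tb N σ.a) (qs.map e) (fun _ => True) B) ≤
          sz N (Gs N (body2.run N e σ).a)) := by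
  have hrun : body2.run N e σ = if (aeqAll (bs ++ qs)).eval N σ.a e = true then
      (Stmt.ite (.more .x (.arr .C [Va.x]) (.arr .G [Va.x])) (fill .G [Va.x] (.arr .C [Va.x]))
        .skip).run N e ((fill .C [Va.x] (candF qs bs (tru .x))).run N e σ) else σ := by
    simp only [body2, Stmt.run, Cond.eval]
  have hmap : (bs ++ qs).map e = B ++ qs.map e := by rw [List.map_append, he]
  have haeq := eval_aeqAll (N := N) (A := A) hA (e := e) (l := bs ++ qs)
    (by rw [hmap]; exact (hB.append hQ).2)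
  rw [hmap] at haeq
  by_cases hok : (aeqAll (bs ++ qs)).eval N σ.a e = true
  swap
  · rw [hrun, if_neg hok]
    exact ⟨rfl, fun _ _ _ => rfl, hGc, le_rfl, fun h => absurd (haeq.2 h) hok⟩
  rw [if_pos hok] at hrun
  have hok' := haeq.1 hok
  set X := Cand N A B (Tb N σ.a) (qs.map e) (fun _ => True) B with hX
  obtain ⟨f1, f2, f3⟩ := fillC_spec (N := N) (φ := candF qs bs (tru .x)) (by decide) (e := e)
    (σ := σ) (X := X) (by
      intro t ht
      have := eval_candF (N := N) (A := A) (B := B) hD (e := update e .x t) (P := qs) (E := bs)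
        (reg := tru .x) (R := fun _ => True) (by decide) (by decide) hQ ht
        (by
          intro u hu
          simp only [eval_tru, true_iff]
          intro _ _ _
          trivial)
      have e1 : bs.map (update e Va.x t) = B := he
      rw [e1] at this
      exact this)
  set σ1 := (fill .C [Va.x] (candF qs bs (tru .x))).run N e σ with hσ1
  have hGs1 : Gs N σ1.a = Gs N σ.a := by
    funext x
    unfold Gs
    rw [f2 .G (by decide)]
  have hcond : (Cond.more Va.x (.arr Wa.C [Va.x]) (.arr .G [Va.x])).eval N σ1.a e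
      = true ↔ sz N (Gs N σ.a) < sz N X := by
    simp only [Cond.eval, decide_eq_true_eq, count_eq]
    have s1 : sz N (fun t => (Fml.arr Wa.G [Va.x]).eval N σ1.a
        (update e Va.x t) = true) = sz N (Gs N σ.a) := by
      apply sz_congr
      intro t ht
      rw [Fml.eval_arr, f2 .G (by decide)]
      exact ⟨fun h => ⟨ht, h⟩, fun h => h.2⟩
    have s2 : sz N (fun t => (Fml.arr Wa.C [Va.x]).eval N σ1.a
        (update e Va.x t) = true) = sz N X := by
      apply sz_congr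
      intro t ht
      rw [← f3 t ht]
      rfl
    rw [s1, s2]
  by_cases hc : sz N (Gs N σ.a) < sz N X
  swap
  · have hfin : body2.run N e σ = σ1 := by
      rw [hrun]
      have : ¬(Cond.more Va.x (.arr Wa.C [Va.x]) (.arr .G [Va.x])).eval N σ1.a e
        = true := fun h => hc (hcond.1 h)
      simp only [Stmt.run, this, Bool.false_eq_true, if_false]
    have hGc1 : GClq N A σ1.a := by
      unfold GClq
      rw [hGs1]
      exact hGc
    rw [hfin, hGs1]
    exact ⟨f1, fun w h1 _ => f2 w h1, hGc1, le_rfl, fun _ => not_lt.1 hc⟩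
  have hfin : body2.run N e σ = (fill Wa.G [Va.x] (.arr .C [Va.x])).run N e σ1 := by
    rw [hrun]
    have : (Cond.more Va.x (.arr Wa.C [Va.x]) (.arr .G [Va.x])).eval N σ1.a e
        = true := hcond.2 hc
    simp only [Stmt.run, this, if_true]
  obtain ⟨g1, g2, g3⟩ := run_fill (N := N) Wa.G [Va.x] (.arr .C [Va.x])
    (by decide) (by decide) e σ1
  rw [← hfin] at g1 g2 g3
  set σ2 := body2.run N e σ with hσ2
  have hGs2 : ∀ x, Gs N σ2.a x ↔ x < N ∧ X x := by
    intro x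
    unfold Gs
    apply and_congr_right
    intro hx
    rw [g3 [x] (okt_one hx), ← f3 x hx]
    rfl
  have hXclq : ∀ x y, X x → X y → x ≠ y → A x y := fun x y hx hy hxy =>
    cand_clq hG hT hok' (fun x hx => hx) hx hy hxy
  refine ⟨g1.trans f1, fun w h1 h2 => (g2 w h2).trans (f2 w h1), ?_, ?_, ?_⟩
  · intro x y hx hy hxy
    rw [hGs2] at hx hy
    exact hXclq x y hx.2 hy.2 hxy
  · refine hc.le.trans (sz_mono fun x hx h => ?_)
    rw [hGs2]
    exact ⟨hx, h⟩
  · intro _
    apply sz_mono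
    intro x hx h
    rw [hGs2]
    exact ⟨hx, h⟩

theorem final_spec (hG : Gr A) {B : List ℕ} (hB : OKt N 4 B) {e : Va → ℕ}
    (he : bs.map e = B) {σ : AS Wa} (hA : AdjOK N A σ.a)
    (hD : DOK N A B σ.a) (hT : Tab N A B (Tb N σ.a)) (hGc : GClq N A σ.a) :
    ((loops qs body2).run N e σ).o = σ.o ∧
      (∀ w, w ≠ .C → w ≠ .G → ((loops qs body2).run N e σ).a w = σ.a w) ∧
      GClq N A ((loops qs body2).run N e σ).a ∧
      sz N (Gs N σ.a) ≤ sz N (Gs N ((loops qs body2).run N e σ).a) ∧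
      ∀ Q, OKt N 4 Q → (∀ s ∈ B ++ Q, ∀ t ∈ B ++ Q, s ≠ t → A s t) →
        sz N (Cand N A B (Tb N σ.a) Q (fun _ => True) B) ≤
          sz N (Gs N ((loops qs body2).run N e σ).a) := by
  have key := run_loops (N := N) (xs := qs) (s := body2) (e := e)
    (fun σ' => σ'.o = σ.o ∧ (∀ w, w ≠ .C → w ≠ .G → σ'.a w = σ.a w) ∧ GClq N A σ'.a ∧
      sz N (Gs N σ.a) ≤ sz N (Gs N σ'.a))
    (fun Q σ' => (∀ s ∈ B ++ Q, ∀ t ∈ B ++ Q, s ≠ t → A s t) →
        sz N (Cand N A B (Tb N σ.a) Q (fun _ => True) B) ≤ sz N (Gs N σ'.a))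
    (by
      intro Q hQ σ' ⟨i1, i2, i3, i4⟩
      have e1 : qs.map (upds e qs Q) = Q := upds_map e qs (by decide) Q hQ.1
      have e2 : bs.map (upds e qs Q) = B := by
        rw [map_upds_of_disj e qs bs Q (by decide), he]
      have hA' : AdjOK N A σ'.a := by
        intro x hx y hy
        rw [i2 .adj (by decide) (by decide)]
        exact hA x hx y hy
      have hD' : DOK N A B σ'.a := by
        intro Q hQ j hj y hy
        rw [i2 .D (by decide) (by decide)]
        exact hD Q hQ j hj y hy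
      have hTb : Tb N σ'.a = Tb N σ.a := by
        funext Q z x
        unfold Tb
        rw [i2 .best (by decide) (by decide)]
      obtain ⟨b1, b2, b3, b4, b5⟩ := body2_spec (N := N) (A := A) hG hB e2 hA' hD'
        (by rw [hTb]; exact hT) i3 (by rw [e1]; exact hQ)
      rw [e1, hTb] at b5
      exact ⟨⟨b1.trans i1, fun w h1 h2 => (b2 w h1 h2).trans (i2 w h1 h2), b3,
        i4.trans b4⟩, b5⟩)
    (by
      intro Q0 Q _ hQ σ' ⟨i1, i2, i3, i4⟩ hPp hpw
      have e1 : qs.map (upds e qs Q) = Q := upds_map e qs (by decide) Q hQ.1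
      have e2 : bs.map (upds e qs Q) = B := by
        rw [map_upds_of_disj e qs bs Q (by decide), he]
      have hA' : AdjOK N A σ'.a := by
        intro x hx y hy
        rw [i2 .adj (by decide) (by decide)]
        exact hA x hx y hy
      have hD' : DOK N A B σ'.a := by
        intro Q hQ j hj y hy
        rw [i2 .D (by decide) (by decide)]
        exact hD Q hQ j hj y hy
      have hTb : Tb N σ'.a = Tb N σ.a := by
        funext Q z x
        unfold Tb
        rw [i2 .best (by decide) (by decide)]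
      obtain ⟨_, _, _, b4, _⟩ := body2_spec (N := N) (A := A) hG hB e2 hA' hD'
        (by rw [hTb]; exact hT) i3 (by rw [e1]; exact hQ)
      exact (hPp hpw).trans b4)
    (σ := σ) ⟨rfl, fun _ _ _ => rfl, hGc, le_rfl⟩
  obtain ⟨⟨k1, k2, k3, k4⟩, k5⟩ := key
  exact ⟨k1, k2, k3, k4, k5⟩

theorem inner_spec {pos : ℕ → ℕ} (hC : Cls N A pos) {K : Finset ℕ} (hK : MaxClq N A K)
    {B : List ℕ} (hB : OKt N 4 B) {e : Va → ℕ}
    (he : bs.map e = B) {σ : AS Wa} (hA : AdjOK N A σ.a) (hGc : GClq N A σ.a) :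
    (inner.run N e σ).o = σ.o ∧ (inner.run N e σ).a .adj = σ.a .adj ∧
      GClq N A (inner.run N e σ).a ∧
      sz N (Gs N σ.a) ≤ sz N (Gs N (inner.run N e σ).a) ∧
      ∀ Q, OKt N 4 Q → (∀ s ∈ B ++ Q, ∀ t ∈ B ++ Q, s ≠ t → A s t) →
        ∀ m, (∀ T, Tab N A B T → LB N A pos K B N T →
          m ≤ sz N (Cand N A B T Q (fun _ => True) B)) →
          m ≤ sz N (Gs N (inner.run N e σ).a) := by
  obtain ⟨a1, a2, a3⟩ := initD_spec (N := N) (A := A) hB he hA
  set σ1 := initD.run N e σ with hσ1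
  obtain ⟨b1, b2, b3⟩ := warshall_spec (N := N) (A := A) (e := e) a3
  set σ2 := warshall.run N e σ1 with hσ2
  obtain ⟨c1, c2, c3⟩ := run_fill (N := N) Wa.best (qs ++ [Va.z, Va.x]) (fls .x) (by decide)
    (by decide) e σ2
  set σ3 := initBest.run N e σ2 with hσ3
  change σ3.o = σ2.o at c1
  change ∀ w', w' ≠ Wa.best → σ3.a w' = σ2.a w' at c2
  change ∀ ts, OKt N (qs ++ [Va.z, Va.x]).length ts → σ3.a .best ts = _ at c3
  have hA3 : AdjOK N A σ3.a := by
    intro x hx y hy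
    rw [c2 .adj (by decide), b2 .adj (by decide) (by decide), a2 .adj (by decide)]
    exact hA x hx y hy
  have hD3 : DOK N A B σ3.a := by
    intro Q hQ j hj y hy
    rw [c2 .D (by decide)]
    exact b3 Q hQ j hj y hy
  have hTb3 : ∀ Q z x, ¬Tb N σ3.a Q z x := by
    rintro Q z x ⟨hQ, hz, hx, h⟩
    rw [c3 _ (hQ.append (okt_two hz hx)), eval_fls] at h
    exact absurd h (by decide)
  have hT3 : Tab N A B (Tb N σ3.a) :=
    ⟨fun Q z x h => absurd h (hTb3 Q z x), fun Q z x y h => absurd h (hTb3 Q z x)⟩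
  obtain ⟨d1, d2, d3, d4⟩ := rounds_spec (N := N) (A := A) hC hK (e := e) hA3 hD3 hT3
  set σ4 := (Stmt.loop .r2 round).run N e σ3 with hσ4
  have hA4 : AdjOK N A σ4.a := by
    intro x hx y hy
    rw [d2 .adj (by decide) (by decide)]
    exact hA3 x hx y hy
  have hD4 : DOK N A B σ4.a := by
    intro Q hQ j hj y hy
    rw [d2 .D (by decide) (by decide)]
    exact hD3 Q hQ j hj y hy
  have hG4 : σ4.a .G = σ.a .G := by
    rw [d2 .G (by decide) (by decide), c2 .G (by decide), b2 .G (by decide) (by decide),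
      a2 .G (by decide)]
  have hGs4 : Gs N σ4.a = Gs N σ.a := by
    funext x
    unfold Gs
    rw [hG4]
  have hGc4 : GClq N A σ4.a := by
    unfold GClq
    rw [hGs4]
    exact hGc
  obtain ⟨f1, f2, f3, f4, f5⟩ := final_spec (N := N) (A := A) hC.toGr hB he hA4 hD4 d3 hGc4
  have hrun : inner.run N e σ = (loops qs body2).run N e σ4 := rfl
  rw [hrun]
  refine ⟨?_, ?_, f3, ?_, fun Q hQ hpw m hm => ?_⟩
  · rw [f1, d1, c1, b1, a1]
  · rw [f2 .adj (by decide) (by decide), d2 .adj (by decide) (by decide), c2 .adj (by decide),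
      b2 .adj (by decide) (by decide), a2 .adj (by decide)]
  · rw [← hGs4]
    exact f4
  · exact (hm _ d3 d4).trans (f5 Q hQ hpw)

/-- The program outputs the characteristic vector of a maximum clique. -/
theorem prog_spec {pos : ℕ → ℕ} (hC : Cls N A pos) {K : Finset ℕ} (hK : MaxClq N A K)
    (hK0 : K.Nonempty) {e : Va → ℕ} {σ : AS Wa} (hA : AdjOK N A σ.a) (ho : σ.o = []) :
    ∃ K' : Finset ℕ, MaxClq N A K' ∧
      (prog.run N e σ).o = (List.range N).map fun x => decide (x ∈ K') := by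
  obtain ⟨a1, a2, a3⟩ := run_fill (N := N) Wa.G [Va.x] (fls .x) (by decide)
    (by decide) e σ
  set σ1 := (fill Wa.G [Va.x] (fls .x)).run N e σ with hσ1
  have hA1 : AdjOK N A σ1.a := by
    intro x hx y hy
    rw [a2 .adj (by decide)]
    exact hA x hx y hy
  have hG1 : GClq N A σ1.a := by
    intro x y hx
    unfold Gs at hx
    rw [a3 [x] (okt_one hx.1), eval_fls] at hx
    exact absurd hx.2 (by decide)
  have key := run_loops (N := N) (xs := bs) (s := inner) (e := e)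
    (fun σ' => σ'.o = [] ∧ σ'.a .adj = σ1.a .adj ∧ GClq N A σ'.a)
    (fun B σ' => ∀ Q, OKt N 4 Q → (∀ s ∈ B ++ Q, ∀ t ∈ B ++ Q, s ≠ t → A s t) →
        ∀ m, (∀ T, Tab N A B T → LB N A pos K B N T →
          m ≤ sz N (Cand N A B T Q (fun _ => True) B)) →
          m ≤ sz N (Gs N σ'.a))
    (by
      intro B hB σ' ⟨i1, i2, i3⟩
      have hA' : AdjOK N A σ'.a := by
        intro x hx y hy
        rw [i2]
        exact hA1 x hx y hy
      obtain ⟨b1, b2, b3, _, b5⟩ := inner_spec (N := N) (A := A) hC hK hB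
        (upds_map e bs (by decide) B hB.1) hA' i3
      exact ⟨⟨b1.trans i1, b2.trans i2, b3⟩, b5⟩)
    (by
      intro B0 B _ hB σ' ⟨i1, i2, i3⟩ hPp Q hQ hpw m hm
      have hA' : AdjOK N A σ'.a := by
        intro x hx y hy
        rw [i2]
        exact hA1 x hx y hy
      obtain ⟨_, _, _, b4, _⟩ := inner_spec (N := N) (A := A) hC hK hB
        (upds_map e bs (by decide) B hB.1) hA' i3
      exact (hPp Q hQ hpw m hm).trans b4)
    (σ := σ1) ⟨a1.trans ho, rfl, hG1⟩
  obtain ⟨⟨k1, k2, k3⟩, k4⟩ := key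
  set σ2 := (loops bs inner).run N e σ1 with hσ2
  classical
  set K' : Finset ℕ := (Finset.range N).filter (Gs N σ2.a) with hK'
  have hmem : ∀ x, x ∈ K' ↔ Gs N σ2.a x := by
    intro x
    rw [hK', Finset.mem_filter, Finset.mem_range]
    exact ⟨fun h => h.2, fun h => ⟨h.1, h⟩⟩
  have hclq : Clq N A K' := by
    refine ⟨fun hx => ((hmem _).1 hx).1, fun hx hy hxy => ?_⟩
    exact k3 _ _ ((hmem _).1 hx) ((hmem _).1 hy) hxy
  have hcard : K.card ≤ K'.card := by
    obtain ⟨B, P, hB, hP, h1, h2, h3⟩ := witness_top hC hK hK0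
    have hB' : OKt N 4 B := ⟨hB, fun b hb => h1 b (List.mem_append.2 (.inl hb))⟩
    have hP' : OKt N 4 P := ⟨hP, fun b hb => h1 b (List.mem_append.2 (.inr hb))⟩
    have := k4 B hB' P hP' h2 K.card (fun T hT hLB => h3 T hT ?_)
    · refine this.trans (le_of_eq ?_)
      unfold sz
      rw [hK']
    · intro ub qb qb' rb g1 g2 u q q' r j g3
      refine hLB ub qb qb' rb g1 g2 u q q' r j g3 ?_
      refine (Finset.card_filter_le _ _).trans ?_
      calc K.card ≤ (Finset.range N).card := Finset.card_le_card fun x hx =>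
            Finset.mem_range.2 (hK.lt hx)
        _ = N := Finset.card_range N
  refine ⟨K', ⟨hclq, fun K1 hK1 => (hK.max K1 hK1).trans hcard⟩, ?_⟩
  have hrun : prog.run N e σ = (Stmt.loop Va.x (.emit (.arr .G [Va.x]))).run N e σ2 := rfl
  rw [hrun]
  have hloop : ∀ m ≤ N, ((List.range m).foldl (fun σ t =>
      (Stmt.emit (Fml.arr Wa.G [Va.x])).run N (update e Va.x t) σ) σ2).a = σ2.a ∧
      ((List.range m).foldl (fun σ t =>
      (Stmt.emit (Fml.arr Wa.G [Va.x])).run N (update e Va.x t) σ) σ2).o =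
        (List.range m).map fun x => decide (x ∈ K') := by
    intro m
    induction m with
    | zero => intro _; exact ⟨rfl, k1⟩
    | succ m ih =>
      intro hm
      obtain ⟨j1, j2⟩ := ih (by omega)
      rw [List.range_succ, List.foldl_append, List.foldl_cons, List.foldl_nil]
      generalize (List.range m).foldl (fun σ t =>
        (Stmt.emit (Fml.arr Wa.G [Va.x])).run N (update e Va.x t) σ) σ2 = τ at j1 j2 ⊢
      refine ⟨j1, ?_⟩
      simp only [Stmt.run, j1, j2, List.map_append, List.map_cons, List.map_nil,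
        Fml.eval_arr, update_self]
      congr 2
      rw [Bool.eq_iff_iff, decide_eq_true_eq, hmem]
      exact ⟨fun h => ⟨by omega, h⟩, fun h => h.2⟩
  exact (hloop N le_rfl).2

end Pool.Agent.Lib.MP_df76ee_lc
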