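import Pool.Agent.Lib.MP_df76ee_lc.Comb

/-! # Candidate sets of the dynamic programme -/

namespace Pool.Agent.Lib.MP_df76ee_lc

set_option linter.unusedSectionVars false

open Classical

variable {N : ℕ} {adj : ℕ → ℕ → Prop}

/-- Number of solutions below `N`. -/
noncomputable def sz (N : ℕ) (P : ℕ → Prop) : ℕ := ((Finset.range N).filter P).card

theorem sz_mono {P Q : ℕ → Prop} (h : ∀ x < N, P x → Q x) : sz N P ≤ sz N Q := by
  apply Finset.card_le_card
  intro x hx
  rw [Finset.mem_filter, Finset.mem_range] at hx ⊢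
  exact ⟨hx.1, h x hx.1 hx.2⟩

theorem card_le_sz {P : ℕ → Prop} {S : Finset ℕ} (h : ∀ x ∈ S, x < N ∧ P x) :
    S.card ≤ sz N P := by
  apply Finset.card_le_card
  intro x hx
  rw [Finset.mem_filter, Finset.mem_range]
  exact h x hx

/-- A table of cliques. -/
structure Tab (N : ℕ) (adj : ℕ → ℕ → Prop) (B : List ℕ) (T : List ℕ → ℕ → ℕ → Prop) : Prop where
  sub : ∀ Q z x, T Q z x → Co N adj (Q ++ B) z x
  clq : ∀ Q z x x', T Q z x → T Q z x' → x ≠ x' → adj x x'

/-- Candidate set: the extra vertices `E`, the tuple `P` and the table entries of the components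
for `P` that lie in the region `R`. -/
def Cand (N : ℕ) (adj : ℕ → ℕ → Prop) (B : List ℕ) (T : List ℕ → ℕ → ℕ → Prop) (P : List ℕ)
    (R : ℕ → Prop) (E : List ℕ) (x : ℕ) : Prop :=
  x ∈ E ∨ x ∈ P ∨ ∃ j < N, T P j x ∧ (∀ i < j, ¬Co N adj (P ++ B) j i) ∧
    ∀ y < N, Co N adj (P ++ B) j y → R y

theorem cand_clq (hG : Gr adj) {B : List ℕ} {T : List ℕ → ℕ → ℕ → Prop}
    (hT : Tab N adj B T) {P : List ℕ} {R : ℕ → Prop} {E : List ℕ}
    (hPE : ∀ x ∈ E ++ P, ∀ y ∈ E ++ P, x ≠ y → adj x y) (hEB : ∀ x ∈ E, x ∈ B) {x y : ℕ}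
    (hx : Cand N adj B T P R E x) (hy : Cand N adj B T P R E y) (hxy : x ≠ y) : adj x y := by
  have mixed : ∀ x y, (x ∈ E ++ P) → (∃ j < N, T P j y ∧ (∀ i < j, ¬Co N adj (P ++ B) j i) ∧
      ∀ y < N, Co N adj (P ++ B) j y → R y) → adj x y := by
    rintro x y hx ⟨j, _, hj, _⟩
    have := (hT.sub _ _ _ hj).right
    apply hG.symm
    apply this.2
    rcases List.mem_append.1 hx with h | h
    · exact List.mem_append.2 (.inr (hEB x h))
    · exact List.mem_append.2 (.inl h)
  have hx' : x ∈ E ++ P ∨ ∃ j < N, T P j x ∧ (∀ i < j, ¬Co N adj (P ++ B) j i) ∧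
      ∀ y < N, Co N adj (P ++ B) j y → R y := by
    rcases hx with h | h | h
    · exact .inl (List.mem_append.2 (.inl h))
    · exact .inl (List.mem_append.2 (.inr h))
    · exact .inr h
  have hy' : y ∈ E ++ P ∨ ∃ j < N, T P j y ∧ (∀ i < j, ¬Co N adj (P ++ B) j i) ∧
      ∀ y < N, Co N adj (P ++ B) j y → R y := by
    rcases hy with h | h | h
    · exact .inl (List.mem_append.2 (.inl h))
    · exact .inl (List.mem_append.2 (.inr h))
    · exact .inr h
  rcases hx' with hx' | hx'
  · rcases hy' with hy' | hy'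
    · exact hPE x hx' y hy' hxy
    · exact mixed x y hx' hy'
  · rcases hy' with hy' | hy'
    · exact hG.symm (mixed y x hy' hx')
    · obtain ⟨j, hj, h1, h2, _⟩ := hx'
      obtain ⟨j', hj', h1', h2', _⟩ := hy'
      by_cases hjj : j = j'
      · subst hjj
        exact hT.clq _ _ _ _ h1 h1' hxy
      · have c1 := hT.sub _ _ _ h1
        have c2 := hT.sub _ _ _ h1'
        apply Co.adjOf c1 c2.right
        intro hc
        have hjj' : Co N adj (P ++ B) j j' := hc.trans (c2.symm hG)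
        rcases Nat.lt_or_gt_of_ne hjj with h | h
        · exact h2' j h (hjj'.symm hG)
        · exact h2 j' h hjj'

/-- The number of members of `K` in a component. -/
noncomputable def kd (N : ℕ) (adj : ℕ → ℕ → Prop) (K : Finset ℕ) (S : List ℕ) (z : ℕ) : ℕ :=
  (K.filter (Co N adj S z)).card

theorem cand_size (hG : Gr adj) {K : Finset ℕ} {B : List ℕ}
    {T : List ℕ → ℕ → ℕ → Prop} (hT : Tab N adj B T) {P : List ℕ} {R : ℕ → Prop} {E : List ℕ}
    (hEB : ∀ x ∈ E, x ∈ B) (hEN : ∀ x ∈ E ++ P, x < N) {Rest : Finset ℕ}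
    (hRK : Rest ⊆ K) (hRC : ∀ x ∈ Rest, CN N adj (P ++ B) x)
    (hR : ∀ x ∈ Rest, ∀ y, Co N adj (P ++ B) x y → R y)
    (hLB : ∀ x ∈ Rest, ∀ j, Co N adj (P ++ B) x j → kd N adj K (P ++ B) j ≤ sz N (T P j)) :
    (E ++ P).toFinset.card + Rest.card ≤ sz N (Cand N adj B T P R E) := by
  have hex : ∀ x ∈ Rest, ∃ i, Co N adj (P ++ B) x i := fun x hx => ⟨x, Co.refl hG (hRC x hx)⟩
  set rep : ℕ → ℕ := fun x => if h : ∃ i, Co N adj (P ++ B) x i then Nat.find h else 0 with hrep
  have rep1 : ∀ x ∈ Rest, Co N adj (P ++ B) x (rep x) := by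
    intro x hx
    simp only [hrep, dif_pos (hex x hx)]
    exact Nat.find_spec (hex x hx)
  have rep2 : ∀ x ∈ Rest, ∀ i < rep x, ¬Co N adj (P ++ B) (rep x) i := by
    intro x hx i hi hc
    simp only [hrep, dif_pos (hex x hx)] at hi
    exact Nat.find_min (hex x hx) hi ((rep1 x hx).trans hc)
  set J := Rest.image rep with hJ
  have hJ' : ∀ j ∈ J, ∃ x ∈ Rest, Co N adj (P ++ B) x j ∧ (∀ i < j, ¬Co N adj (P ++ B) j i) := by
    intro j hj
    obtain ⟨x, hx, rfl⟩ := Finset.mem_image.1 hj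
    exact ⟨x, hx, rep1 x hx, rep2 x hx⟩
  set F : ℕ → Finset ℕ := fun j => (Finset.range N).filter (T P j) with hF
  have hFcand : ∀ j ∈ J, ∀ x ∈ F j, x < N ∧ Cand N adj B T P R E x := by
    intro j hj x hx
    obtain ⟨x0, hx0, h1, h2⟩ := hJ' j hj
    simp only [hF, Finset.mem_filter, Finset.mem_range] at hx
    refine ⟨hx.1, .inr (.inr ⟨j, h1.right.1, hx.2, h2, fun y _ hy => ?_⟩)⟩
    exact hR x0 hx0 y (h1.trans hy)
  have hFdisj : (J : Set ℕ).PairwiseDisjoint F := by
    intro j hj j' hj' hne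
    rw [Function.onFun, Finset.disjoint_left]
    intro x hx hx'
    simp only [hF, Finset.mem_filter, Finset.mem_range] at hx hx'
    obtain ⟨_, _, _, h2⟩ := hJ' j hj
    obtain ⟨_, _, _, h2'⟩ := hJ' j' hj'
    have c1 := hT.sub _ _ _ hx.2
    have c2 := hT.sub _ _ _ hx'.2
    have hjj' : Co N adj (P ++ B) j j' := c1.trans (c2.symm hG)
    rcases Nat.lt_or_gt_of_ne hne with h | h
    · exact h2' j h (hjj'.symm hG)
    · exact h2 j' h hjj'
  have hdisj : Disjoint (E ++ P).toFinset (J.biUnion F) := by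
    rw [Finset.disjoint_left]
    intro x hx hx'
    obtain ⟨j, hj, hxj⟩ := Finset.mem_biUnion.1 hx'
    simp only [hF, Finset.mem_filter, Finset.mem_range] at hxj
    have c1 := (hT.sub _ _ _ hxj.2).right
    have : x ∈ P ++ B := by
      rw [List.mem_toFinset, List.mem_append] at hx
      rcases hx with h | h
      · exact List.mem_append.2 (.inr (hEB x h))
      · exact List.mem_append.2 (.inl h)
    exact hG.irr (c1.2 x this)
  have h1 : ((E ++ P).toFinset ∪ J.biUnion F).card ≤ sz N (Cand N adj B T P R E) := by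
    apply card_le_sz
    intro x hx
    rcases Finset.mem_union.1 hx with hx | hx
    · rw [List.mem_toFinset] at hx
      refine ⟨hEN x hx, ?_⟩
      rcases List.mem_append.1 hx with h | h
      · exact .inl h
      · exact .inr (.inl h)
    · obtain ⟨j, hj, hxj⟩ := Finset.mem_biUnion.1 hx
      exact hFcand j hj x hxj
  rw [Finset.card_union_of_disjoint hdisj, Finset.card_biUnion hFdisj] at h1
  have h2 : Rest.card ≤ ∑ j ∈ J, (F j).card := by
    calc Rest.card ≤ (J.biUnion fun j => K.filter (Co N adj (P ++ B) j)).card := by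
          apply Finset.card_le_card
          intro x hx
          rw [Finset.mem_biUnion]
          exact ⟨rep x, Finset.mem_image_of_mem _ hx,
            Finset.mem_filter.2 ⟨hRK hx, (rep1 x hx).symm hG⟩⟩
      _ ≤ ∑ j ∈ J, (K.filter (Co N adj (P ++ B) j)).card := Finset.card_biUnion_le
      _ ≤ ∑ j ∈ J, (F j).card := by
          apply Finset.sum_le_sum
          intro j hj
          obtain ⟨x, hx, h1, _⟩ := hJ' j hj
          exact hLB x hx j h1
  omega

/-- The first four elements of a finite set with respect to `pos`. -/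
theorem first4 {pos : ℕ → ℕ} {K : Finset ℕ} (hinj : ∀ x ∈ K, ∀ y ∈ K, pos x = pos y → x = y)
    {S : Finset ℕ} (hS : S ⊆ K) (h4 : 4 ≤ S.card) :
    ∃ u q q' r, u ∈ S ∧ q ∈ S ∧ q' ∈ S ∧ r ∈ S ∧ pos u < pos q ∧ pos q < pos q' ∧
      pos q' < pos r ∧ ∀ p ∈ S, p ∉ [u, q, q', r] → pos r < pos p := by
  have step : ∀ S : Finset ℕ, S ⊆ K → 0 < S.card → ∃ u ∈ S, (S.erase u).card = S.card - 1 ∧
      ∀ p ∈ S.erase u, pos u < pos p := by
    intro S hS h
    obtain ⟨u, hu, hmin⟩ := Finset.exists_min_image S pos (Finset.card_pos.1 h)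
    refine ⟨u, hu, Finset.card_erase_of_mem hu, fun p hp => ?_⟩
    obtain ⟨h1, h2⟩ := Finset.mem_erase.1 hp
    refine lt_of_le_of_ne (hmin p h2) fun h => h1 ?_
    exact (hinj u (hS hu) p (hS h2) h).symm
  obtain ⟨u, hu, hcu, hu'⟩ := step S hS (by omega)
  have hS1 : S.erase u ⊆ K := (Finset.erase_subset _ _).trans hS
  obtain ⟨q, hq, hcq, hq2⟩ := step (S.erase u) hS1 (by omega)
  have hS2 : (S.erase u).erase q ⊆ K := (Finset.erase_subset _ _).trans hS1
  obtain ⟨q', hq', hcq', hq'2⟩ := step ((S.erase u).erase q) hS2 (by omega)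
  have hS3 : ((S.erase u).erase q).erase q' ⊆ K := (Finset.erase_subset _ _).trans hS2
  obtain ⟨r, hr, hcr, hr2⟩ := step (((S.erase u).erase q).erase q') hS3 (by omega)
  refine ⟨u, q, q', r, hu, (Finset.mem_erase.1 hq).2,
    (Finset.mem_erase.1 (Finset.mem_erase.1 hq').2).2,
    (Finset.mem_erase.1 (Finset.mem_erase.1 (Finset.mem_erase.1 hr).2).2).2,
    hu' q hq, hq2 q' hq', hq'2 r hr, fun p hp hn => ?_⟩
  simp only [List.mem_cons, List.not_mem_nil, or_false, not_or] at hn
  apply hr2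
  simp [Finset.mem_erase, hn, hp]

/-- Surjections from small index sets. -/
theorem cover {S : Finset ℕ} (h0 : S.Nonempty) {n : ℕ} (hn : S.card ≤ n) :
    ∃ f : Fin n → ℕ, (∀ i, f i ∈ S) ∧ ∀ x ∈ S, ∃ i, f i = x := by
  obtain ⟨s0, hs0⟩ := h0
  set l := S.toList with hl
  have hlen : l.length = S.card := Finset.length_toList S
  refine ⟨fun i => if h : (i : ℕ) < l.length then l[(i : ℕ)] else s0, fun i => ?_,
    fun x hx => ?_⟩
  · simp only
    split
    · next h => exact Finset.mem_toList.1 (List.getElem_mem h)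
    · exact hs0
  · obtain ⟨i, hi, hix⟩ := List.getElem_of_mem (Finset.mem_toList.2 hx)
    have : i < n := by
      have : i < l.length := hi
      omega
    exact ⟨⟨i, this⟩, by simp only; rw [dif_pos hi]; exact hix⟩

section Witness

variable {pos : ℕ → ℕ} (hC : Cls N adj pos) {K : Finset ℕ} (hK : MaxClq N adj K)

include hC hK

/-- A tuple that works for a good component. -/
theorem witness {ub qb qb' rb : ℕ} (hB : Quad pos K ub qb qb' rb) {ua qa qa' ra z : ℕ}
    (hg : Good N adj pos K ub qb qb' rb ua qa qa' ra z)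
    (hpos : 0 < kd N adj K [ua, qa, qa', ra, ub, qb, qb', rb] z) :
    ∃ P : List ℕ, P.length = 4 ∧ (∀ p ∈ P, p < N) ∧
      (∀ p ∈ P, Co N adj [ua, qa, qa', ra, ub, qb, qb', rb] z p) ∧
      (∀ x ∈ P, ∀ y ∈ P, x ≠ y → adj x y) ∧
      ∀ T, Tab N adj [ub, qb, qb', rb] T →
        (∀ u q q' r j, Good N adj pos K ub qb qb' rb u q q' r j →
          kd N adj K [u, q, q', r, ub, qb, qb', rb] j <
            kd N adj K [ua, qa, qa', ra, ub, qb, qb', rb] z →
          kd N adj K [u, q, q', r, ub, qb, qb', rb] j ≤ sz N (T [u, q, q', r] j)) →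
        kd N adj K [ua, qa, qa', ra, ub, qb, qb', rb] z ≤
          sz N (Cand N adj [ub, qb, qb', rb] T P
            (Co N adj [ua, qa, qa', ra, ub, qb, qb', rb] z) []) := by
  set KD := K.filter (Co N adj [ua, qa, qa', ra, ub, qb, qb', rb] z) with hKD
  have hkd : kd N adj K [ua, qa, qa', ra, ub, qb, qb', rb] z = KD.card := rfl
  rw [hkd] at hpos ⊢
  have hKDK : ∀ x ∈ KD, x ∈ K ∧ Co N adj [ua, qa, qa', ra, ub, qb, qb', rb] z x := fun x hx =>
    Finset.mem_filter.1 hx
  rcases Nat.lt_or_ge KD.card 4 with hlt | hge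
  · obtain ⟨f, hf1, hf2⟩ := cover (Finset.card_pos.1 hpos) (n := 4) hlt.le
    refine ⟨List.ofFn f, by simp, fun p hp => ?_, fun p hp => ?_, fun x hx y hy hxy => ?_,
      fun T hT _ => ?_⟩
    · obtain ⟨i, rfl⟩ := (List.mem_ofFn' _ _).1 hp
      exact hK.lt (hKDK _ (hf1 i)).1
    · obtain ⟨i, rfl⟩ := (List.mem_ofFn' _ _).1 hp
      exact (hKDK _ (hf1 i)).2
    · obtain ⟨i, rfl⟩ := (List.mem_ofFn' _ _).1 hx
      obtain ⟨i', rfl⟩ := (List.mem_ofFn' _ _).1 hy
      exact hK.pair (hKDK _ (hf1 i)).1 (hKDK _ (hf1 i')).1 hxy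
    · apply card_le_sz
      intro x hx
      obtain ⟨i, rfl⟩ := hf2 x hx
      refine ⟨hK.lt (hKDK _ hx).1, .inr (.inl ?_)⟩
      exact (List.mem_ofFn' _ _).2 ⟨i, rfl⟩
  · obtain ⟨u, q, q', r, hu, hq, hq', hr, h1, h2, h3, hfirst⟩ :=
      first4 (fun x hx y hy h => hC.inj (hK.lt hx) (hK.lt hy) h) (Finset.filter_subset _ _) hge
    have hQ : Quad pos K u q q' r := ⟨(hKDK _ hu).1, (hKDK _ hq).1, (hKDK _ hq').1,
      (hKDK _ hr).1, h1, h2, h3⟩
    have hmemP : ∀ p ∈ [u, q, q', r], p ∈ KD := by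
      intro p hp
      simp only [List.mem_cons, List.not_mem_nil, or_false] at hp
      rcases hp with rfl | rfl | rfl | rfl <;> assumption
    have hfirst' : ∀ p ∈ K, Co N adj [ua, qa, qa', ra, ub, qb, qb', rb] z p →
        p ∉ [u, q, q', r] → pos r < pos p := fun p hp hc hn =>
      hfirst p (Finset.mem_filter.2 ⟨hp, hc⟩) hn
    refine ⟨[u, q, q', r], rfl, fun p hp => hK.lt (hKDK _ (hmemP p hp)).1,
      fun p hp => (hKDK _ (hmemP p hp)).2, fun x hx y hy hxy =>
        hK.pair (hKDK _ (hmemP x hx)).1 (hKDK _ (hmemP y hy)).1 hxy, fun T hT hLB => ?_⟩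
    set Rest := KD \ [u, q, q', r].toFinset with hRest
    have hRest' : ∀ x ∈ Rest, x ∈ KD ∧ x ∉ [u, q, q', r] := by
      intro x hx
      rw [hRest, Finset.mem_sdiff, List.mem_toFinset] at hx
      exact hx
    have hadjP : ∀ x ∈ Rest, ∀ s ∈ [u, q, q', r], adj x s := by
      intro x hx s hs
      obtain ⟨h1, h2⟩ := hRest' x hx
      exact hK.pair (hKDK _ h1).1 (hKDK _ (hmemP s hs)).1 (fun h => h2 (h ▸ hs))
    have hsub : ∀ x ∈ Rest, ∀ y, Co N adj [u, q, q', r, ub, qb, qb', rb] x y →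
        Co N adj [ua, qa, qa', ra, ub, qb, qb', rb] z y ∧ ∀ s ∈ [u, q, q', r], adj y s := by
      intro x hx y hy
      exact step_sub hC hK hB hg hQ (hKDK _ hu).2 hfirst' (hKDK _ (hRest' x hx).1).2
        (hadjP x hx) hy
    have hbig := cand_size hC.toGr hT (P := [u, q, q', r])
      (R := Co N adj [ua, qa, qa', ra, ub, qb, qb', rb] z) (E := []) (by simp)
      (by
        intro x hx
        exact hK.lt (hKDK _ (hmemP x (by simpa using hx))).1)
      (Rest := Rest) (fun x hx => (hKDK _ (hRest' x hx).1).1)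
      (by
        intro x hx
        refine ⟨hK.lt (hKDK _ (hRest' x hx).1).1, fun s hs => ?_⟩
        rcases List.mem_append.1 hs with hs | hs
        · exact hadjP x hx s hs
        · apply (hKDK _ (hRest' x hx).1).2.right.2
          simp only [List.mem_cons, List.not_mem_nil, or_false] at hs ⊢
          tauto)
      (fun x hx y hy => (hsub x hx y hy).1)
      (by
        intro x hx j hj
        obtain ⟨g1, g2⟩ := hsub x hx j hj
        have hgood := step_good hC hK hB hg hQ (hKDK _ hu).2 (hKDK _ hr).2 hfirst' g1 g2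
        refine hLB u q q' r j hgood ?_
        apply Finset.card_lt_card
        rw [Finset.ssubset_iff_of_subset]
        · refine ⟨u, hu, fun h => ?_⟩
          have := (Finset.mem_filter.1 h).2.right.2 u (by simp)
          exact hC.irr this
        · intro y hy
          obtain ⟨y1, y2⟩ := Finset.mem_filter.1 hy
          exact Finset.mem_filter.2 ⟨y1, (hsub x hx y (Co.trans hj y2)).1⟩)
    refine le_trans ?_ hbig
    simp only [List.nil_append]
    rw [hRest]
    have := Finset.card_le_card_sdiff_add_card (t := [u, q, q', r].toFinset) (s := KD)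
    omega

/-- Tuples that work at the top level. -/
theorem witness_top (hK0 : K.Nonempty) :
    ∃ B P : List ℕ, B.length = 4 ∧ P.length = 4 ∧ (∀ p ∈ B ++ P, p < N) ∧
      (∀ x ∈ B ++ P, ∀ y ∈ B ++ P, x ≠ y → adj x y) ∧
      ∀ T, Tab N adj B T →
        (∀ ub qb qb' rb, B = [ub, qb, qb', rb] → Quad pos K ub qb qb' rb → ∀ u q q' r j,
          Good N adj pos K ub qb qb' rb u q q' r j →
          kd N adj K [u, q, q', r, ub, qb, qb', rb] j ≤ sz N (T [u, q, q', r] j)) →
        K.card ≤ sz N (Cand N adj B T P (fun _ => True) B) := by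
  rcases Nat.lt_or_ge K.card 8 with hlt | hge
  · obtain ⟨f, hf1, hf2⟩ := cover hK0 (n := 4 + 4) hlt.le
    have hmem : ∀ x, x ∈ (List.ofFn fun i : Fin 4 => f (Fin.castAdd 4 i)) ++
        (List.ofFn fun i : Fin 4 => f (Fin.natAdd 4 i)) ↔ x ∈ K := by
      intro x
      rw [List.mem_append, List.mem_ofFn', List.mem_ofFn']
      constructor
      · rintro (⟨i, rfl⟩ | ⟨i, rfl⟩) <;> exact hf1 _
      · intro hx
        obtain ⟨i, rfl⟩ := hf2 x hx
        induction i using Fin.addCases with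
        | left i => exact .inl ⟨i, rfl⟩
        | right i => exact .inr ⟨i, rfl⟩
    refine ⟨List.ofFn fun i : Fin 4 => f (Fin.castAdd 4 i),
      List.ofFn fun i : Fin 4 => f (Fin.natAdd 4 i), by simp, by simp,
      fun p hp => hK.lt ((hmem p).1 hp), fun x hx y hy hxy =>
        hK.pair ((hmem x).1 hx) ((hmem y).1 hy) hxy, fun T hT _ => ?_⟩
    apply card_le_sz
    intro x hx
    refine ⟨hK.lt hx, ?_⟩
    rcases List.mem_append.1 ((hmem x).2 hx) with h | h
    · exact .inl h
    · exact .inr (.inl h)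
  · have hinj : ∀ x ∈ K, ∀ y ∈ K, pos x = pos y → x = y := fun x hx y hy h =>
      hC.inj (hK.lt hx) (hK.lt hy) h
    obtain ⟨u, q, q', r, hu, hq, hq', hr, h1, h2, h3, hfirst⟩ :=
      first4 hinj (Finset.Subset.refl K) (by omega)
    have hQ : Quad pos K u q q' r := ⟨hu, hq, hq', hr, h1, h2, h3⟩
    set K' := K \ [u, q, q', r].toFinset with hK'
    have hcard' : 4 ≤ K'.card := by
      have e1 : K.card ≤ K'.card + [u, q, q', r].toFinset.card :=
        Finset.card_le_card_sdiff_add_card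
      have e2 : ([u, q, q', r].toFinset).card ≤ 4 := List.toFinset_card_le _
      omega
    -- last four elements: first four for the reversed order
    obtain ⟨M, hM⟩ : ∃ M, ∀ x ∈ K, pos x ≤ M := ⟨K.sup pos, fun x hx => Finset.le_sup hx⟩
    obtain ⟨rb, qb', qb, ub, hrb, hqb', hqb, hub, g1, g2, g3, hlast⟩ :=
      first4 (pos := fun x => M - pos x) (K := K) (fun x hx y hy h => hinj x hx y hy (by
        have := hM x hx; have := hM y hy; omega)) Finset.sdiff_subset hcard'
    have hK'mem : ∀ x ∈ K', x ∈ K ∧ x ∉ [u, q, q', r] := by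
      intro x hx
      rw [hK', Finset.mem_sdiff, List.mem_toFinset] at hx
      exact hx
    have hB : Quad pos K ub qb qb' rb := ⟨(hK'mem _ hub).1, (hK'mem _ hqb).1, (hK'mem _ hqb').1,
      (hK'mem _ hrb).1, by omega, by omega, by omega⟩
    have hsep : pos r < pos ub := hfirst ub (hK'mem _ hub).1 (hK'mem _ hub).2
    have hmid : ∀ p ∈ K, p ∉ [u, q, q', r, ub, qb, qb', rb] →
        pos r < pos p ∧ pos p < pos ub := by
      intro p hp hn
      simp only [List.mem_cons, List.not_mem_nil, or_false, not_or] at hn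
      have hn1 : p ∉ [u, q, q', r] := by
        simp only [List.mem_cons, List.not_mem_nil, or_false, not_or]; tauto
      have hn2 : p ∉ [rb, qb', qb, ub] := by
        simp only [List.mem_cons, List.not_mem_nil, or_false, not_or]; tauto
      refine ⟨hfirst p hp hn1, ?_⟩
      have hpK' : p ∈ K' := by
        rw [hK', Finset.mem_sdiff, List.mem_toFinset]
        exact ⟨hp, hn1⟩
      have := hlast p hpK' hn2
      omega
    have hmem8 : ∀ p ∈ [ub, qb, qb', rb] ++ [u, q, q', r], p ∈ K := by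
      intro p hp
      simp only [List.cons_append, List.nil_append, List.mem_cons, List.not_mem_nil,
        or_false] at hp
      rcases hp with rfl | rfl | rfl | rfl | rfl | rfl | rfl | rfl
      exacts [hB.hu, hB.hq, hB.hq', hB.hr, hu, hq, hq', hr]
    refine ⟨[ub, qb, qb', rb], [u, q, q', r], rfl, rfl, fun p hp => hK.lt (hmem8 p hp),
      fun x hx y hy hxy => hK.pair (hmem8 x hx) (hmem8 y hy) hxy, fun T hT hLB => ?_⟩
    have hLB' := hLB ub qb qb' rb rfl hB
    set Rest := K \ ([ub, qb, qb', rb] ++ [u, q, q', r]).toFinset with hRest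
    have hRest' : ∀ x ∈ Rest, x ∈ K ∧ x ∉ [ub, qb, qb', rb] ++ [u, q, q', r] := by
      intro x hx
      rw [hRest, Finset.mem_sdiff, List.mem_toFinset] at hx
      exact hx
    have hbig := cand_size hC.toGr hT (P := [u, q, q', r])
      (R := fun _ => True) (E := [ub, qb, qb', rb]) (fun x hx => hx)
      (fun x hx => hK.lt (hmem8 x hx))
      (Rest := Rest) (fun x hx => (hRest' x hx).1)
      (by
        intro x hx
        refine ⟨hK.lt (hRest' x hx).1, fun s hs => ?_⟩
        have hs' : s ∈ [ub, qb, qb', rb] ++ [u, q, q', r] := by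
          rw [List.mem_append] at hs ⊢
          exact hs.symm
        exact hK.pair (hRest' x hx).1 (hmem8 s hs') (fun h => (hRest' x hx).2 (h ▸ hs')))
      (fun x hx y hy => trivial)
      (by
        intro x hx j hj
        exact hLB' u q q' r j (top_good hC hK hQ hB hsep hmid j))
    refine le_trans ?_ hbig
    rw [hRest]
    have := Finset.card_le_card_sdiff_add_card
      (t := ([ub, qb, qb', rb] ++ [u, q, q', r]).toFinset) (s := K)
    omega

end Witness

end Pool.Agent.Lib.MP_df76ee_lc
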