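import Pool.Agent.Lib.PolyTM.Rules
import Pool.Agent.Lib.MP_df76ee_lc.Table

/-! # The program -/

namespace Pool.Agent.Lib.MP_df76ee_lc

open Pool.Agent.Lib.PolyTM

/-- Index variables. -/
inductive Va
  | b (i : Fin 4)
  | q (i : Fin 4)
  | p (i : Fin 4)
  | z
  | x
  | j
  | i
  | y
  | r
  | r2
  deriving DecidableEq, Fintype

/-- Arrays. -/
inductive Wa
  | adj
  | D
  | D2
  | best
  | C
  | G
  deriving DecidableEq, Fintype

def ar : Wa → ℕ
  | .adj => 2
  | .D => 6
  | .D2 => 6
  | .best => 6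
  | .C => 1
  | .G => 1

abbrev F := Fml Va Wa
abbrev S := Stmt Va Wa

def bs : List Va := [.b 0, .b 1, .b 2, .b 3]
def qs : List Va := [.q 0, .q 1, .q 2, .q 3]
def ps : List Va := [.p 0, .p 1, .p 2, .p 3]

def tru (v : Va) : F := Fml.tt (.arr .adj [v, v])
def fls (v : Va) : F := Fml.ff (.arr .adj [v, v])

/-- `v` is adjacent to all variables of the list. -/
def inN (v : Va) (l : List Va) : F := Fml.conj (tru v) (l.map fun s => .arr .adj [v, s])

/-- `v` is equal to some variable of the list. -/
def memF (v : Va) (l : List Va) : F := Fml.disj (fls v) (l.map fun s => Fml.eq v s)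

/-- All pairs of variables of the list are equal or adjacent. -/
def aeqAll (l : List Va) : F :=
  Fml.conj (tru (.b 0)) (((l.product l).filter fun s => decide (s.1 ≠ s.2)).map fun s =>
    Fml.or (Fml.eq s.1 s.2) (.arr .adj [s.1, s.2]))

/-- Co-components of the common neighbourhoods: reflexive non-adjacency … -/
def initD : S := fill .D (qs ++ [Va.j, Va.y])
  (.and (inN .j (qs ++ bs)) (.and (inN .y (qs ++ bs)) (.not (.arr .adj [Va.j, Va.y]))))

/-- … and its transitive closure (Warshall). -/
def warshall : S := .loop .r (.seq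
  (fill .D2 (qs ++ [Va.j, Va.y]) (Fml.or (.arr .D (qs ++ [Va.j, Va.y]))
    (.and (.arr .D (qs ++ [Va.j, Va.r])) (.arr .D (qs ++ [Va.r, Va.y])))))
  (fill .D (qs ++ [Va.j, Va.y]) (.arr .D2 (qs ++ [Va.j, Va.y]))))

def initBest : S := fill .best (qs ++ [Va.z, Va.x]) (fls .x)

/-- Membership of `x` in the candidate set. -/
def candF (P E : List Va) (reg : F) : F :=
  Fml.or (memF .x E) (Fml.or (memF .x P) (.ex .j (.and (.arr .best (P ++ [Va.j, Va.x]))
    (.and (.not (.ex .i (.and (Fml.lt .i .j) (.arr .D (P ++ [Va.j, Va.i]))))) reg))))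

/-- The component of `j` for `ps` lies in the component of `z` for `qs`. -/
def regF : F := .not (.ex .y (.and (.arr .D (ps ++ [Va.j, Va.y])) (.not (.arr .D (qs ++ [Va.z, Va.y])))))

/-- The tuple `ps` is a clique inside the component of `z` for `qs`. -/
def okp : F := .and (Fml.conj (tru .z) (ps.map fun p => .arr .D (qs ++ [Va.z, p]))) (aeqAll ps)

def body1 : S := .ite (.fml okp)
  (.seq (fill .C [Va.x] (candF ps [] regF))
    (.ite (.more .x (.arr .C [Va.x]) (.arr .best (qs ++ [Va.z, Va.x])))
      (loops [Va.x] (.wr .best ((qs ++ [Va.z]) ++ [Va.x]) (.arr .C [Va.x]))) .skip)) .skip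

def round : S := loops (qs ++ ([Va.z] ++ ps)) body1

def body2 : S := .ite (.fml (aeqAll (bs ++ qs)))
  (.seq (fill .C [Va.x] (candF qs bs (tru .x)))
    (.ite (.more .x (.arr .C [Va.x]) (.arr .G [Va.x])) (fill .G [Va.x] (.arr .C [Va.x])) .skip)) .skip

def inner : S := .seq initD (.seq warshall (.seq initBest (.seq (.loop .r2 round)
  (loops qs body2))))

/-- The whole program. -/
def prog : S := .seq (fill .G [Va.x] (fls .x)) (.seq (loops bs inner)
  (.loop .x (.emit (.arr .G [Va.x]))))

theorem prog_wf : prog.wf ar [] = true := by decide +kernel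

end Pool.Agent.Lib.MP_df76ee_lc
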