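import Pool.Agent.Lib.MP_df76ee_lc.Final
import Pool.Agent.Lib.MP_df76ee_lc.Geom

/-! # The result -/

namespace Pool.Agent.Lib.MP_df76ee_lc

open Turing

theorem sixPoint {n : ℕ} (P : SimplePolygon n) : SixPoint P where
  last _ _ _ _ _ _ h1 h2 h3 h4 h5 ab ac ad bc bd cd xa xb xc xd ya yb yc yd :=
    P.spl_last h1 h2 h3 h4 h5 ab ac ad bc bd cd xa xb xc xd ya yb yc yd
  first _ _ _ _ _ _ h1 h2 h3 h4 h5 ab ac ad bc bd cd xa xb xc xd ya yb yc yd :=
    P.spl_first h1 h2 h3 h4 h5 ab ac ad bc bd cd xa xb xc xd ya yb yc yd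

theorem maxClique_polytime :
    ∃ (f : Graph → List Bool) (M : TM2ComputableInPolyTime Graph.encode id f),
      (∀ k, Finite (M.tm.Γ k)) ∧
      ∀ I : Graph, I.IsVisibilityGraph →
        ∃ K : Finset (Fin I.n), I.G.IsMaximumClique K ∧ f I = I.vector K :=
  main_of_geometry fun _ P => sixPoint P

end Pool.Agent.Lib.MP_df76ee_lc
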