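import Pool.Agent.Lib.MP_df76ee_lc.Spec

/-! # The rounds of the dynamic programme -/

namespace Pool.Agent.Lib.MP_df76ee_lc

open Pool.Agent.Lib.PolyTM Function

variable {N : ℕ} {A : ℕ → ℕ → Prop}

theorem count_eq {a : Arr Wa} (v : Va) (φ : F) (e : Va → ℕ) :
    φ.count N a v e = sz N (fun t => φ.eval N a (update e v t) = true) := by
  unfold Fml.count sz
  congr

theorem okt_of_mem {B : List ℕ} (h1 : B.length = 4) (h2 : ∀ b ∈ B, b < N) : OKt N 4 B := ⟨h1, h2⟩

theorem tb_iff {a : Arr Wa} {Q : List ℕ} (hQ : OKt N 4 Q) {z x : ℕ} (hz : z < N) (hx : x < N) :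
    Tb N a Q z x ↔ a .best (Q ++ [z, x]) = true :=
  ⟨fun h => h.2.2.2, fun h => ⟨hQ, hz, hx, h⟩⟩

theorem map_update_of_notMem {e : Va → ℕ} {l : List Va} {v : Va} {t : ℕ} (h : v ∉ l) :
    l.map (update e v t) = l.map e :=
  List.map_congr_left fun w hw => update_of_ne (fun hc : w = v => h (hc ▸ hw)) _ _

theorem eval_candF {B : List ℕ} {a : Arr Wa} (hD : DOK N A B a) {e : Va → ℕ} {P E : List Va}
    {reg : F} {R : ℕ → Prop} (hjP : Va.j ∉ P) (hiP : Va.i ∉ P)
    (hP : OKt N 4 (P.map e)) (hx : e .x < N)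
    (hreg : ∀ t < N, (reg.eval N a (update e .j t) = true ↔
      ∀ y < N, Co N A (P.map e ++ B) t y → R y)) :
    (candF P E reg).eval N a e = true ↔
      Cand N A B (Tb N a) (P.map e) R (E.map e) (e .x) := by
  rw [candF, Fml.eval_or, Fml.eval_or, eval_memF, eval_memF, Fml.eval_ex]
  unfold Cand
  apply or_congr Iff.rfl
  apply or_congr Iff.rfl
  apply exists_congr
  intro t
  apply and_congr_right
  intro ht
  have e1 : update e .j t .x = e .x := rfl
  have e2 : update e .j t .j = t := rfl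
  rw [Fml.eval_and, Fml.eval_and, Fml.eval_not, Fml.eval_ex, hreg t ht, Fml.eval_arr,
    List.map_append, map_update_of_notMem hjP, List.map_cons, List.map_cons, List.map_nil,
    e1, e2, tb_iff hP ht hx]
  apply and_congr Iff.rfl
  apply and_congr _ Iff.rfl
  have e3 : ∀ u, update (update e .j t) .i u .j = t := fun u => rfl
  have e4 : ∀ u, update (update e .j t) .i u .i = u := fun u => rfl
  constructor
  · intro h i hi hc
    have hiN : i < N := by omega
    apply h
    refine ⟨i, hiN, ?_⟩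
    rw [Fml.eval_and, Fml.eval_lt, Fml.eval_arr, List.map_append, map_update_of_notMem hiP,
      map_update_of_notMem hjP, List.map_cons, List.map_cons, List.map_nil, e3, e4]
    exact ⟨hi, (hD _ hP t ht i hiN).2 hc⟩
  · rintro h ⟨i, hiN, hc⟩
    rw [Fml.eval_and, Fml.eval_lt, Fml.eval_arr, List.map_append, map_update_of_notMem hiP,
      map_update_of_notMem hjP, List.map_cons, List.map_cons, List.map_nil, e3, e4] at hc
    exact h i hc.1 ((hD _ hP t ht i hiN).1 hc.2)

theorem eval_regF {B : List ℕ} {a : Arr Wa} (hD : DOK N A B a) {e : Va → ℕ}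
    (hP : OKt N 4 (ps.map e)) (hQ : OKt N 4 (qs.map e)) (hz : e .z < N) :
    ∀ t < N, (regF.eval N a (update e .j t) = true ↔
      ∀ y < N, Co N A (ps.map e ++ B) t y → Co N A (qs.map e ++ B) (e .z) y) := by
  intro t ht
  rw [regF, Fml.eval_not, Fml.eval_ex]
  have e3 : ∀ u, update (update e .j t) .y u .j = t := fun u => rfl
  have e4 : ∀ u, update (update e .j t) .y u .y = u := fun u => rfl
  have e5 : ∀ u, update (update e .j t) .y u .z = e .z := fun u => rfl
  have e6 : ∀ u, ps.map (update (update e .j t) .y u) = ps.map e := fun u => rfl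
  have e7 : ∀ u, qs.map (update (update e .j t) .y u) = qs.map e := fun u => rfl
  constructor
  · intro h y hy hc
    by_contra hn
    apply h
    refine ⟨y, hy, ?_⟩
    rw [Fml.eval_and, Fml.eval_not, Fml.eval_arr, Fml.eval_arr, List.map_append,
      List.map_append, List.map_cons, List.map_cons, List.map_nil, List.map_cons, List.map_cons,
      List.map_nil, e3, e4, e5, e6, e7]
    exact ⟨(hD _ hP t ht y hy).2 hc, fun h' => hn ((hD _ hQ _ hz y hy).1 h')⟩
  · rintro h ⟨y, hy, hc⟩
    rw [Fml.eval_and, Fml.eval_not, Fml.eval_arr, Fml.eval_arr, List.map_append,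
      List.map_append, List.map_cons, List.map_cons, List.map_nil, List.map_cons, List.map_cons,
      List.map_nil, e3, e4, e5, e6, e7] at hc
    exact hc.2 ((hD _ hQ _ hz y hy).2 (h y hy ((hD _ hP t ht y hy).1 hc.1)))

theorem eval_okp {B : List ℕ} {a : Arr Wa} (hA : AdjOK N A a) (hD : DOK N A B a) {e : Va → ℕ}
    (hP : OKt N 4 (ps.map e)) (hQ : OKt N 4 (qs.map e)) (hz : e .z < N) :
    okp.eval N a e = true ↔ (∀ p ∈ ps.map e, Co N A (qs.map e ++ B) (e .z) p) ∧
      ∀ s ∈ ps.map e, ∀ t ∈ ps.map e, s ≠ t → A s t := by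
  rw [okp, Fml.eval_and, eval_aeqAll hA hP.2, Fml.eval_conj]
  simp only [eval_tru, and_true, List.mem_map, forall_exists_index, and_imp,
    forall_apply_eq_imp_iff₂, Fml.eval_arr, List.map_append, List.map_cons, List.map_nil]
  apply and_congr_left
  intro _
  apply forall_congr'
  intro p
  apply imp_congr_right
  intro hp
  exact hD _ hQ _ hz _ (hP.2 _ (List.mem_map_of_mem hp))

/-- Filling the array `C` with a candidate set. -/
theorem fillC_spec {φ : F} (hu : Wa.C ∉ φ.uses) {e : Va → ℕ} {σ : AS Wa} {X : ℕ → Prop}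
    (hφ : ∀ t < N, (φ.eval N σ.a (update e .x t) = true ↔ X t)) :
    ((fill .C [Va.x] φ).run N e σ).o = σ.o ∧
      (∀ w, w ≠ .C → ((fill .C [Va.x] φ).run N e σ).a w = σ.a w) ∧
      ∀ t < N, (((fill .C [Va.x] φ).run N e σ).a .C [t] = true ↔ X t) := by
  obtain ⟨h1, h2, h3⟩ := run_fill (N := N) Wa.C [Va.x] φ (by decide) hu e σ
  refine ⟨h1, h2, fun t ht => ?_⟩
  rw [h3 [t] (okt_one ht)]
  exact hφ t ht

theorem sz_congr {X Y : ℕ → Prop} (h : ∀ t < N, (X t ↔ Y t)) : sz N X = sz N Y :=
  le_antisymm (sz_mono fun t ht => (h t ht).1) (sz_mono fun t ht => (h t ht).2)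

theorem body1_spec (hG : Gr A) {B : List ℕ} {e : Va → ℕ} {σ : AS Wa} (hA : AdjOK N A σ.a)
    (hD : DOK N A B σ.a) (hT : Tab N A B (Tb N σ.a))
    (hP : OKt N 4 (ps.map e)) (hQ : OKt N 4 (qs.map e)) (hz : e .z < N) :
    (body1.run N e σ).o = σ.o ∧
      (∀ w, w ≠ .C → w ≠ .best → (body1.run N e σ).a w = σ.a w) ∧
      Tab N A B (Tb N (body1.run N e σ).a) ∧
      (∀ Q z, sz N (Tb N σ.a Q z) ≤ sz N (Tb N (body1.run N e σ).a Q z)) ∧
      ((∀ p ∈ ps.map e, Co N A (qs.map e ++ B) (e .z) p) →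
        (∀ s ∈ ps.map e, ∀ t ∈ ps.map e, s ≠ t → A s t) →
        sz N (Cand N A B (Tb N σ.a) (ps.map e) (Co N A (qs.map e ++ B) (e .z)) []) ≤
          sz N (Tb N (body1.run N e σ).a (qs.map e) (e .z))) := by
  have hrun : body1.run N e σ = if okp.eval N σ.a e = true then
      (Stmt.ite (.more .x (.arr .C [Va.x]) (.arr .best (qs ++ [Va.z, Va.x])))
      (loops [Va.x] (.wr .best ((qs ++ [Va.z]) ++ [Va.x]) (.arr .C [Va.x]))) .skip).run N e
        ((fill .C [Va.x] (candF ps [] regF)).run N e σ) else σ := by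
    simp only [body1, Stmt.run, Cond.eval]
  by_cases hok : okp.eval N σ.a e = true
  swap
  · rw [hrun, if_neg hok]
    refine ⟨rfl, fun _ _ _ => rfl, hT, fun _ _ => le_rfl, fun h1 h2 => ?_⟩
    exact absurd ((eval_okp hA hD hP hQ hz).2 ⟨h1, h2⟩) hok
  rw [if_pos hok] at hrun
  have hok' := (eval_okp hA hD hP hQ hz).1 hok
  set X := Cand N A B (Tb N σ.a) (ps.map e) (Co N A (qs.map e ++ B) (e .z)) [] with hX
  obtain ⟨f1, f2, f3⟩ := fillC_spec (N := N) (φ := candF ps [] regF) (by decide) (e := e)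
    (σ := σ) (X := X) (by
      intro t ht
      have := eval_candF (N := N) (A := A) (B := B) hD (e := update e .x t) (P := ps) (E := [])
        (reg := regF) (R := Co N A (qs.map e ++ B) (e .z)) (by decide) (by decide) hP ht
        (by
          intro u hu
          have := eval_regF (N := N) (A := A) (B := B) hD (e := update e .x t) hP hQ hz u hu
          exact this)
      exact this)
  set σ1 := (fill .C [Va.x] (candF ps [] regF)).run N e σ with hσ1
  have hTb1 : Tb N σ1.a = Tb N σ.a := by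
    funext Q z x
    unfold Tb
    rw [f2 .best (by decide)]
  have hcond : (Cond.more Va.x (.arr Wa.C [Va.x]) (.arr .best (qs ++ [Va.z, Va.x]))).eval N σ1.a e
      = true ↔ sz N (Tb N σ.a (qs.map e) (e .z)) < sz N X := by
    simp only [Cond.eval, decide_eq_true_eq, count_eq]
    have s1 : sz N (fun t => (Fml.arr Wa.best (qs ++ [Va.z, Va.x])).eval N σ1.a
        (update e Va.x t) = true) = sz N (Tb N σ.a (qs.map e) (e .z)) := by
      apply sz_congr
      intro t ht
      rw [tb_iff hQ hz ht, Fml.eval_arr, f2 .best (by decide)]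
      rfl
    have s2 : sz N (fun t => (Fml.arr Wa.C [Va.x]).eval N σ1.a
        (update e Va.x t) = true) = sz N X := by
      apply sz_congr
      intro t ht
      rw [← f3 t ht]
      rfl
    rw [s1, s2]
  by_cases hc : sz N (Tb N σ.a (qs.map e) (e .z)) < sz N X
  swap
  · have hfin : body1.run N e σ = σ1 := by
      rw [hrun]
      have : ¬(Cond.more Va.x (.arr Wa.C [Va.x]) (.arr .best (qs ++ [Va.z, Va.x]))).eval N σ1.a e
        = true := fun h => hc (hcond.1 h)
      simp only [Stmt.run, this, Bool.false_eq_true, if_false]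
    rw [hfin, hTb1]
    exact ⟨f1, fun w h1 _ => f2 w h1, hT, fun _ _ => le_rfl, fun _ _ => not_lt.1 hc⟩
  have hfin : body1.run N e σ =
      (loops [Va.x] (.wr .best ((qs ++ [Va.z]) ++ [Va.x]) (.arr .C [Va.x]))).run N e σ1 := by
    rw [hrun]
    have : (Cond.more Va.x (.arr Wa.C [Va.x]) (.arr .best (qs ++ [Va.z, Va.x]))).eval N σ1.a e
        = true := hcond.2 hc
    simp only [Stmt.run, this, if_true]
  obtain ⟨g1, g2, g3, g4⟩ := run_block (N := N) Wa.best (qs ++ [Va.z]) [Va.x] (.arr .C [Va.x])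
    (by decide) (by decide) (by decide) e σ1
  rw [← hfin] at g1 g2 g3 g4
  set σ2 := body1.run N e σ with hσ2
  have emap : (qs ++ [Va.z]).map e = qs.map e ++ [e Va.z] := by
    rw [List.map_append]; rfl
  have hTb2 : ∀ Q z x, Tb N σ2.a Q z x ↔
      if Q = qs.map e ∧ z = e .z then x < N ∧ X x else Tb N σ.a Q z x := by
    intro Q z x
    split
    · next h =>
      obtain ⟨rfl, rfl⟩ := h
      constructor
      · intro h
        refine ⟨h.2.2.1, ?_⟩
        have h4 := h.2.2.2
        have h5 := g3 [x] (okt_one h.2.2.1)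
        rw [emap, List.append_assoc] at h5
        change σ2.a .best (qs.map e ++ [e Va.z, x]) = σ1.a .C [x] at h5
        rw [h5, f3 x h.2.2.1] at h4
        exact h4
      · rintro ⟨hx, h⟩
        refine ⟨hQ, hz, hx, ?_⟩
        have h5 := g3 [x] (okt_one hx)
        rw [emap, List.append_assoc] at h5
        change σ2.a .best (qs.map e ++ [e Va.z, x]) = σ1.a .C [x] at h5
        rw [h5, f3 x hx]
        exact h
    · next h =>
      rw [← hTb1]
      unfold Tb
      apply and_congr_right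
      intro hQ'
      apply and_congr_right
      intro hz'
      apply and_congr_right
      intro hx'
      rw [g4 (Q ++ [z, x])]
      intro ts hts hc
      obtain ⟨t, rfl, ht⟩ := OKt.one hts
      rw [emap, List.append_assoc] at hc
      obtain ⟨h1, h2⟩ := List.append_inj hc (by rw [hQ'.1, hQ.1])
      simp only [List.cons_append, List.nil_append, List.cons.injEq, and_true] at h2
      exact h ⟨h1, h2.1⟩
  have hXsub : ∀ x, X x → Co N A (qs.map e ++ B) (e .z) x := by
    intro x hx
    rcases hx with h | h | ⟨j, _, h1, _, h3⟩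
    · simp at h
    · exact hok'.1 x h
    · exact h3 x h1.2.2.1 (hT.sub _ _ _ h1)
  have hXclq : ∀ x y, X x → X y → x ≠ y → A x y := fun x y hx hy hxy =>
    cand_clq hG hT (by simpa using hok'.2) (by simp) hx hy hxy
  refine ⟨g1.trans f1, fun w h1 h2 => (g2 w h2).trans (f2 w h1), ⟨?_, ?_⟩, ?_, ?_⟩
  · intro Q z x h
    rw [hTb2] at h
    split at h
    · next hq => rw [hq.1, hq.2]; exact hXsub x h.2
    · exact hT.sub _ _ _ h
  · intro Q z x y h h' hxy
    rw [hTb2] at h h'
    split at h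
    · next hq =>
      rw [if_pos hq] at h'
      exact hXclq x y h.2 h'.2 hxy
    · next hq =>
      rw [if_neg hq] at h'
      exact hT.clq _ _ _ _ h h' hxy
  · intro Q z
    by_cases hq : Q = qs.map e ∧ z = e .z
    · rw [hq.1, hq.2]
      refine hc.le.trans (sz_mono fun x hx h => ?_)
      rw [hTb2, if_pos ⟨rfl, rfl⟩]
      exact ⟨hx, h⟩
    · apply sz_mono
      intro x _ h
      rw [hTb2, if_neg hq]
      exact h
  · intro _ _
    apply sz_mono
    intro x hx h
    rw [hTb2, if_pos ⟨rfl, rfl⟩]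
    exact ⟨hx, h⟩

end Pool.Agent.Lib.MP_df76ee_lc
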