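import Pool.Agent.Lib.MP_df76ee_lc.Prog

/-! # Meaning of the formulas and of the preprocessing -/

namespace Pool.Agent.Lib.MP_df76ee_lc

open Pool.Agent.Lib.PolyTM Function

variable {N : ℕ} {A : ℕ → ℕ → Prop}

/-- The array `adj` holds the relation `A`. -/
def AdjOK (N : ℕ) (A : ℕ → ℕ → Prop) (a : Arr Wa) : Prop :=
  ∀ x < N, ∀ y < N, (a .adj [x, y] = true ↔ A x y)

/-- The array `D` holds the co-component relations. -/
def DOK (N : ℕ) (A : ℕ → ℕ → Prop) (B : List ℕ) (a : Arr Wa) : Prop :=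
  ∀ Q, OKt N 4 Q → ∀ j < N, ∀ y < N, (a .D (Q ++ [j, y]) = true ↔ Co N A (Q ++ B) j y)

/-- The table held by the array `best`. -/
def Tb (N : ℕ) (a : Arr Wa) (Q : List ℕ) (z x : ℕ) : Prop :=
  OKt N 4 Q ∧ z < N ∧ x < N ∧ a .best (Q ++ [z, x]) = true

theorem eval_tru {a : Arr Wa} {e : Va → ℕ} (v : Va) : (tru v).eval N a e = true :=
  Fml.eval_tt _

theorem eval_fls {a : Arr Wa} {e : Va → ℕ} (v : Va) : (fls v).eval N a e = false :=
  Fml.eval_ff _

theorem eval_inN {a : Arr Wa} (hA : AdjOK N A a) {e : Va → ℕ} {v : Va} (hv : e v < N)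
    {l : List Va} (hl : ∀ s ∈ l.map e, s < N) :
    (inN v l).eval N a e = true ↔ CN N A (l.map e) (e v) := by
  simp only [inN, Fml.eval_conj, eval_tru, and_true, List.mem_map, forall_exists_index, and_imp,
    forall_apply_eq_imp_iff₂, Fml.eval_arr, List.map_cons, List.map_nil, CN]
  constructor
  · intro h
    exact ⟨hv, fun s hs => (hA _ hv _ (hl _ (List.mem_map_of_mem hs))).1 (h s hs)⟩
  · intro h s hs
    exact (hA _ hv _ (hl _ (List.mem_map_of_mem hs))).2 (h.2 s hs)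

theorem eval_memF {a : Arr Wa} {e : Va → ℕ} {v : Va} {l : List Va} :
    (memF v l).eval N a e = true ↔ e v ∈ l.map e := by
  simp only [memF, Fml.eval_disj, eval_fls, Bool.false_eq_true, or_false, List.mem_map,
    exists_exists_and_eq_and, Fml.eval_eq]
  constructor
  · rintro ⟨s, hs, h⟩; exact ⟨s, hs, h.symm⟩
  · rintro ⟨s, hs, h⟩; exact ⟨s, hs, h.symm⟩

theorem eval_aeqAll {a : Arr Wa} (hA : AdjOK N A a) {e : Va → ℕ} {l : List Va}
    (hl : ∀ s ∈ l.map e, s < N) :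
    (aeqAll l).eval N a e = true ↔
      ∀ s ∈ l.map e, ∀ t ∈ l.map e, s ≠ t → A s t := by
  simp only [aeqAll, Fml.eval_conj, eval_tru, and_true]
  constructor
  · intro h s hs t ht hst
    obtain ⟨s', hs', rfl⟩ := List.mem_map.1 hs
    obtain ⟨t', ht', rfl⟩ := List.mem_map.1 ht
    have hne : s' ≠ t' := fun hc => hst (by rw [hc])
    have := h _ (List.mem_map_of_mem (a := (s', t')) (List.mem_filter.2
      ⟨List.mem_product.2 ⟨hs', ht'⟩, by simpa using hne⟩))
    rw [Fml.eval_or, Fml.eval_eq, Fml.eval_arr] at this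
    rcases this with h1 | h1
    · exact absurd h1 hst
    · exact (hA _ (hl _ hs) _ (hl _ ht)).1 h1
  · intro h φ hφ
    obtain ⟨⟨s', t'⟩, hst, rfl⟩ := List.mem_map.1 hφ
    obtain ⟨h1, _⟩ := List.mem_filter.1 hst
    obtain ⟨hs', ht'⟩ := List.mem_product.1 h1
    have hs := List.mem_map_of_mem (f := e) hs'
    have ht := List.mem_map_of_mem (f := e) ht'
    rw [Fml.eval_or, Fml.eval_eq, Fml.eval_arr]
    by_cases hc : e s' = e t'
    · exact .inl hc
    · exact .inr ((hA _ (hl _ hs) _ (hl _ ht)).2 (h _ hs _ ht hc))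

/-- Environment facts inside the loops over `qs`, `j`, `y`. -/
theorem env_jy (e : Va → ℕ) {Q : List ℕ} (hQ : OKt N 4 Q) (j y : ℕ) :
    qs.map (upds e (qs ++ [Va.j, Va.y]) (Q ++ [j, y])) = Q ∧
      upds e (qs ++ [Va.j, Va.y]) (Q ++ [j, y]) .j = j ∧
      upds e (qs ++ [Va.j, Va.y]) (Q ++ [j, y]) .y = y ∧
      bs.map (upds e (qs ++ [Va.j, Va.y]) (Q ++ [j, y])) = bs.map e ∧
      upds e (qs ++ [Va.j, Va.y]) (Q ++ [j, y]) .r = e .r := by
  obtain ⟨h1, h2⟩ := env_split e qs [Va.j, Va.y] (by decide) Q [j, y] hQ.1 rfl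
  simp only [List.map_cons, List.map_nil, List.cons.injEq, and_true] at h2
  exact ⟨h1, h2.1, h2.2, map_upds_of_disj e _ _ _ (by decide), upds_notMem e _ _ (by decide)⟩

theorem initD_spec {B : List ℕ} (hB : OKt N 4 B) {e : Va → ℕ} (he : bs.map e = B) {σ : AS Wa}
    (hA : AdjOK N A σ.a) :
    (initD.run N e σ).o = σ.o ∧ (∀ w, w ≠ .D → (initD.run N e σ).a w = σ.a w) ∧
      ∀ Q, OKt N 4 Q → ∀ j < N, ∀ y < N,
        ((initD.run N e σ).a .D (Q ++ [j, y]) = true ↔ Gen N A (Q ++ B) j y) := by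
  obtain ⟨h1, h2, h3⟩ := run_fill (N := N) Wa.D (qs ++ [Va.j, Va.y])
    (.and (inN .j (qs ++ bs)) (.and (inN .y (qs ++ bs)) (.not (.arr .adj [Va.j, Va.y]))))
    (by decide) (by decide) e σ
  refine ⟨h1, h2, fun Q hQ j hj y hy => ?_⟩
  obtain ⟨e1, e2, e3, e4, _⟩ := env_jy e hQ j y
  change ((fill Wa.D (qs ++ [Va.j, Va.y]) _).run N e σ).a Wa.D (Q ++ [j, y]) = true ↔ _
  rw [h3 (Q ++ [j, y]) (hQ.append (okt_two hj hy))]
  set e' := upds e (qs ++ [Va.j, Va.y]) (Q ++ [j, y]) with he'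
  have em : (qs ++ bs).map e' = Q ++ B := by rw [List.map_append, e1, e4, he]
  have hlt : ∀ s ∈ (qs ++ bs).map e', s < N := by
    rw [em]; exact (hQ.append hB).2
  rw [Fml.eval_and, Fml.eval_and, Fml.eval_not, eval_inN hA (by rw [e2]; exact hj) hlt,
    eval_inN hA (by rw [e3]; exact hy) hlt, Fml.eval_arr, List.map_cons, List.map_cons,
    List.map_nil, e2, e3, em, hA j hj y hy]
  rfl

theorem warshall_spec {B : List ℕ} {e : Va → ℕ} {σ : AS Wa}
    (hD : ∀ Q, OKt N 4 Q → ∀ j < N, ∀ y < N,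
        (σ.a .D (Q ++ [j, y]) = true ↔ Gen N A (Q ++ B) j y)) :
    (warshall.run N e σ).o = σ.o ∧
      (∀ w, w ≠ .D → w ≠ .D2 → (warshall.run N e σ).a w = σ.a w) ∧
      DOK N A B (warshall.run N e σ).a := by
  have key := run_loop (N := N) (x := Va.r) (s := Stmt.seq
    (fill Wa.D2 (qs ++ [Va.j, Va.y]) (Fml.or (.arr .D (qs ++ [Va.j, Va.y]))
      (.and (.arr .D (qs ++ [Va.j, Va.r])) (.arr .D (qs ++ [Va.r, Va.y])))))
    (fill .D (qs ++ [Va.j, Va.y]) (.arr .D2 (qs ++ [Va.j, Va.y])))) (e := e)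
    (fun t σ' => σ'.o = σ.o ∧ (∀ w, w ≠ .D → w ≠ .D2 → σ'.a w = σ.a w) ∧
      ∀ Q, OKt N 4 Q →
        (∀ j < N, ∀ y < N, Gen N A (Q ++ B) j y → σ'.a .D (Q ++ [j, y]) = true) ∧
        (∀ j < N, ∀ y < N, σ'.a .D (Q ++ [j, y]) = true → Co N A (Q ++ B) j y) ∧
        (∀ u < t, ∀ j < N, ∀ y < N, σ'.a .D (Q ++ [j, u]) = true →
          σ'.a .D (Q ++ [u, y]) = true → σ'.a .D (Q ++ [j, y]) = true))
    (by
      intro t ht σ' ⟨i1, i2, i3⟩
      set et := update e Va.r t with het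
      obtain ⟨f1, f2, f3⟩ := run_fill (N := N) Wa.D2 (qs ++ [Va.j, Va.y])
        (Fml.or (.arr .D (qs ++ [Va.j, Va.y]))
          (.and (.arr .D (qs ++ [Va.j, Va.r])) (.arr .D (qs ++ [Va.r, Va.y]))))
        (by decide) (by decide) et σ'
      set σ1 := (fill Wa.D2 (qs ++ [Va.j, Va.y]) (Fml.or (.arr .D (qs ++ [Va.j, Va.y]))
          (.and (.arr .D (qs ++ [Va.j, Va.r])) (.arr .D (qs ++ [Va.r, Va.y]))))).run N et σ' with hσ1
      obtain ⟨g1, g2, g3⟩ := run_fill (N := N) Wa.D (qs ++ [Va.j, Va.y])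
        (.arr .D2 (qs ++ [Va.j, Va.y])) (by decide) (by decide) et σ1
      set σ2 := (fill Wa.D (qs ++ [Va.j, Va.y]) (.arr .D2 (qs ++ [Va.j, Va.y]))).run N et σ1 with hσ2
      have hval : ∀ Q, OKt N 4 Q → ∀ j < N, ∀ y < N, (σ2.a .D (Q ++ [j, y]) = true ↔
          (σ'.a .D (Q ++ [j, y]) = true ∨ (σ'.a .D (Q ++ [j, t]) = true ∧
            σ'.a .D (Q ++ [t, y]) = true))) := by
        intro Q hQ j hj y hy
        obtain ⟨e1, e2, e3, _, e5⟩ := env_jy et hQ j y
        have her : et .r = t := by simp [het]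
        rw [g3 _ (hQ.append (okt_two hj hy)), Fml.eval_arr, List.map_append, e1, List.map_cons,
          List.map_cons, List.map_nil, e2, e3, f3 _ (hQ.append (okt_two hj hy)), Fml.eval_or,
          Fml.eval_and, Fml.eval_arr, Fml.eval_arr, Fml.eval_arr, List.map_append,
          List.map_append, List.map_append, e1]
        simp only [List.map_cons, List.map_nil, e2, e3, e5, her]
      refine ⟨?_, fun w hw hw2 => ?_, fun Q hQ => ?_⟩
      · change σ2.o = _
        rw [g1, f1, i1]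
      · change σ2.a w = _
        rw [g2 w hw, f2 w hw2, i2 w hw hw2]
      · change (∀ j < N, ∀ y < N, Gen N A (Q ++ B) j y → σ2.a .D (Q ++ [j, y]) = true) ∧
          (∀ j < N, ∀ y < N, σ2.a .D (Q ++ [j, y]) = true → Co N A (Q ++ B) j y) ∧
          (∀ u < t + 1, ∀ j < N, ∀ y < N, σ2.a .D (Q ++ [j, u]) = true →
            σ2.a .D (Q ++ [u, y]) = true → σ2.a .D (Q ++ [j, y]) = true)
        obtain ⟨k1, k2, k3⟩ := i3 Q hQ
        have hv := hval Q hQ
        refine ⟨fun j hj y hy h => (hv j hj y hy).2 (.inl (k1 j hj y hy h)),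
          fun j hj y hy h => ?_, fun u hu j hj y hy h1 h2 => ?_⟩
        · rcases (hv j hj y hy).1 h with h | ⟨h, h'⟩
          · exact k2 j hj y hy h
          · exact (k2 j hj t ht h).trans (k2 t ht y hy h')
        · have hu' : u < N := by omega
          rw [hv j hj u hu'] at h1
          rw [hv u hu' y hy] at h2
          rw [hv j hj y hy]
          rcases Nat.lt_or_ge u t with hut | hut
          · have k := k3 u hut
            rcases h1 with h1 | ⟨h1, h1'⟩
            · rcases h2 with h2 | ⟨h2, h2'⟩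
              · exact .inl (k j hj y hy h1 h2)
              · exact .inr ⟨k j hj t ht h1 h2, h2'⟩
            · rcases h2 with h2 | ⟨h2, h2'⟩
              · exact .inr ⟨h1, k t ht y hy h1' h2⟩
              · exact .inr ⟨h1, h2'⟩
          · have : u = t := by omega
            subst this
            have h1' : σ'.a .D (Q ++ [j, u]) = true := by
              rcases h1 with h | h
              · exact h
              · exact h.1
            have h2' : σ'.a .D (Q ++ [u, y]) = true := by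
              rcases h2 with h | h
              · exact h
              · exact h.2
            exact .inr ⟨h1', h2'⟩)
    (σ := σ) ⟨rfl, fun _ _ _ => rfl, fun Q hQ => ⟨fun j hj y hy h => (hD Q hQ j hj y hy).2 h,
      fun j hj y hy h => .single ((hD Q hQ j hj y hy).1 h),
      fun u hu => absurd hu (Nat.not_lt_zero u)⟩⟩
  obtain ⟨i1, i2, i3⟩ := key
  refine ⟨i1, i2, fun Q hQ j hj y hy => ?_⟩
  obtain ⟨k1, k2, k3⟩ := i3 Q hQ
  refine ⟨k2 j hj y hy, fun h => ?_⟩
  induction h with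
  | single h => exact k1 j hj _ hy h
  | tail h h' ih =>
    have hm := h'.1.1
    exact k3 _ hm j hj _ hy (ih hm) (k1 _ hm _ hy h')

end Pool.Agent.Lib.MP_df76ee_lc
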